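import Mathlib

/-!
# Algebra of real two by two matrices used for transfer matrices

`hs g` is half the square of the Hilbert-Schmidt norm, that is `cosh` of the hyperbolic distance
between `i` and `g i` when `det g = 1`.
-/

set_option autoImplicit false

open Real

namespace Pool.Agent.TMLim

/-- Real two by two matrices. -/
abbrev M2 := Matrix (Fin 2) (Fin 2) ℝ

/-- Half the square of the Hilbert-Schmidt norm. -/
noncomputable def hs (g : M2) : ℝ := (g 0 0 ^ 2 + g 0 1 ^ 2 + g 1 0 ^ 2 + g 1 1 ^ 2) / 2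

/-- Rotation matrix. -/
noncomputable def Rot (t : ℝ) : M2 := !![cos t, -sin t; sin t, cos t]

lemma mul_ent (g h : M2) (i j : Fin 2) : (g * h) i j = g i 0 * h 0 j + g i 1 * h 1 j := by
  rw [Matrix.mul_apply, Fin.sum_univ_two]

lemma det_ent (g : M2) : g.det = g 0 0 * g 1 1 - g 0 1 * g 1 0 := Matrix.det_fin_two g

@[simp] lemma Rot_00 (t : ℝ) : Rot t 0 0 = cos t := rfl
@[simp] lemma Rot_01 (t : ℝ) : Rot t 0 1 = -sin t := rfl
@[simp] lemma Rot_10 (t : ℝ) : Rot t 1 0 = sin t := rfl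
@[simp] lemma Rot_11 (t : ℝ) : Rot t 1 1 = cos t := rfl

lemma hs_nonneg (g : M2) : 0 ≤ hs g := by unfold hs; positivity

lemma one_le_hs {g : M2} (hg : g.det = 1) : 1 ≤ hs g := by
  rw [det_ent] at hg
  unfold hs
  nlinarith [sq_nonneg (g 0 0 - g 1 1), sq_nonneg (g 0 1 + g 1 0)]

/-- Existence of the polar angle. -/
lemma exists_angle (B C : ℝ) : ∃ t : ℝ, B = √(B ^ 2 + C ^ 2) * cos t ∧ C = √(B ^ 2 + C ^ 2) * sin t := by
  refine ⟨Complex.arg ⟨B, C⟩, ?_, ?_⟩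
  · have h := Complex.norm_mul_cos_arg ⟨B, C⟩
    rw [Complex.norm_def, Complex.normSq_apply] at h
    simp only at h
    rw [pow_two, pow_two, h]
  · have h := Complex.norm_mul_sin_arg ⟨B, C⟩
    rw [Complex.norm_def, Complex.normSq_apply] at h
    simp only at h
    rw [pow_two, pow_two, h]

/-- The hyperbolic law of cosines. -/
lemma hs_law {g h : M2} (hg : g.det = 1) (hh : h.det = 1) :
    ∃ t₀ : ℝ, ∀ t : ℝ, hs (g * Rot t * h) =
      hs g * hs h + √(hs g ^ 2 - 1) * √(hs h ^ 2 - 1) * cos (2 * t - t₀) := by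
  rw [det_ent] at hg hh
  set pm : ℝ := ((g 0 0 ^ 2 + g 1 0 ^ 2) - (g 0 1 ^ 2 + g 1 1 ^ 2)) / 2 with hpm
  set p2 : ℝ := g 0 0 * g 0 1 + g 1 0 * g 1 1 with hp2
  set qm : ℝ := ((h 0 0 ^ 2 + h 0 1 ^ 2) - (h 1 0 ^ 2 + h 1 1 ^ 2)) / 2 with hqm
  set q2 : ℝ := h 0 0 * h 1 0 + h 0 1 * h 1 1 with hq2
  have hP : hs g ^ 2 - 1 = pm ^ 2 + p2 ^ 2 := by
    have : (1 : ℝ) = (g 0 0 * g 1 1 - g 0 1 * g 1 0) ^ 2 := by rw [hg]; norm_num
    rw [this, hpm, hp2]; unfold hs; ring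
  have hQ : hs h ^ 2 - 1 = qm ^ 2 + q2 ^ 2 := by
    have : (1 : ℝ) = (h 0 0 * h 1 1 - h 0 1 * h 1 0) ^ 2 := by rw [hh]; norm_num
    rw [this, hqm, hq2]; unfold hs; ring
  obtain ⟨t₀, h1, h2⟩ := exists_angle (pm * qm + p2 * q2) (p2 * qm - pm * q2)
  have hamp : √((pm * qm + p2 * q2) ^ 2 + (p2 * qm - pm * q2) ^ 2)
      = √(hs g ^ 2 - 1) * √(hs h ^ 2 - 1) := by
    rw [← Real.sqrt_mul (by rw [hP]; positivity)]
    congr 1
    rw [hP, hQ]; ring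
  rw [hamp] at h1 h2
  refine ⟨t₀, fun t => ?_⟩
  have hc : cos (2 * t) = cos t ^ 2 - sin t ^ 2 := by
    rw [Real.cos_two_mul, Real.sin_sq]; ring
  have hs2 : sin (2 * t) = 2 * sin t * cos t := Real.sin_two_mul t
  have key : hs (g * Rot t * h) = hs g * hs h + cos (2 * t) * (pm * qm + p2 * q2)
      + sin (2 * t) * (p2 * qm - pm * q2) := by
    rw [hc, hs2]
    have h1' : cos t ^ 2 + sin t ^ 2 = 1 := Real.cos_sq_add_sin_sq t
    have e1 : hs g * hs h = hs g * hs h * (cos t ^ 2 + sin t ^ 2) := by rw [h1', mul_one]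
    rw [e1, hpm, hp2, hqm, hq2]
    unfold hs
    simp only [mul_ent, Rot_00, Rot_01, Rot_10, Rot_11]
    ring
  rw [key, Real.cos_sub]
  rw [show √(hs g ^ 2 - 1) * √(hs h ^ 2 - 1) * (cos (2 * t) * cos t₀ + sin (2 * t) * sin t₀)
    = cos (2 * t) * (√(hs g ^ 2 - 1) * √(hs h ^ 2 - 1) * cos t₀)
    + sin (2 * t) * (√(hs g ^ 2 - 1) * √(hs h ^ 2 - 1) * sin t₀) by ring]
  rw [← h1, ← h2]
  ring

/-- Submultiplicativity. -/
lemma hs_mul_le (g h : M2) : hs (g * h) ≤ 2 * hs g * hs h := by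
  unfold hs
  simp only [mul_ent]
  nlinarith [sq_nonneg (g 0 0 * h 1 0 - g 0 1 * h 0 0), sq_nonneg (g 0 0 * h 1 1 - g 0 1 * h 0 1),
    sq_nonneg (g 1 0 * h 1 0 - g 1 1 * h 0 0), sq_nonneg (g 1 0 * h 1 1 - g 1 1 * h 0 1)]

/-- `exp` of the hyperbolic distance. -/
noncomputable def Hf (c : ℝ) : ℝ := c + √(c ^ 2 - 1)

lemma Hf_pos {c : ℝ} (hc : 1 ≤ c) : 0 < Hf c := by
  unfold Hf; have := Real.sqrt_nonneg (c ^ 2 - 1); linarith

lemma one_le_Hf {c : ℝ} (hc : 1 ≤ c) : 1 ≤ Hf c := by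
  unfold Hf; have := Real.sqrt_nonneg (c ^ 2 - 1); linarith

lemma Hf_le {c : ℝ} (hc : 1 ≤ c) : Hf c ≤ 2 * c := by
  unfold Hf
  have : √(c ^ 2 - 1) ≤ c := by
    rw [Real.sqrt_le_left (by linarith)]
    linarith
  linarith

lemma Hf_mono {c d : ℝ} (hc : 1 ≤ c) (hcd : c ≤ d) : Hf c ≤ Hf d := by
  unfold Hf
  have : √(c ^ 2 - 1) ≤ √(d ^ 2 - 1) := by
    apply Real.sqrt_le_sqrt
    nlinarith
  linarith

/-- Key estimate for aligned products. -/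
lemma Hf_mul_le {C D c e : ℝ} (hC : 1 ≤ C) (hD : 1 ≤ D) (he : 0 ≤ e) (he1 : e ≤ 1)
    (hc : C * D + √(C ^ 2 - 1) * √(D ^ 2 - 1) * (1 - e) ≤ c) :
    (1 - e) * (Hf C * Hf D) ≤ Hf c := by
  set a := √(C ^ 2 - 1) with ha
  set b := √(D ^ 2 - 1) with hb
  have ha0 : 0 ≤ a := Real.sqrt_nonneg _
  have hb0 : 0 ≤ b := Real.sqrt_nonneg _
  have ha2 : a ^ 2 = C ^ 2 - 1 := Real.sq_sqrt (by nlinarith)
  have hb2 : b ^ 2 = D ^ 2 - 1 := Real.sq_sqrt (by nlinarith)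
  have hab : 0 ≤ a * b := mul_nonneg ha0 hb0
  have hCD : 1 ≤ C * D := by nlinarith
  have h1e : 0 ≤ 1 - e := by linarith
  have hx : 0 ≤ (C * b + D * a) := by positivity
  have h1 : ((1 - e) * (C * b + D * a)) ^ 2 ≤ c ^ 2 - 1 := by
    have hc0 : 0 ≤ C * D + a * b * (1 - e) := by positivity
    have h2 : (C * D + a * b * (1 - e)) ^ 2 ≤ c ^ 2 := by nlinarith
    have hCa : C ^ 2 = 1 + a ^ 2 := by linarith
    have hDb : D ^ 2 = 1 + b ^ 2 := by linarith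
    have h3 : (C * D + a * b * (1 - e)) ^ 2 - 1 = a ^ 2 + b ^ 2 + a ^ 2 * b ^ 2
        + (1 - e) ^ 2 * (a ^ 2 * b ^ 2) + 2 * (1 - e) * (C * D * (a * b)) := by
      have : (C * D + a * b * (1 - e)) ^ 2 - 1 = C ^ 2 * D ^ 2 - 1
        + (1 - e) ^ 2 * (a ^ 2 * b ^ 2) + 2 * (1 - e) * (C * D * (a * b)) := by ring
      rw [this, hCa, hDb]; ring
    have h4 : ((1 - e) * (C * b + D * a)) ^ 2 = (1 - e) ^ 2 * (a ^ 2 + b ^ 2 + 2 * (a ^ 2 * b ^ 2)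
        + 2 * (C * D * (a * b))) := by
      have : ((1 - e) * (C * b + D * a)) ^ 2 = (1 - e) ^ 2 * (C ^ 2 * b ^ 2 + D ^ 2 * a ^ 2
        + 2 * (C * D * (a * b))) := by ring
      rw [this, hCa, hDb]; ring
    have h5 : (1 - e) ^ 2 ≤ 1 := by nlinarith
    have h6 : (1 - e) ^ 2 ≤ 1 - e := by nlinarith
    have h7 : 0 ≤ C * D * (a * b) := by positivity
    have h8 : 0 ≤ a ^ 2 + b ^ 2 + a ^ 2 * b ^ 2 := by positivity
    rw [h4]
    nlinarith [mul_le_mul_of_nonneg_right h5 h8, mul_le_mul_of_nonneg_right h6 h7]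
  have h2 : (1 - e) * (C * b + D * a) ≤ √(c ^ 2 - 1) := Real.le_sqrt_of_sq_le h1
  have h3 : (1 - e) * (C * D + a * b) ≤ c := by
    refine le_trans ?_ hc
    nlinarith
  unfold Hf
  rw [← ha, ← hb]
  nlinarith

/-- Almost cancelling products. -/
lemma hs_cancel {P Q K e c : ℝ} (hP : 1 ≤ P) (hQ : 1 ≤ Q) (hK1 : P ≤ K * Q) (hK2 : Q ≤ K * P)
    (hK : 0 ≤ K) (he : 0 ≤ e)
    (he1 : e * (P * Q) ≤ 1)
    (hc : c ≤ P * Q - √(P ^ 2 - 1) * √(Q ^ 2 - 1) * (1 - e)) : c ≤ 2 * K + 1 := by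
  set a := √(P ^ 2 - 1) with ha
  set b := √(Q ^ 2 - 1) with hb
  have ha0 : 0 ≤ a := Real.sqrt_nonneg _
  have hb0 : 0 ≤ b := Real.sqrt_nonneg _
  have ha2 : a ^ 2 = P ^ 2 - 1 := Real.sq_sqrt (by nlinarith)
  have hb2 : b ^ 2 = Q ^ 2 - 1 := Real.sq_sqrt (by nlinarith)
  have haP : a ≤ P := by nlinarith
  have hbQ : b ≤ Q := by nlinarith
  have hab : a * b ≤ P * Q := mul_le_mul haP hbQ hb0 (by linarith)
  have hPQ : 0 < P * Q := by positivity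
  have h1 : (P * Q - a * b) * (P * Q + a * b) = P ^ 2 + Q ^ 2 - 1 := by
    have : (P * Q - a * b) * (P * Q + a * b) = P ^ 2 * Q ^ 2 - a ^ 2 * b ^ 2 := by ring
    rw [this, ha2, hb2]; ring
  have h2 : (P * Q - a * b) * (P * Q) ≤ 2 * K * (P * Q) := by
    have h3 : 0 ≤ (P * Q - a * b) := by linarith
    have h4 : (P * Q - a * b) * (P * Q) ≤ (P * Q - a * b) * (P * Q + a * b) := by
      apply mul_le_mul_of_nonneg_left _ h3
      have : 0 ≤ a * b := mul_nonneg ha0 hb0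
      linarith
    have h5 : P ^ 2 ≤ K * (P * Q) := by nlinarith
    have h6 : Q ^ 2 ≤ K * (P * Q) := by nlinarith
    linarith
  have h3 : P * Q - a * b ≤ 2 * K := le_of_mul_le_mul_right h2 hPQ
  have h4 : a * b * e ≤ 1 := by
    have : a * b * e ≤ P * Q * e := mul_le_mul_of_nonneg_right hab he
    linarith
  nlinarith

end Pool.Agent.TMLim
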