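import Mathlib

/-!
# Choosing one index from a bound on Cesaro averages
-/

set_option autoImplicit false

open Filter Topology MeasureTheory Set

namespace Pool.Agent.TMLim

lemma avg_exists {α : Type*} [MeasurableSpace α] {μ : Measure α} [IsFiniteMeasure μ]
    {f : ℕ → α → ℝ} {g : α → ℝ} {c : ℝ} (hc : 0 ≤ c)
    (hf : ∀ N, Measurable (f N)) (hg : Measurable g)
    (hf0 : ∀ᵐ x ∂μ, ∀ N, 0 ≤ f N x) (hf1 : ∀ᵐ x ∂μ, ∀ N, f N x ≤ 1)
    (hg0 : ∀ᵐ x ∂μ, 0 ≤ g x) (hg1 : ∀ᵐ x ∂μ, g x ≤ 1)
    (h : ∀ᵐ x ∂μ, ∀ τ > 0, ∀ᶠ K : ℕ in atTop,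
      (∑ N ∈ Finset.range K, f N x) / (K : ℝ) ≤ g x + c + τ)
    {τ : ℝ} (hτ : 0 < τ) :
    ∃ N, ∫ x, f N x ∂μ ≤ ∫ x, g x ∂μ + c * μ.real univ + τ := by
  set ψ : ℕ → α → ℝ := fun K x => max 0 ((∑ N ∈ Finset.range K, f N x) / (K : ℝ) - (g x + c))
    with hψ
  have hψm : ∀ K, Measurable (ψ K) := by
    intro K
    simp only [hψ]
    refine Measurable.max measurable_const (Measurable.sub (Measurable.div_const ?_ _) ?_)
    · exact Finset.measurable_fun_sum _ (fun N _ => hf N)
    · exact hg.add_const _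
  have havg1 : ∀ᵐ x ∂μ, ∀ K : ℕ, (∑ N ∈ Finset.range K, f N x) / (K : ℝ) ≤ 1 := by
    filter_upwards [hf1] with x hx K
    rcases Nat.eq_zero_or_pos K with h0 | h0
    · subst h0; simp
    · rw [div_le_one (by exact_mod_cast h0)]
      calc ∑ N ∈ Finset.range K, f N x ≤ ∑ N ∈ Finset.range K, (1 : ℝ) :=
            Finset.sum_le_sum (fun N _ => hx N)
        _ = K := by simp
  have hlim : Tendsto (fun K => ∫ x, ψ K x ∂μ) atTop (𝓝 (∫ _ : α, (0 : ℝ) ∂μ)) := by
    apply tendsto_integral_of_dominated_convergence (fun _ => (1 : ℝ))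
    · exact fun K => (hψm K).aestronglyMeasurable
    · exact integrable_const _
    · intro K
      filter_upwards [havg1, hg0] with x hx hgx
      rw [Real.norm_eq_abs, abs_of_nonneg (le_max_left _ _)]
      apply max_le (by norm_num)
      have := hx K
      linarith
    · filter_upwards [h] with x hx
      rw [Metric.tendsto_atTop]
      intro ε hε
      obtain ⟨K₀, hK₀⟩ := (hx (ε / 2) (by positivity)).exists_forall_of_atTop
      refine ⟨K₀, fun K hK => ?_⟩
      rw [Real.dist_eq, sub_zero, abs_of_nonneg (le_max_left _ _)]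
      refine lt_of_le_of_lt (max_le (by positivity : (0:ℝ) ≤ ε / 2) ?_) (by linarith)
      have := hK₀ K hK
      linarith
  rw [integral_zero] at hlim
  have hev := hlim.eventually_lt_const hτ
  obtain ⟨K, hK, hK1⟩ := (hev.and (eventually_ge_atTop 1)).exists
  have hKpos : (0 : ℝ) < K := by exact_mod_cast hK1
  by_contra hcon
  push Not at hcon
  have hfint : ∀ N, Integrable (f N) μ := by
    intro N
    refine Integrable.mono' (integrable_const (1 : ℝ)) (hf N).aestronglyMeasurable ?_
    filter_upwards [hf0, hf1] with x h0 h1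
    rw [Real.norm_eq_abs, abs_of_nonneg (h0 N)]
    exact h1 N
  have hgint : Integrable g μ := by
    refine Integrable.mono' (integrable_const (1 : ℝ)) hg.aestronglyMeasurable ?_
    filter_upwards [hg0, hg1] with x h0 h1
    rw [Real.norm_eq_abs, abs_of_nonneg h0]
    exact h1
  have hψint : Integrable (ψ K) μ := by
    refine Integrable.mono' (integrable_const (1 : ℝ)) (hψm K).aestronglyMeasurable ?_
    filter_upwards [havg1, hg0] with x hx hgx
    rw [Real.norm_eq_abs, abs_of_nonneg (le_max_left _ _)]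
    apply max_le (by norm_num)
    have := hx K
    linarith
  have h1 : ∫ x, (∑ N ∈ Finset.range K, f N x) / (K : ℝ) ∂μ
      ≤ ∫ x, ((g x + c) + ψ K x) ∂μ := by
    apply integral_mono
    · exact (integrable_finsetSum _ (fun N _ => hfint N)).div_const _
    · exact (hgint.add (integrable_const c)).add hψint
    · intro x
      have : (∑ N ∈ Finset.range K, f N x) / (K : ℝ) - (g x + c) ≤ ψ K x := le_max_right _ _
      show (∑ N ∈ Finset.range K, f N x) / (K : ℝ) ≤ (g x + c) + ψ K x
      linarith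
  have hgc : Integrable (fun x => g x + c) μ := hgint.add (integrable_const c)
  have e1 : ∫ x, ((g x + c) + ψ K x) ∂μ = ∫ x, (g x + c) ∂μ + ∫ x, ψ K x ∂μ :=
    integral_add hgc hψint
  have e2 : ∫ x, (g x + c) ∂μ = ∫ x, g x ∂μ + μ.real univ * c := by
    rw [integral_add hgint (integrable_const c), integral_const, smul_eq_mul]
  rw [integral_div, integral_finsetSum _ (fun N _ => hfint N), e1, e2] at h1
  rw [div_le_iff₀ hKpos] at h1
  have h2 : ∑ N ∈ Finset.range K, (∫ x, g x ∂μ + c * μ.real univ + τ)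
      < ∑ N ∈ Finset.range K, ∫ x, f N x ∂μ := by
    apply Finset.sum_lt_sum_of_nonempty
    · exact ⟨0, Finset.mem_range.mpr (by omega)⟩
    · intro N _; exact hcon N
  rw [Finset.sum_const, Finset.card_range, nsmul_eq_mul] at h2
  nlinarith

end Pool.Agent.TMLim
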