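import Pool.Agent.TMLim.Growth

/-!
# The potential
-/

set_option autoImplicit false

open Real Filter Topology MeasureTheory Set

namespace Pool.Agent.TMLim

lemma step_lemma (V : ℕ → ℝ) (n : ℕ) (hV : ∀ k, |V k| ≤ 100) (j : ℕ) :
    ∃ (V' : ℕ → ℝ) (n' : ℕ), n < n' ∧ (∀ k, |V' k| ≤ 100) ∧ (∀ k < n, V' k = V k) ∧
      muI {E | ¬ ∃ t, n ≤ t ∧ t ≤ n' ∧ hs (T V' E t) ≤ 13} ≤ ENNReal.ofReal ((1 / 2) ^ j) ∧
      muI {E | (T V' E n') 0 0 ^ 2 + (T V' E n') 1 0 ^ 2 < j} ≤ ENNReal.ofReal ((1 / 2) ^ j) := by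
  obtain ⟨U₁, hU₁, K₁, h1⟩ := return_lemma V n (δ := (1 / 2) ^ j) (by positivity)
  set V₁ := cat V n U₁ with hV₁
  set n₁ := n + K₁ + 1 with hn₁
  obtain ⟨U₂, hU₂, K₂, h2⟩ := growth_lemma V₁ n₁ (δ := (1 / 2) ^ j) (by positivity) j
  have hV₁b : ∀ k, |V₁ k| ≤ 100 := by
    intro k
    rw [hV₁]
    unfold cat
    split_ifs
    · exact hV k
    · obtain ⟨a, b⟩ := hU₁ (k - n)
      rw [abs_le]; constructor <;> linarith
  refine ⟨cat V₁ n₁ U₂, n₁ + K₂, by omega, ?_, ?_, ?_, ?_⟩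
  · intro k
    unfold cat
    split_ifs
    · exact hV₁b k
    · exact hU₂ _
  · intro k hk
    rw [cat_lt (by omega), hV₁, cat_lt hk]
  · refine (measure_mono ?_).trans h1
    intro E hE hex
    apply hE
    obtain ⟨t, ht, hht⟩ := hex
    refine ⟨n + t, by omega, by omega, ?_⟩
    have e1 : T (cat V₁ n₁ U₂) E (n + t) = T V₁ E (n + t) :=
      T_congr E (fun k hk => cat_lt (by omega))
    rw [e1, hV₁, T_cat]
    exact hht
  · refine (measure_mono ?_).trans h2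
    intro E hE
    rw [Set.mem_ofPred_eq] at hE ⊢
    rwa [T_cat] at hE

/-- The stages of the construction. -/
noncomputable def stage : ℕ → {q : (ℕ → ℝ) × ℕ // ∀ k, |q.1 k| ≤ 100}
  | 0 => ⟨(fun _ => 0, 0), fun k => by simp⟩
  | j + 1 =>
    ⟨((step_lemma (stage j).1.1 (stage j).1.2 (stage j).2 j).choose,
      (step_lemma (stage j).1.1 (stage j).1.2 (stage j).2 j).choose_spec.choose),
      (step_lemma (stage j).1.1 (stage j).1.2 (stage j).2 j).choose_spec.choose_spec.2.1⟩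

lemma stage_spec (j : ℕ) :
    (stage j).1.2 < (stage (j + 1)).1.2 ∧
    (∀ k < (stage j).1.2, (stage (j + 1)).1.1 k = (stage j).1.1 k) ∧
    muI {E | ¬ ∃ t, (stage j).1.2 ≤ t ∧ t ≤ (stage (j + 1)).1.2 ∧
      hs (T (stage (j + 1)).1.1 E t) ≤ 13} ≤ ENNReal.ofReal ((1 / 2) ^ j) ∧
    muI {E | (T (stage (j + 1)).1.1 E (stage (j + 1)).1.2) 0 0 ^ 2
      + (T (stage (j + 1)).1.1 E (stage (j + 1)).1.2) 1 0 ^ 2 < j}
      ≤ ENNReal.ofReal ((1 / 2) ^ j) := by
  have h := (step_lemma (stage j).1.1 (stage j).1.2 (stage j).2 j).choose_spec.choose_spec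
  exact ⟨h.1, h.2.2.1, h.2.2.2.1, h.2.2.2.2⟩

lemma stage_ge (j : ℕ) : j ≤ (stage j).1.2 := by
  induction j with
  | zero => exact Nat.zero_le _
  | succ j ih => have := (stage_spec j).1; omega

lemma stage_mono {i j : ℕ} (hij : i ≤ j) : (stage i).1.2 ≤ (stage j).1.2 := by
  induction j, hij using Nat.le_induction with
  | base => exact le_refl _
  | succ j _ ih => have := (stage_spec j).1; omega

lemma stage_agree {i j : ℕ} (hij : i ≤ j) {k : ℕ} (hk : k < (stage i).1.2) :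
    (stage j).1.1 k = (stage i).1.1 k := by
  induction j, hij using Nat.le_induction with
  | base => rfl
  | succ j hj ih =>
    rw [(stage_spec j).2.1 k (lt_of_lt_of_le hk (stage_mono hj)), ih]

/-- The potential. -/
noncomputable def Vpot (k : ℕ) : ℝ := (stage (k + 1)).1.1 k

lemma Vpot_bdd (k : ℕ) : |Vpot k| ≤ 100 := (stage (k + 1)).2 k

lemma Vpot_agree (j : ℕ) {k : ℕ} (hk : k < (stage j).1.2) : Vpot k = (stage j).1.1 k := by
  unfold Vpot
  rcases le_total j (k + 1) with h | h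
  · exact stage_agree h hk
  · have hk' : k < (stage (k + 1)).1.2 := by have := stage_ge (k + 1); omega
    exact (stage_agree h hk').symm

lemma T_Vpot (j : ℕ) {t : ℕ} (ht : t ≤ (stage j).1.2) (E : ℝ) :
    T Vpot E t = T (stage j).1.1 E t :=
  T_congr E (fun k hk => Vpot_agree j (by omega))

/-- Return at almost every energy. -/
theorem Vpot_return : ∀ᵐ E ∂muI, ∃ᶠ t in atTop, hs (T Vpot E t) ≤ 13 := by
  have hsum : ∑' j, muI {E | ¬ ∃ t, (stage j).1.2 ≤ t ∧ t ≤ (stage (j + 1)).1.2 ∧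
      hs (T (stage (j + 1)).1.1 E t) ≤ 13} ≠ ⊤ := by
    refine ne_top_of_le_ne_top ?_ (ENNReal.tsum_le_tsum (fun j => (stage_spec j).2.2.1))
    rw [← ENNReal.ofReal_tsum_of_nonneg (fun j => by positivity) summable_geometric_two]
    exact ENNReal.ofReal_ne_top
  have hbc := ae_eventually_notMem hsum
  filter_upwards [hbc] with E hE
  rw [frequently_atTop]
  intro a
  obtain ⟨j, hj, hja⟩ := (hE.and (eventually_ge_atTop a)).exists
  simp only [Set.mem_ofPred_eq, not_not] at hj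
  obtain ⟨t, h1, h2, h3⟩ := hj
  refine ⟨t, ?_, ?_⟩
  · exact hja.trans ((stage_ge j).trans h1)
  · rw [T_Vpot (j + 1) h2]; exact h3

/-- Growth in measure along a sequence of times. -/
theorem Vpot_growth (j : ℕ) : ∃ n : ℕ, 1 ≤ n ∧
    muI {E | (T Vpot E n) 0 0 ^ 2 + (T Vpot E n) 1 0 ^ 2 < j} ≤ ENNReal.ofReal ((1 / 2) ^ j) := by
  refine ⟨(stage (j + 1)).1.2, ?_, ?_⟩
  · have := stage_ge (j + 1); omega
  · have h := (stage_spec j).2.2.2
    refine (measure_mono ?_).trans h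
    intro E hE
    rw [Set.mem_ofPred_eq] at hE ⊢
    rwa [T_Vpot (j + 1) (le_refl _)] at hE

end Pool.Agent.TMLim
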