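import Mathlib

/-!
# Integrals against the Cauchy distribution
-/

set_option autoImplicit false

open Real MeasureTheory Set Filter Topology

namespace Pool.Agent.TMLim

/-- The complement of the truncated quadratic penalty. -/
noncomputable def uf (a s c : ℝ) : ℝ := max 0 (1 - 4 * (a - s * c) ^ 2)

/-- The tent function measuring the gain. -/
noncomputable def gf (h c : ℝ) : ℝ := (h / 2) * max 0 (min c (1 / h - c))

lemma uf_continuous (a s : ℝ) : Continuous (uf a s) := by unfold uf; fun_prop
lemma gf_continuous (h : ℝ) : Continuous (gf h) := by unfold gf; fun_prop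

lemma uf_nonneg (a s c : ℝ) : 0 ≤ uf a s c := le_max_left _ _
lemma uf_le_one (a s c : ℝ) : uf a s c ≤ 1 := by
  unfold uf
  apply max_le (by norm_num)
  nlinarith [sq_nonneg (a - s * c)]

lemma gf_nonneg {h : ℝ} (hh : 0 < h) (c : ℝ) : 0 ≤ gf h c := by
  unfold gf
  have := le_max_left 0 (min c (1 / h - c))
  positivity

lemma gf_le {h : ℝ} (hh : 0 < h) (c : ℝ) : gf h c ≤ 1 / 4 := by
  unfold gf
  have h1 : max 0 (min c (1 / h - c)) ≤ 1 / (2 * h) := by
    apply max_le (by positivity)
    rcases le_total c (1 / (2 * h)) with h2 | h2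
    · exact (min_le_left _ _).trans h2
    · refine (min_le_right _ _).trans ?_
      have : 1 / h = 1 / (2 * h) + 1 / (2 * h) := by field_simp; norm_num
      linarith
  calc h / 2 * max 0 (min c (1 / h - c)) ≤ h / 2 * (1 / (2 * h)) := by gcongr
    _ = 1 / 4 := by field_simp; norm_num

lemma uf_zero {a s : ℝ} (hs : 0 < s) (ha : |a| ≤ 1) {c : ℝ} (hc : 2 / s ≤ |c|) : uf a s c = 0 := by
  unfold uf
  apply max_eq_left
  have h1 : 2 ≤ |s * c| := by
    rw [abs_mul, abs_of_pos hs]
    rw [div_le_iff₀ hs] at hc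
    linarith
  have h2 : 1 ≤ |a - s * c| := by
    have := abs_sub_abs_le_abs_sub (s * c) a
    rw [abs_sub_comm] at this
    linarith
  have h3 : 1 ≤ (a - s * c) ^ 2 := by
    rw [← sq_abs]; nlinarith
  linarith

lemma gf_zero {h : ℝ} (hh : 0 < h) {c : ℝ} (hc : 1 / h ≤ |c|) : gf h c = 0 := by
  unfold gf
  have h1 : 0 < 1 / h := by positivity
  rw [max_eq_left, mul_zero]
  rcases le_abs.mp hc with h2 | h2
  · exact (min_le_right _ _).trans (by linarith)
  · exact (min_le_left _ _).trans (by linarith)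

lemma one_add_sq_pos (c : ℝ) : 0 < 1 + c ^ 2 := by positivity

lemma integrable_div {F : ℝ → ℝ} (hF : Continuous F) {B : ℝ} (hB : ∀ c, B ≤ |c| → F c = 0) :
    Integrable (fun c => F c / (1 + c ^ 2)) := by
  apply Continuous.integrable_of_hasCompactSupport
  · exact hF.div (by fun_prop) (fun c => (one_add_sq_pos c).ne')
  · apply HasCompactSupport.intro (isCompact_Icc (a := -|B|) (b := |B|))
    intro c hc
    have : B ≤ |c| := by
      by_contra hcon
      push Not at hcon
      apply hc
      have h2 := abs_lt.mp (lt_of_lt_of_le hcon (le_abs_self B))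
      exact ⟨h2.1.le, h2.2.le⟩
    rw [hB c this, zero_div]

lemma int_u {a s : ℝ} (hs : 0 < s) (ha : |a| ≤ 1) :
    1 - 4 * a ^ 2 - 4 * s ≤ (1 / π) * ∫ c, uf a s c / (1 + c ^ 2) := by
  have hpi := Real.pi_pos
  have hpi3 := Real.pi_gt_three
  set B : ℝ := 1 / s with hBdef
  have hB : 0 < B := by positivity
  have hint := integrable_div (uf_continuous a s) (fun c hc => uf_zero hs ha hc)
  have h1 : ∫ c in (-B)..B, uf a s c / (1 + c ^ 2) ≤ ∫ c, uf a s c / (1 + c ^ 2) := by
    rw [intervalIntegral.integral_of_le (by linarith)]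
    apply setIntegral_le_integral hint
    exact Eventually.of_forall (fun c => div_nonneg (uf_nonneg a s c) (one_add_sq_pos c).le)
  have h2 : ∫ c in (-B)..B, ((1 - 4 * a ^ 2) * (1 / (1 + c ^ 2)) + (8 * a * s) * (c / (1 + c ^ 2))
      - 4 * s ^ 2) ≤ ∫ c in (-B)..B, uf a s c / (1 + c ^ 2) := by
    apply intervalIntegral.integral_mono_on (by linarith)
    · apply Continuous.intervalIntegrable
      have h3 : Continuous (fun c : ℝ => 1 / (1 + c ^ 2)) :=
        continuous_const.div (by fun_prop) (fun c => (one_add_sq_pos c).ne')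
      have h4 : Continuous (fun c : ℝ => c / (1 + c ^ 2)) :=
        continuous_id.div (by fun_prop) (fun c => (one_add_sq_pos c).ne')
      fun_prop
    · exact hint.intervalIntegrable
    · intro c _
      have h3 : 1 - 4 * (a - s * c) ^ 2 ≤ uf a s c := le_max_right _ _
      have hp := one_add_sq_pos c
      rw [le_div_iff₀ hp]
      have e1 : ((1 - 4 * a ^ 2) * (1 / (1 + c ^ 2)) + 8 * a * s * (c / (1 + c ^ 2)) - 4 * s ^ 2)
          * (1 + c ^ 2) = (1 - 4 * a ^ 2) + 8 * a * s * c - 4 * s ^ 2 * (1 + c ^ 2) := by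
        field_simp
      rw [e1]
      nlinarith [sq_nonneg s]
  have hodd : ∫ c in (-B)..B, c / (1 + c ^ 2) = 0 := by
    have h3 := intervalIntegral.integral_comp_neg (a := -B) (b := B) (fun c : ℝ => c / (1 + c ^ 2))
    rw [neg_neg] at h3
    have h4 : ∀ c : ℝ, -c / (1 + (-c) ^ 2) = -(c / (1 + c ^ 2)) := by
      intro c; rw [neg_sq, neg_div]
    simp_rw [h4] at h3
    rw [intervalIntegral.integral_neg] at h3
    linarith
  have hc1 : Continuous (fun c : ℝ => 1 / (1 + c ^ 2)) :=
    continuous_const.div (by fun_prop) (fun c => (one_add_sq_pos c).ne')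
  have hc2 : Continuous (fun c : ℝ => c / (1 + c ^ 2)) :=
    continuous_id.div (by fun_prop) (fun c => (one_add_sq_pos c).ne')
  have h3 : ∫ c in (-B)..B, ((1 - 4 * a ^ 2) * (1 / (1 + c ^ 2)) + (8 * a * s) * (c / (1 + c ^ 2))
      - 4 * s ^ 2) = (1 - 4 * a ^ 2) * (2 * arctan B) - 4 * s ^ 2 * (2 * B) := by
    rw [intervalIntegral.integral_sub, intervalIntegral.integral_add,
      intervalIntegral.integral_const_mul, intervalIntegral.integral_const_mul, hodd,
      intervalIntegral.integral_const, integral_one_div_one_add_sq, Real.arctan_neg]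
    · simp only [smul_eq_mul]; ring
    · exact (hc1.const_mul _).intervalIntegrable _ _
    · exact (hc2.const_mul _).intervalIntegrable _ _
    · exact ((hc1.const_mul _).add (hc2.const_mul _)).intervalIntegrable _ _
    · exact intervalIntegrable_const
  have h4 : arctan B = π / 2 - arctan s := by
    rw [hBdef, one_div, Real.arctan_inv_of_pos hs]
  have h5 : arctan s ≤ s := by
    have h51 : 0 < arctan s := Real.arctan_pos.mpr hs
    have := Real.lt_tan h51 (Real.arctan_lt_pi_div_two s)
    rw [Real.tan_arctan] at this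
    exact this.le
  have h6 : 0 ≤ arctan s := by rw [← Real.arctan_zero]; exact Real.arctan_mono hs.le
  have h7 : 4 * s ^ 2 * (2 * B) = 8 * s := by rw [hBdef]; field_simp; ring
  have h8 : (1 - 4 * a ^ 2) * (2 * arctan B) ≥ (1 - 4 * a ^ 2) * π - 2 * s := by
    rw [h4]
    have : (1 - 4 * a ^ 2) * (2 * (π / 2 - arctan s)) = (1 - 4 * a ^ 2) * π
      - 2 * arctan s * (1 - 4 * a ^ 2) := by ring
    rw [this]
    nlinarith [sq_nonneg a, mul_nonneg h6 (sq_nonneg a)]
  have h9 : (1 - 4 * a ^ 2) * π - 10 * s ≤ ∫ c, uf a s c / (1 + c ^ 2) := by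
    linarith
  have h10 : (1 - 4 * a ^ 2 - 4 * s) * π ≤ (1 - 4 * a ^ 2) * π - 10 * s := by
    nlinarith
  rw [one_div, inv_mul_eq_div, le_div_iff₀ hpi]
  linarith

lemma int_g {h : ℝ} (hh : 0 < h) (hh1 : h ≤ 1 / 2) :
    h / (4 * π) * log (1 / (2 * h)) ≤ (1 / π) * ∫ c, gf h c / (1 + c ^ 2) := by
  have hpi := Real.pi_pos
  set B : ℝ := 1 / (2 * h) with hBdef
  have hB : 1 ≤ B := by rw [hBdef, le_div_iff₀ (by positivity)]; linarith
  have hint := integrable_div (gf_continuous h) (fun c hc => gf_zero hh hc)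
  have h1 : ∫ c in (1:ℝ)..B, gf h c / (1 + c ^ 2) ≤ ∫ c, gf h c / (1 + c ^ 2) := by
    rw [intervalIntegral.integral_of_le hB]
    apply setIntegral_le_integral hint
    exact Eventually.of_forall (fun c => div_nonneg (gf_nonneg hh c) (one_add_sq_pos c).le)
  have h2 : ∫ c in (1:ℝ)..B, (h / 4) * (1 / c) ≤ ∫ c in (1:ℝ)..B, gf h c / (1 + c ^ 2) := by
    apply intervalIntegral.integral_mono_on hB
    · apply ContinuousOn.intervalIntegrable
      rw [uIcc_of_le hB]
      intro c hc
      have : c ≠ 0 := by have := hc.1; linarith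
      exact (ContinuousAt.mul continuousAt_const
        (continuousAt_const.div continuousAt_id this)).continuousWithinAt
    · exact hint.intervalIntegrable
    · intro c hc
      have hc1 := hc.1
      have hc2 := hc.2
      have hcpos : 0 < c := by linarith
      have e1 : gf h c = h / 2 * c := by
        unfold gf
        have h3 : c ≤ 1 / h - c := by
          have : 1 / h = B + B := by rw [hBdef]; field_simp; norm_num
          rw [this]; linarith
        rw [min_eq_left h3, max_eq_right hcpos.le]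
      rw [e1, le_div_iff₀ (one_add_sq_pos c)]
      have : h / 4 * (1 / c) * (1 + c ^ 2) = h / 4 * (1 / c + c) := by field_simp
      rw [this]
      have h4 : 1 / c ≤ c := by
        rw [div_le_iff₀ hcpos]; nlinarith
      nlinarith
  have h3 : ∫ c in (1:ℝ)..B, (h / 4) * (1 / c) = h / 4 * log B := by
    rw [intervalIntegral.integral_const_mul, integral_one_div_of_pos (by norm_num) (by linarith),
      div_one]
  have h4 : h / 4 * log B ≤ ∫ c, gf h c / (1 + c ^ 2) := by linarith
  calc h / (4 * π) * log B = (1 / π) * (h / 4 * log B) := by field_simp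
    _ ≤ _ := by gcongr

end Pool.Agent.TMLim
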