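import Pool.Agent.TMLim.Defs

/-!
# The Jacobi operator with unit off-diagonal parameters
-/

set_option autoImplicit false

open MeasureTheory Filter
open scoped ComplexConjugate

namespace Pool.Agent.TMLim

lemma two_toReal : (2 : ENNReal).toReal = 2 := by norm_num

lemma sum_sq (u : Ell2) : Summable fun n => ‖u n‖ ^ (2 : ENNReal).toReal :=
  (lp.memℓp u).summable (by norm_num)

/-- Left shift. -/
noncomputable def Lsh : Ell2 →ₗ[ℂ] Ell2 where
  toFun u := ⟨fun n => u (n + 1), memℓp_gen ((summable_nat_add_iff 1).mpr (sum_sq u))⟩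
  map_add' u v := by ext n; rfl
  map_smul' c u := by ext n; rfl

/-- Right shift. -/
noncomputable def Rsh : Ell2 →ₗ[ℂ] Ell2 where
  toFun u := ⟨fun n => if n = 0 then 0 else u (n - 1), memℓp_gen (by
    apply (summable_nat_add_iff 1).mp
    simpa using sum_sq u)⟩
  map_add' u v := by
    ext n
    show (if n = 0 then (0:ℂ) else (u + v) (n - 1)) = (if n = 0 then 0 else u (n - 1))
      + (if n = 0 then 0 else v (n - 1))
    split_ifs
    · simp
    · rfl
  map_smul' c u := by
    ext n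
    show (if n = 0 then (0:ℂ) else (c • u) (n - 1)) = c • (if n = 0 then (0:ℂ) else u (n - 1))
    split_ifs
    · simp
    · rfl

/-- Multiplication by a bounded real sequence. -/
noncomputable def Mop (V : ℕ → ℝ) (C : ℝ) (hV : ∀ k, |V k| ≤ C) : Ell2 →ₗ[ℂ] Ell2 where
  toFun u := ⟨fun n => (V n : ℂ) * u n, memℓp_gen (by
    refine Summable.of_nonneg_of_le (fun n => by positivity) (fun n => ?_)
      ((sum_sq u).mul_left (C ^ 2))
    rw [two_toReal, Real.rpow_two, Real.rpow_two, norm_mul, Complex.norm_real, Real.norm_eq_abs,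
      mul_pow]
    have h1 : |V n| ^ 2 ≤ C ^ 2 := pow_le_pow_left₀ (abs_nonneg _) (hV n) 2
    gcongr)⟩
  map_add' u v := by
    ext n
    show (V n : ℂ) * (u + v) n = (V n : ℂ) * u n + (V n : ℂ) * v n
    rw [lp.coeFn_add, Pi.add_apply]; ring
  map_smul' c u := by
    ext n
    show (V n : ℂ) * (c • u) n = c * ((V n : ℂ) * u n)
    rw [lp.coeFn_smul, Pi.smul_apply, smul_eq_mul]; ring

lemma Lsh_apply (u : Ell2) (n : ℕ) : (Lsh u) n = u (n + 1) := rfl
lemma Rsh_apply (u : Ell2) (n : ℕ) : (Rsh u) n = if n = 0 then 0 else u (n - 1) := rfl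
lemma Mop_apply (V : ℕ → ℝ) (C : ℝ) (hV : ∀ k, |V k| ≤ C) (u : Ell2) (n : ℕ) :
    (Mop V C hV u) n = (V n : ℂ) * u n := rfl

lemma inner_LR (u v : Ell2) : inner ℂ (Lsh u) v = inner ℂ u (Rsh v) := by
  rw [lp.inner_eq_tsum, lp.inner_eq_tsum]
  have h := lp.summable_inner (𝕜 := ℂ) u (Rsh v)
  rw [h.tsum_eq_zero_add]
  simp only [Rsh_apply, Lsh_apply, if_true, inner_zero_right, zero_add, Nat.add_sub_cancel,
    Nat.succ_ne_zero, if_false, Nat.add_eq_zero_iff, one_ne_zero, and_false]

/-- The Jacobi operator as a linear map. -/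
noncomputable def Jlin (V : ℕ → ℝ) (C : ℝ) (hV : ∀ k, |V k| ≤ C) : Ell2 →ₗ[ℂ] Ell2 :=
  Lsh + Mop V C hV + Rsh

lemma Jlin_symm (V : ℕ → ℝ) (C : ℝ) (hV : ∀ k, |V k| ≤ C) : (Jlin V C hV).IsSymmetric := by
  intro u v
  have h1 : inner ℂ (Lsh u) v = inner ℂ u (Rsh v) := inner_LR u v
  have h2 : inner ℂ (Rsh u) v = inner ℂ u (Lsh v) := by
    have := inner_LR v u
    rw [← inner_conj_symm, ← this, inner_conj_symm]
  have h3 : inner ℂ (Mop V C hV u) v = inner ℂ u (Mop V C hV v) := by
    rw [lp.inner_eq_tsum, lp.inner_eq_tsum]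
    congr 1
    ext n
    rw [Mop_apply, Mop_apply]
    simp only [RCLike.inner_apply, map_mul, Complex.conj_ofReal]
    ring
  unfold Jlin
  simp only [LinearMap.add_apply, inner_add_left, inner_add_right, h1, h2, h3]
  ring

/-- The Jacobi operator. -/
noncomputable def Jop (V : ℕ → ℝ) (C : ℝ) (hV : ∀ k, |V k| ≤ C) : Ell2 →L[ℂ] Ell2 :=
  ⟨Jlin V C hV, (Jlin_symm V C hV).continuous⟩

lemma Jop_apply (V : ℕ → ℝ) (C : ℝ) (hV : ∀ k, |V k| ≤ C) (u : Ell2) (n : ℕ) :
    (Jop V C hV u) n = u (n + 1) + (V n : ℂ) * u n + (if n = 0 then 0 else u (n - 1)) := rfl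

lemma Jop_selfAdjoint (V : ℕ → ℝ) (C : ℝ) (hV : ∀ k, |V k| ≤ C) :
    IsSelfAdjoint (Jop V C hV) := by
  rw [ContinuousLinearMap.isSelfAdjoint_iff_isSymmetric]
  exact Jlin_symm V C hV

lemma Jop_isJacobi (V : ℕ → ℝ) (C : ℝ) (hV : ∀ k, |V k| ≤ C) :
    IsJacobiOperator (fun _ => 1) V (Jop V C hV) := by
  intro u n
  rw [Jop_apply]
  simp

/-- Basis vectors. -/
noncomputable def ev (n : ℕ) : Ell2 := lp.single 2 n (1 : ℂ)

lemma ev_apply (n k : ℕ) : (ev n) k = if k = n then 1 else 0 := by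
  unfold ev
  rw [lp.single_apply, Pi.single_apply]

lemma Jop_ev (V : ℕ → ℝ) (C : ℝ) (hV : ∀ k, |V k| ≤ C) (n : ℕ) :
    Jop V C hV (ev n) = ev (n + 1) + (V n : ℂ) • ev n + (if n = 0 then 0 else ev (n - 1)) := by
  ext k
  rw [Jop_apply]
  have e1 : (ev (n + 1) + (V n : ℂ) • ev n + (if n = 0 then 0 else ev (n - 1)) : Ell2) k
      = (ev (n + 1)) k + (V n : ℂ) * (ev n) k + (if n = 0 then (0 : Ell2) else ev (n - 1)) k := rfl
  rw [e1]
  have e2 : (if n = 0 then (0 : Ell2) else ev (n - 1)) k = if n = 0 then 0 else (ev (n - 1)) k := by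
    split_ifs <;> rfl
  rw [e2]
  simp only [ev_apply]
  rcases Nat.eq_zero_or_pos n with hn | hn
  · subst hn
    rcases Nat.eq_zero_or_pos k with hk | hk
    · subst hk; simp
    · by_cases h1 : k = 1
      · subst h1; simp
      · have h2 : k - 1 ≠ 0 := by omega
        have h3 : k ≠ 0 := by omega
        simp [h1, h3]
        omega
  · by_cases h1 : k = n
    · subst h1
      have h2 : k ≠ 0 := by omega
      have h3 : ¬ (k - 1 = k) := by omega
      have h4 : ¬ (k = k - 1) := by omega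
      simp [h2, h3, h4]
    · by_cases h2 : k = n + 1
      · subst h2
        have h3 : n ≠ 0 := by omega
        have h4 : ¬ (n + 1 = n - 1) := by omega
        have h5 : ¬ (n + 1 + 1 = n) := by omega
        simp [h3, h4, h5]
      · by_cases h3 : k + 1 = n
        · have h4 : k = n - 1 := by omega
          have h5 : n ≠ 0 := by omega
          have h6 : ¬ (k - 1 = n) := by omega
          subst h3
          have h7 : ¬ (k = k + 1 + 1) := by omega
          simp [h6, h7]
        · have h4 : ¬ (k = n - 1) := by omega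
          have h5 : n ≠ 0 := by omega
          have h6 : k = 0 ∨ ¬ (k - 1 = n) := by omega
          rcases h6 with h6 | h6
          · subst h6
            have g1 : ¬ (1 = n) := by omega
            have g2 : ¬ (0 = n) := by omega
            have g3 : ¬ (0 = n - 1) := by omega
            simp [g1, g2, g3, h5]
          · simp [h1, h2, h3, h4, h6]

end Pool.Agent.TMLim
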