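import Pool.Agent.TMLim.Defs

/-!
# Spectral measures of bounded self-adjoint operators
-/

set_option autoImplicit false

open MeasureTheory Filter Topology
open scoped ComplexConjugate CompactlySupported

namespace Pool.Agent.TMLim

variable {H : Type*} [NormedAddCommGroup H] [InnerProductSpace ℂ H] [CompleteSpace H]

lemma inner_selfAdjoint_sq {A : H →L[ℂ] H} (hA : IsSelfAdjoint A) (v : H) :
    inner ℂ v ((A * A) v) = ((‖A v‖ ^ 2 : ℝ) : ℂ) := by
  have h1 : (A * A) v = A (A v) := rfl
  have h2 : inner ℂ v (A (A v)) = inner ℂ (A v) (A v) := by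
    have := ContinuousLinearMap.adjoint_inner_left A (A v) v
    rw [← this]
    congr 1
    have h3 : ContinuousLinearMap.adjoint A = A := hA
    rw [h3]
  rw [h1, h2, inner_self_eq_norm_sq_to_K]
  norm_cast

/-- Existence of spectral measures. -/
theorem exists_spectralMeasure (J : H →L[ℂ] H) (hJ : IsSelfAdjoint J) (v : H) :
    ∃ μ : Measure ℝ, IsSpectralMeasure J v μ := by
  haveI : CompactSpace (spectrum ℝ J) := ContinuousFunctionalCalculus.compactSpace_spectrum J
  set Λ₀ : C_c(spectrum ℝ J, ℝ) →ₗ[ℝ] ℝ :=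
    { toFun := fun f => (inner ℂ v ((cfcHom hJ f.toContinuousMap) v)).re
      map_add' := by
        intro f g
        have : (f + g).toContinuousMap = f.toContinuousMap + g.toContinuousMap := rfl
        rw [this, map_add, ContinuousLinearMap.add_apply, inner_add_right, Complex.add_re]
      map_smul' := by
        intro c f
        have : (c • f).toContinuousMap = c • f.toContinuousMap := rfl
        rw [this, map_smul, ContinuousLinearMap.smul_apply, RingHom.id_apply, smul_eq_mul]
        have h2 : c • (cfcHom hJ f.toContinuousMap) v = (c : ℂ) • (cfcHom hJ f.toContinuousMap) v :=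
          (Complex.coe_smul c _).symm
        rw [h2, inner_smul_right, Complex.re_ofReal_mul] } with hΛ₀
  have hpos : ∀ f : C_c(spectrum ℝ J, ℝ), 0 ≤ f → 0 ≤ Λ₀ f := by
    intro f hf
    set g : C(spectrum ℝ J, ℝ) := ⟨fun x => Real.sqrt (f x), by fun_prop⟩ with hg
    have hfg : f.toContinuousMap = g * g := by
      ext x
      show f x = Real.sqrt (f x) * Real.sqrt (f x)
      rw [Real.mul_self_sqrt (hf x)]
    have hsa : IsSelfAdjoint (cfcHom hJ g) := by
      rw [IsSelfAdjoint, ← map_star]
      congr 1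
    show 0 ≤ (inner ℂ v ((cfcHom hJ f.toContinuousMap) v)).re
    rw [hfg, map_mul, inner_selfAdjoint_sq hsa, Complex.ofReal_re]
    positivity
  set Λ : C_c(spectrum ℝ J, ℝ) →ₚ[ℝ] ℝ := PositiveLinearMap.mk₀ Λ₀ hpos with hΛ
  set ν := RealRMK.rieszMeasure Λ with hν
  haveI hνf : IsFiniteMeasure ν := by
    haveI : IsFiniteMeasureOnCompacts ν := by rw [hν]; unfold RealRMK.rieszMeasure; infer_instance
    exact CompactSpace.isFiniteMeasure
  have hmv : Measurable (Subtype.val : spectrum ℝ J → ℝ) := measurable_subtype_coe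
  refine ⟨ν.map Subtype.val, hJ, inferInstance, ?_⟩
  intro f hf
  have hint : Integrable (fun x : spectrum ℝ J => f x) ν := by
    have hc : Continuous (fun x : spectrum ℝ J => f x) := hf.comp continuous_subtype_val
    exact hc.integrable_of_hasCompactSupport (HasCompactSupport.of_compactSpace _)
  refine ⟨?_, ?_⟩
  · rw [integrable_map_measure hf.aestronglyMeasurable hmv.aemeasurable]
    exact hint
  · rw [integral_map hmv.aemeasurable hf.aestronglyMeasurable]
    set F : C_c(spectrum ℝ J, ℝ) :=
      ⟨⟨fun x : spectrum ℝ J => f x, hf.comp continuous_subtype_val⟩,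
        HasCompactSupport.of_compactSpace _⟩ with hF
    have h1 : ∫ x : spectrum ℝ J, f x ∂ν = Λ F := by
      rw [← RealRMK.integral_rieszMeasure Λ F]
      rfl
    rw [h1]
    have h2 : Λ F = (inner ℂ v ((cfcHom hJ F.toContinuousMap) v)).re := rfl
    rw [h2]
    have h3 : cfc f J = cfcHom hJ F.toContinuousMap := by
      rw [cfc_apply f J hJ hf.continuousOn]
      rfl
    rw [h3]
    have hsa : IsSelfAdjoint (cfcHom hJ F.toContinuousMap) := by
      rw [IsSelfAdjoint, ← map_star]
      congr 1
    apply Complex.conj_eq_iff_re.mp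
    rw [inner_conj_symm]
    have := ContinuousLinearMap.adjoint_inner_left (cfcHom hJ F.toContinuousMap) v v
    rw [← this]
    have h4 : ContinuousLinearMap.adjoint (cfcHom hJ F.toContinuousMap)
      = cfcHom hJ F.toContinuousMap := hsa
    rw [h4]

/-- Second moments of continuous functions. -/
lemma integral_sq {J : H →L[ℂ] H} {v : H} {μ : Measure ℝ} (hμ : IsSpectralMeasure J v μ)
    {f : ℝ → ℝ} (hf : Continuous f) : ∫ x, f x ^ 2 ∂μ = ‖(cfc f J) v‖ ^ 2 := by
  obtain ⟨hJ, -, h⟩ := hμ
  have h1 := (h (fun x => f x ^ 2) (by fun_prop)).2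
  have h2 : cfc (fun x => f x ^ 2) J = cfc f J * cfc f J := by
    rw [← cfc_mul f f J hf.continuousOn hf.continuousOn]
    congr 1
    ext x
    ring
  rw [h2, inner_selfAdjoint_sq (cfc_predicate f J)] at h1
  exact_mod_cast h1

end Pool.Agent.TMLim
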