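import Pool.Agent.TMLim.Build
import Pool.Agent.TMLim.JacobiOp
import Pool.Agent.TMLim.SpecMeas

/-!
# Conclusion
-/

set_option autoImplicit false

open MeasureTheory Filter Topology Set

namespace Pool.Agent.TMLim

section general

variable {H : Type*} [NormedAddCommGroup H] [InnerProductSpace ℂ H] [CompleteSpace H]

lemma cfc_dirichlet {J : H →L[ℂ] H} (hJ : IsSelfAdjoint J) (V : ℕ → ℝ) (e : ℕ → H)
    (he : ∀ n, J (e n) = e (n + 1) + (V n : ℂ) • e n + (if n = 0 then 0 else e (n - 1))) (n : ℕ) :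
    (cfc (fun x => T V x n 0 0) J) (e 0) = e n ∧
      (cfc (fun x => T V x n 1 0) J) (e 0) = (if n = 0 then 0 else e (n - 1)) := by
  induction n with
  | zero =>
    constructor
    · have h1 : (fun x => T V x 0 0 0) = (fun _ => (1:ℝ)) := by ext x; simp
      rw [h1, cfc_const_one ℝ J]
      rfl
    · have h1 : (fun x => T V x 0 1 0) = (fun _ => (0:ℝ)) := by ext x; simp
      rw [h1, cfc_const_zero ℝ J]
      simp
  | succ n ih =>
    obtain ⟨ih1, ih2⟩ := ih
    have hcP : Continuous (fun x => T V x n 0 0) := continuous_T_ent V n 0 0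
    have hcQ : Continuous (fun x => T V x n 1 0) := continuous_T_ent V n 1 0
    constructor
    · have h1 : (fun x => T V x (n + 1) 0 0)
          = (fun x => (x - V n) * T V x n 0 0 - T V x n 1 0) := by
        ext x; rw [T_succ, mul_ent]; simp only [Am_00, Am_01]; ring
      rw [h1, cfc_sub (fun x => (x - V n) * T V x n 0 0) (fun x => T V x n 1 0) J
        (by fun_prop) (by fun_prop),
        cfc_mul (fun x => x - V n) (fun x => T V x n 0 0) J (by fun_prop) (by fun_prop)]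
      have h2 : cfc (fun x : ℝ => x - V n) J = J - (V n : ℂ) • (1 : H →L[ℂ] H) := by
        rw [cfc_sub (fun x : ℝ => x) (fun _ => V n) J (by fun_prop) (by fun_prop), cfc_id' ℝ J,
          cfc_const (V n) J]
        congr 1
      have h3 : (cfc (fun x : ℝ => x - V n) J * cfc (fun x => T V x n 0 0) J
          - cfc (fun x => T V x n 1 0) J) (e 0)
          = (cfc (fun x : ℝ => x - V n) J) ((cfc (fun x => T V x n 0 0) J) (e 0))
            - (cfc (fun x => T V x n 1 0) J) (e 0) := rfl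
      rw [h3, ih1, ih2, h2]
      have h4 : (J - (V n : ℂ) • (1 : H →L[ℂ] H)) (e n) = J (e n) - (V n : ℂ) • e n := rfl
      rw [h4, he n]
      abel
    · have h1 : (fun x => T V x (n + 1) 1 0) = (fun x => T V x n 0 0) := by
        ext x; rw [T_succ, mul_ent]; simp only [Am_10, Am_11]; ring
      rw [h1, ih1]
      simp

end general

lemma norm_ev (n : ℕ) : ‖ev n‖ = 1 := by
  unfold ev
  rw [lp.norm_single (by norm_num)]
  simp

lemma moments {V : ℕ → ℝ} {C : ℝ} (hV : ∀ k, |V k| ≤ C) {μ : Measure ℝ}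
    (hμ : IsSpectralMeasure (Jop V C hV) delta1 μ) (n : ℕ) :
    ∫ x, (T V x n 0 0) ^ 2 ∂μ = 1 := by
  have h1 := integral_sq hμ (continuous_T_ent V n 0 0)
  have h2 := (cfc_dirichlet (Jop_selfAdjoint V C hV) V ev (Jop_ev V C hV) n).1
  have h3 : delta1 = ev 0 := rfl
  rw [h3, h2, norm_ev] at h1
  rw [h1]; norm_num

/-- A Jacobi operator is determined by its parameters. -/
lemma jacobi_unique {a b : ℕ → ℝ} {J J' : Ell2 →L[ℂ] Ell2} (h : IsJacobiOperator a b J)
    (h' : IsJacobiOperator a b J') : J = J' := by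
  ext u n
  rw [h u n, h' u n]

lemma opNorm_le (M : M2) : opNorm M ≤ ENNReal.ofReal (√(2 * hs M)) := by
  unfold opNorm
  apply ENNReal.ofReal_le_ofReal
  apply ContinuousLinearMap.opNorm_le_bound _ (Real.sqrt_nonneg _)
  intro x
  have hnn : 0 ≤ 2 * hs M := by have := hs_nonneg M; positivity
  rw [EuclideanSpace.norm_eq, EuclideanSpace.norm_eq, ← Real.sqrt_mul hnn]
  apply Real.sqrt_le_sqrt
  have hx := Matrix.ofLp_toEuclideanCLM (𝕜 := ℝ) M x
  have h0 : (Matrix.toEuclideanCLM (n := Fin 2) (𝕜 := ℝ) M x) 0 = M 0 0 * x 0 + M 0 1 * x 1 := by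
    simp [Matrix.mulVec, dotProduct, Fin.sum_univ_two]
  have h1 : (Matrix.toEuclideanCLM (n := Fin 2) (𝕜 := ℝ) M x) 1 = M 1 0 * x 0 + M 1 1 * x 1 := by
    simp [Matrix.mulVec, dotProduct, Fin.sum_univ_two]
  simp only [Fin.sum_univ_two, Real.norm_eq_abs, sq_abs]
  rw [h0, h1]
  unfold hs
  nlinarith [sq_nonneg (M 0 0 * x 1 - M 0 1 * x 0), sq_nonneg (M 1 0 * x 1 - M 1 1 * x 0)]

lemma transfer_eq (V : ℕ → ℝ) (E : ℝ) (n : ℕ) : transfer (fun _ => 1) V E n = T V E n := by
  induction n with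
  | zero => rfl
  | succ n ih =>
    have h1 : before (fun _ => (1:ℝ)) n = 1 := by cases n <;> rfl
    show stepMatrix (fun _ => 1) V E n * transfer (fun _ => 1) V E n = Am (E - V n) * T V E n
    rw [ih]
    congr 1
    unfold stepMatrix Am
    rw [h1]
    norm_num

lemma mem_Tbar {V : ℕ → ℝ} {E : ℝ} (h : ∃ᶠ t in atTop, hs (T V E t) ≤ 13) :
    E ∈ Tbar (fun _ => 1) V := by
  show liminf (fun n => opNorm (transfer (fun _ => 1) V E n)) atTop < ⊤
  have h1 : liminf (fun n => opNorm (transfer (fun _ => 1) V E n)) atTop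
      ≤ ENNReal.ofReal (√26) := by
    apply Filter.liminf_le_of_frequently_le'
    refine h.mono (fun t ht => ?_)
    rw [transfer_eq]
    refine (opNorm_le _).trans ?_
    apply ENNReal.ofReal_le_ofReal
    apply Real.sqrt_le_sqrt
    linarith
  exact lt_of_le_of_lt h1 ENNReal.ofReal_lt_top

/-- No absolutely continuous part on the interval. -/
lemma no_ac {μ : Measure ℝ}
    (hμ : IsSpectralMeasure (Jop Vpot 100 Vpot_bdd) delta1 μ) :
    volume (Icc (-1 : ℝ) 1 ∩ SigmaAC μ) = 0 := by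
  haveI : IsFiniteMeasure μ := hμ.2.1
  set g := μ.rnDeriv volume with hg
  have hgm : Measurable g := Measure.measurable_rnDeriv _ _
  set S : ℕ → Set ℝ := fun k => Icc (-1 : ℝ) 1 ∩ {E | (((k : ENNReal) + 1)⁻¹) ≤ g E} with hS
  have hSm : ∀ k, MeasurableSet (S k) := fun k =>
    measurableSet_Icc.inter (measurableSet_le measurable_const hgm)
  have hcover : Icc (-1 : ℝ) 1 ∩ SigmaAC μ ⊆ ⋃ k, S k := by
    rintro E ⟨hE, hE2⟩
    have h0 : g E ≠ 0 := hE2
    obtain ⟨n, hn⟩ := ENNReal.exists_inv_nat_lt h0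
    refine Set.mem_iUnion.mpr ⟨n, hE, ?_⟩
    show ((n : ENNReal) + 1)⁻¹ ≤ g E
    refine le_trans ?_ hn.le
    exact ENNReal.inv_le_inv.mpr (by simp)
  refine measure_mono_null hcover ?_
  rw [measure_iUnion_null_iff]
  intro k
  by_contra hpos
  -- the mass of `S k`
  have hfin : volume (S k) ≠ ⊤ := by
    refine ne_top_of_le_ne_top ?_ (measure_mono (Set.inter_subset_left))
    rw [Real.volume_Icc]; exact ENNReal.ofReal_ne_top
  set s : ℝ := (volume (S k)).toReal with hs
  have hs0 : 0 < s := ENNReal.toReal_pos hpos hfin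
  have hs1 : volume (S k) = ENNReal.ofReal s := (ENNReal.ofReal_toReal hfin).symm
  -- choose j
  obtain ⟨j, hj1, hj2⟩ : ∃ j : ℕ, (1 / 2 : ℝ) ^ j ≤ s / 2 ∧ 2 < (j : ℝ) * ((s / 2) / (k + 1)) := by
    have h1 : ∀ᶠ j : ℕ in atTop, (1 / 2 : ℝ) ^ j ≤ s / 2 := by
      have := tendsto_pow_atTop_nhds_zero_of_lt_one (r := (1 / 2 : ℝ)) (by norm_num) (by norm_num)
      exact (this.eventually_lt_const (by positivity : (0:ℝ) < s / 2)).mono (fun _ h => h.le)
    have h2 : ∀ᶠ j : ℕ in atTop, 2 < (j : ℝ) * ((s / 2) / (k + 1)) := by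
      have : Tendsto (fun j : ℕ => (j : ℝ) * ((s / 2) / (k + 1))) atTop atTop :=
        tendsto_natCast_atTop_atTop.atTop_mul_const (by positivity)
      exact this.eventually_gt_atTop 2
    exact (h1.and h2).exists
  obtain ⟨n, hn1, hn⟩ := Vpot_growth j
  set w : ℝ → ℝ := fun E => (T Vpot E n) 0 0 ^ 2 + (T Vpot E n) 1 0 ^ 2 with hw
  have hwc : Continuous w := by
    have h1 := continuous_T_ent Vpot n 0 0
    have h2 := continuous_T_ent Vpot n 1 0
    fun_prop
  have hw0 : ∀ E, 0 ≤ w E := fun E => by positivity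
  -- the integral of `w` is two
  have hwint : ∫ x, w x ∂μ = 2 := by
    have h1 := moments Vpot_bdd hμ n
    have h2 := moments Vpot_bdd hμ (n - 1)
    have hi1 : Integrable (fun x => (T Vpot x n 0 0) ^ 2) μ :=
      (hμ.2.2 (fun x => (T Vpot x n 0 0) ^ 2)
        (by have := continuous_T_ent Vpot n 0 0; fun_prop)).1
    have hi2 : Integrable (fun x => (T Vpot x n 1 0) ^ 2) μ :=
      (hμ.2.2 (fun x => (T Vpot x n 1 0) ^ 2)
        (by have := continuous_T_ent Vpot n 1 0; fun_prop)).1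
    simp only [hw]
    rw [integral_add hi1 hi2, h1]
    have h3 : ∀ x, T Vpot x n 1 0 = T Vpot x (n - 1) 0 0 := by
      intro x
      obtain ⟨m, rfl⟩ : ∃ m, n = m + 1 := ⟨n - 1, by omega⟩
      rw [T_succ, mul_ent, Nat.add_sub_cancel]
      simp only [Am_10, Am_11]; ring
    simp_rw [h3]
    rw [h2]; norm_num
  have hwl : ∫⁻ x, ENNReal.ofReal (w x) ∂μ = 2 := by
    have hi : Integrable w μ := (hμ.2.2 w hwc).1
    rw [← ofReal_integral_eq_lintegral_ofReal hi (Eventually.of_forall hw0), hwint]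
    norm_num
  -- the bad set
  set B : Set ℝ := {E | w E < j} with hB
  have hBm : MeasurableSet B := measurableSet_lt hwc.measurable measurable_const
  have hBI : volume (B ∩ Icc (-1 : ℝ) 1) ≤ ENNReal.ofReal (s / 2) := by
    have h1 : muI B ≤ ENNReal.ofReal ((1 / 2) ^ j) := hn
    rw [Measure.restrict_apply hBm] at h1
    exact h1.trans (ENNReal.ofReal_le_ofReal hj1)
  have hSB : ENNReal.ofReal (s / 2) ≤ volume (S k \ B) := by
    have h1 : volume (S k) ≤ volume (S k \ B) + volume (B ∩ Icc (-1 : ℝ) 1) := by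
      have : S k ⊆ (S k \ B) ∪ (B ∩ Icc (-1 : ℝ) 1) := by
        intro E hE
        by_cases h : E ∈ B
        · exact Or.inr ⟨h, hE.1⟩
        · exact Or.inl ⟨hE, h⟩
      exact (measure_mono this).trans (measure_union_le _ _)
    have h2 : ENNReal.ofReal s ≤ volume (S k \ B) + ENNReal.ofReal (s / 2) := by
      rw [← hs1]; exact h1.trans (by gcongr)
    have h3 : ENNReal.ofReal s = ENNReal.ofReal (s / 2) + ENNReal.ofReal (s / 2) := by
      rw [← ENNReal.ofReal_add (by positivity) (by positivity)]; congr 1; ring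
    rw [h3] at h2
    exact (ENNReal.add_le_add_iff_right ENNReal.ofReal_ne_top).mp h2
  -- the estimate
  have hlow : (ENNReal.ofReal (j : ℝ)) * (((k : ENNReal) + 1)⁻¹) * volume (S k \ B)
      ≤ ∫⁻ x, ENNReal.ofReal (w x) ∂μ := by
    have hSBm : MeasurableSet (S k \ B) := (hSm k).diff hBm
    calc (ENNReal.ofReal (j : ℝ)) * (((k : ENNReal) + 1)⁻¹) * volume (S k \ B)
        = ∫⁻ _ in (S k \ B), (ENNReal.ofReal (j : ℝ)) * (((k : ENNReal) + 1)⁻¹) := by
          rw [setLIntegral_const]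
      _ ≤ ∫⁻ x in (S k \ B), ENNReal.ofReal (w x) * g x := by
          apply setLIntegral_mono' hSBm
          intro x hx
          have h1 : (j : ℝ) ≤ w x := not_lt.mp hx.2
          exact mul_le_mul' (ENNReal.ofReal_le_ofReal h1) hx.1.2
      _ ≤ ∫⁻ x, ENNReal.ofReal (w x) * g x := setLIntegral_le_lintegral _ _
      _ = ∫⁻ x, ENNReal.ofReal (w x) ∂(volume.withDensity g) := by
          rw [lintegral_withDensity_eq_lintegral_mul _ hgm (by fun_prop)]
          congr 1
          ext x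
          rw [Pi.mul_apply, mul_comm]
      _ ≤ ∫⁻ x, ENNReal.ofReal (w x) ∂μ :=
          lintegral_mono' (Measure.withDensity_rnDeriv_le _ _) (le_refl _)
  rw [hwl] at hlow
  have hcontra : (ENNReal.ofReal (j : ℝ)) * (((k : ENNReal) + 1)⁻¹) * ENNReal.ofReal (s / 2) ≤ 2 :=
    (mul_le_mul_right hSB _).trans hlow
  have hk : ((k : ENNReal) + 1)⁻¹ = ENNReal.ofReal (1 / ((k : ℝ) + 1)) := by
    rw [one_div, ENNReal.ofReal_inv_of_pos (by positivity), ENNReal.ofReal_add (by positivity)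
      (by norm_num), ENNReal.ofReal_natCast, ENNReal.ofReal_one]
  rw [hk, ← ENNReal.ofReal_mul (by positivity), ← ENNReal.ofReal_mul (by positivity)] at hcontra
  have h2 : (2 : ENNReal) = ENNReal.ofReal 2 := by norm_num
  rw [h2, ENNReal.ofReal_le_ofReal_iff (by norm_num)] at hcontra
  have h3 : (j : ℝ) * (1 / ((k : ℝ) + 1)) * (s / 2) = (j : ℝ) * ((s / 2) / (k + 1)) := by
    field_simp
  rw [h3] at hcontra
  linarith

/-- The counterexample. -/
theorem counterexample : ∃ (a b : ℕ → ℝ), (∀ n, a n = 1) ∧ (∃ C : ℝ, ∀ n, |b n| ≤ C) ∧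
    ∃ J : Ell2 →L[ℂ] Ell2, IsJacobiOperator a b J ∧ ∃ μ : Measure ℝ,
      IsSpectralMeasure J delta1 μ ∧
      (∀ᵐ E ∂(volume.restrict (Icc (-1 : ℝ) 1)), E ∈ Tbar a b ∧ E ∉ SigmaAC μ) ∧
      0 < volume (symmDiff (Tbar a b) (SigmaAC μ)) := by
  obtain ⟨μ, hμ⟩ := exists_spectralMeasure (Jop Vpot 100 Vpot_bdd)
    (Jop_selfAdjoint Vpot 100 Vpot_bdd) delta1
  have hae : ∀ᵐ E ∂(volume.restrict (Icc (-1 : ℝ) 1)), E ∈ Tbar (fun _ => 1) Vpot ∧
      E ∉ SigmaAC μ := by
    have h1 : ∀ᵐ E ∂(volume.restrict (Icc (-1 : ℝ) 1)), E ∈ Tbar (fun _ => 1) Vpot := by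
      filter_upwards [Vpot_return] with E hE
      exact mem_Tbar hE
    have h2 : ∀ᵐ E ∂(volume.restrict (Icc (-1 : ℝ) 1)), E ∉ SigmaAC μ := by
      rw [ae_restrict_iff' measurableSet_Icc, ae_iff]
      refine measure_mono_null ?_ (no_ac hμ)
      intro E hE
      simp only [Set.mem_ofPred_eq, Classical.not_imp, not_not] at hE
      exact hE
    filter_upwards [h1, h2] with E h1 h2
    exact ⟨h1, h2⟩
  refine ⟨fun _ => 1, Vpot, fun _ => rfl, ⟨100, Vpot_bdd⟩,
    Jop Vpot 100 Vpot_bdd, Jop_isJacobi Vpot 100 Vpot_bdd, μ, hμ, hae, ?_⟩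
  have hsub : (volume.restrict (Icc (-1 : ℝ) 1)) univ
      ≤ volume (symmDiff (Tbar (fun _ => 1) Vpot) (SigmaAC μ)) := by
    have h1 : (volume.restrict (Icc (-1 : ℝ) 1)) univ
        ≤ (volume.restrict (Icc (-1 : ℝ) 1)) (symmDiff (Tbar (fun _ => 1) Vpot) (SigmaAC μ)) := by
      apply measure_mono_ae
      filter_upwards [hae] with E hE _
      exact Or.inl hE
    exact h1.trans (Measure.restrict_le_self _)
  refine lt_of_lt_of_le ?_ hsub
  rw [Measure.restrict_apply_univ, Real.volume_Icc]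
  norm_num

end Pool.Agent.TMLim
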