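import Mathlib

/-!
# Definitions used in the statement about Jacobi matrices

Sequences are indexed from `0`: the term `a n` of a sequence `a` below is the term `a_{n+1}` of the
problem file, and the coordinate `u n` of a vector is its coordinate `u_{n+1}`.
-/

set_option autoImplicit false

open MeasureTheory Filter

namespace Pool.Agent.TMLim

/-- The Hilbert space of square summable complex sequences. -/
noncomputable abbrev Ell2 : Type := lp (fun _ : ℕ => ℂ) 2

/-- The first basis vector `δ_1`. -/
noncomputable def delta1 : Ell2 := lp.single 2 0 (1 : ℂ)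

/-- `J` is the Jacobi operator with parameters `a` (off the diagonal) and `b` (on the diagonal):
`(J u)_n = a_n u_{n+1} + b_n u_n + a_{n-1} u_{n-1}`, where `u_0 = 0`. -/
def IsJacobiOperator (a b : ℕ → ℝ) (J : Ell2 →L[ℂ] Ell2) : Prop :=
  ∀ (u : Ell2) (n : ℕ), (J u) n =
    (a n : ℂ) * u (n + 1) + (b n : ℂ) * u n + (if n = 0 then 0 else (a (n - 1) : ℂ) * u (n - 1))

/-- The preceding off-diagonal parameter, with the convention `a_0 = 1`. -/
def before (a : ℕ → ℝ) : ℕ → ℝ
  | 0 => 1
  | n + 1 => a n

/-- The one step transfer matrix `A_{n+1}(E)` of the problem file. -/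
noncomputable def stepMatrix (a b : ℕ → ℝ) (E : ℝ) (n : ℕ) : Matrix (Fin 2) (Fin 2) ℝ :=
  (1 / a n) • !![E - b n, -before a n; a n, 0]

/-- The transfer matrix `T_E(n) = A_n(E) ⋯ A_1(E)`. -/
noncomputable def transfer (a b : ℕ → ℝ) (E : ℝ) : ℕ → Matrix (Fin 2) (Fin 2) ℝ
  | 0 => 1
  | n + 1 => stepMatrix a b E n * transfer a b E n

/-- The operator norm of a matrix acting on the Euclidean plane, as an extended real. -/
noncomputable def opNorm (M : Matrix (Fin 2) (Fin 2) ℝ) : ENNReal :=
  ENNReal.ofReal ‖Matrix.toEuclideanCLM (n := Fin 2) (𝕜 := ℝ) M‖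

/-- The set of energies `E` with `liminf ‖T_E(n)‖ < ∞`. -/
def Tbar (a b : ℕ → ℝ) : Set ℝ :=
  {E | liminf (fun n => opNorm (transfer a b E n)) atTop < ⊤}

/-- `μ` is the spectral measure of the bounded self-adjoint operator `J` on the Hilbert space `H`
for the vector `v`: `∫ f dμ = ⟨v, f(J) v⟩` for every continuous `f : ℝ → ℝ`, with `f(J)` given by
the continuous functional calculus. -/
def IsSpectralMeasure {H : Type*} [NormedAddCommGroup H] [InnerProductSpace ℂ H] [CompleteSpace H]
    (J : H →L[ℂ] H) (v : H) (μ : Measure ℝ) : Prop :=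
  IsSelfAdjoint J ∧ IsFiniteMeasure μ ∧ ∀ f : ℝ → ℝ, Continuous f →
    Integrable f μ ∧ ((∫ x, f x ∂μ : ℝ) : ℂ) = inner ℂ v ((cfc f J) v)

/-- The essential support of the absolutely continuous part of `μ`: the set where the density of
that part is not zero. -/
def SigmaAC (μ : Measure ℝ) : Set ℝ := {E | μ.rnDeriv volume E ≠ 0}

end Pool.Agent.TMLim
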