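import Pool.Agent.TMLim.Alg

/-!
# Elliptic matrices and the effect of a bump
-/

set_option autoImplicit false

open Real

namespace Pool.Agent.TMLim

/-- The matrix mapping `i` to `x + i y`. -/
noncomputable def Zm (x y : ℝ) : M2 := !![√y, x / √y; 0, 1 / √y]
/-- The inverse of `Zm x y`. -/
noncomputable def Zi (x y : ℝ) : M2 := !![1 / √y, -(x / √y); 0, √y]

@[simp] lemma Zm_00 (x y : ℝ) : Zm x y 0 0 = √y := rfl
@[simp] lemma Zm_01 (x y : ℝ) : Zm x y 0 1 = x / √y := rfl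
@[simp] lemma Zm_10 (x y : ℝ) : Zm x y 1 0 = 0 := rfl
@[simp] lemma Zm_11 (x y : ℝ) : Zm x y 1 1 = 1 / √y := rfl
@[simp] lemma Zi_00 (x y : ℝ) : Zi x y 0 0 = 1 / √y := rfl
@[simp] lemma Zi_01 (x y : ℝ) : Zi x y 0 1 = -(x / √y) := rfl
@[simp] lemma Zi_10 (x y : ℝ) : Zi x y 1 0 = 0 := rfl
@[simp] lemma Zi_11 (x y : ℝ) : Zi x y 1 1 = √y := rfl

lemma m2_ext {g h : M2} (h00 : g 0 0 = h 0 0) (h01 : g 0 1 = h 0 1) (h10 : g 1 0 = h 1 0)
    (h11 : g 1 1 = h 1 1) : g = h := by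
  ext i j
  fin_cases i <;> fin_cases j <;> assumption

@[simp] lemma one_00 : (1 : M2) 0 0 = 1 := rfl
@[simp] lemma one_01 : (1 : M2) 0 1 = 0 := rfl
@[simp] lemma one_10 : (1 : M2) 1 0 = 0 := rfl
@[simp] lemma one_11 : (1 : M2) 1 1 = 1 := rfl

lemma Zm_mul_Zi {x y : ℝ} (hy : 0 < y) : Zm x y * Zi x y = 1 := by
  have hs : 0 < √y := Real.sqrt_pos.mpr hy
  apply m2_ext <;> simp only [mul_ent, Zm_00, Zm_01, Zm_10, Zm_11, Zi_00, Zi_01, Zi_10, Zi_11,
    one_00, one_01, one_10, one_11] <;> field_simp <;> ring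

lemma Zi_mul_Zm {x y : ℝ} (hy : 0 < y) : Zi x y * Zm x y = 1 := by
  have hs : 0 < √y := Real.sqrt_pos.mpr hy
  apply m2_ext <;> simp only [mul_ent, Zm_00, Zm_01, Zm_10, Zm_11, Zi_00, Zi_01, Zi_10, Zi_11,
    one_00, one_01, one_10, one_11] <;> field_simp <;> ring

lemma det_Zm {x y : ℝ} (hy : 0 < y) : (Zm x y).det = 1 := by
  have hs : 0 < √y := Real.sqrt_pos.mpr hy
  rw [det_ent]
  simp only [Zm_00, Zm_01, Zm_10, Zm_11]
  field_simp
  ring

lemma det_Zi {x y : ℝ} (hy : 0 < y) : (Zi x y).det = 1 := by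
  have hs : 0 < √y := Real.sqrt_pos.mpr hy
  rw [det_ent]
  simp only [Zi_00, Zi_01, Zi_10, Zi_11]
  field_simp
  ring

lemma Rot_mul (s t : ℝ) : Rot s * Rot t = Rot (s + t) := by
  apply m2_ext <;> simp only [mul_ent, Rot_00, Rot_01, Rot_10, Rot_11, Real.cos_add, Real.sin_add]
    <;> ring

lemma Rot_zero : Rot 0 = 1 := by
  apply m2_ext <;> simp

lemma det_Rot (t : ℝ) : (Rot t).det = 1 := by
  rw [det_ent]; simp only [Rot_00, Rot_01, Rot_10, Rot_11]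
  have := Real.cos_sq_add_sin_sq t
  nlinarith

/-- The elliptic matrix with centre `x + i y` and angle `t`. -/
noncomputable def ell (x y t : ℝ) : M2 := Zm x y * Rot t * Zi x y

lemma ell_pow {x y t : ℝ} (hy : 0 < y) (n : ℕ) : ell x y t ^ n = ell x y (n * t) := by
  induction n with
  | zero => rw [pow_zero, Nat.cast_zero, zero_mul]; unfold ell; rw [Rot_zero, mul_one, Zm_mul_Zi hy]
  | succ n ih =>
    rw [pow_succ, ih]
    unfold ell
    calc Zm x y * Rot (n * t) * Zi x y * (Zm x y * Rot t * Zi x y)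
        = Zm x y * Rot (n * t) * (Zi x y * Zm x y) * Rot t * Zi x y := by
          simp only [Matrix.mul_assoc]
      _ = Zm x y * (Rot (n * t) * Rot t) * Zi x y := by
          rw [Zi_mul_Zm hy, mul_one]; simp only [Matrix.mul_assoc]
      _ = _ := by rw [Rot_mul]; congr 3; push_cast; ring

lemma ell_00 {x y t : ℝ} (hy : 0 < y) : ell x y t 0 0 = cos t + x / y * sin t := by
  obtain ⟨r, hr, rfl⟩ : ∃ r, 0 < r ∧ y = r ^ 2 := ⟨√y, Real.sqrt_pos.mpr hy, (Real.sq_sqrt hy.le).symm⟩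
  unfold ell
  simp only [mul_ent, Zm_00, Zm_01, Zm_10, Zm_11, Zi_00, Zi_01, Zi_10, Zi_11, Rot_00, Rot_01,
    Rot_10, Rot_11, Real.sqrt_sq hr.le]
  field_simp
  ring

lemma ell_10 {x y t : ℝ} (hy : 0 < y) : ell x y t 1 0 = sin t / y := by
  obtain ⟨r, hr, rfl⟩ : ∃ r, 0 < r ∧ y = r ^ 2 := ⟨√y, Real.sqrt_pos.mpr hy, (Real.sq_sqrt hy.le).symm⟩
  unfold ell
  simp only [mul_ent, Zm_00, Zm_01, Zm_10, Zm_11, Zi_00, Zi_01, Zi_10, Zi_11, Rot_00, Rot_01,
    Rot_10, Rot_11, Real.sqrt_sq hr.le]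
  field_simp
  ring

lemma ell_11 {x y t : ℝ} (hy : 0 < y) : ell x y t 1 1 = cos t - x / y * sin t := by
  obtain ⟨r, hr, rfl⟩ : ∃ r, 0 < r ∧ y = r ^ 2 := ⟨√y, Real.sqrt_pos.mpr hy, (Real.sq_sqrt hy.le).symm⟩
  unfold ell
  simp only [mul_ent, Zm_00, Zm_01, Zm_10, Zm_11, Zi_00, Zi_01, Zi_10, Zi_11, Rot_00, Rot_01,
    Rot_10, Rot_11, Real.sqrt_sq hr.le]
  field_simp
  ring

lemma det_ell {x y t : ℝ} (hy : 0 < y) : (ell x y t).det = 1 := by
  unfold ell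
  rw [Matrix.det_mul, Matrix.det_mul, det_Zm hy, det_Zi hy, det_Rot]; norm_num

/-- Square of the imaginary part of the fixed point. -/
noncomputable def Yq (M : M2) : ℝ := (4 - (M 0 0 + M 1 1) ^ 2) / (4 * M 1 0 ^ 2)

lemma ell_exists {M : M2} (hM : M.det = 1) {x : ℝ} (hY : 0 < Yq M)
    (hx : M 0 0 - M 1 1 = M 1 0 * (2 * x)) :
    ∃ t : ℝ, M = ell x (√(Yq M)) t ∧ sin t ≠ 0 ∧ cos t = (M 0 0 + M 1 1) / 2 := by
  have h10 : M 1 0 ≠ 0 := by
    intro h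
    unfold Yq at hY
    rw [h] at hY
    norm_num at hY
  rw [det_ent] at hM
  set y := √(Yq M) with hy
  have hy0 : 0 < y := Real.sqrt_pos.mpr hY
  have hy2 : y ^ 2 = Yq M := Real.sq_sqrt hY.le
  have hyy : y ^ 2 * (4 * M 1 0 ^ 2) = 4 - (M 0 0 + M 1 1) ^ 2 := by
    rw [hy2]; unfold Yq; field_simp
  obtain ⟨t, h1, h2⟩ := exists_angle ((M 0 0 + M 1 1) / 2) (M 1 0 * y)
  have hone : ((M 0 0 + M 1 1) / 2) ^ 2 + (M 1 0 * y) ^ 2 = 1 := by nlinarith
  rw [hone, Real.sqrt_one, one_mul] at h1 h2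
  have hM' : M 0 0 = cos t + x / y * sin t ∧ M 1 0 = sin t / y ∧ M 1 1 = cos t - x / y * sin t := by
    rw [← h1, ← h2]
    refine ⟨?_, ?_, ?_⟩ <;> field_simp <;> linarith
  refine ⟨t, ?_, ?_, h1.symm⟩
  · have hd := det_ell (x := x) (y := y) (t := t) hy0
    rw [det_ent] at hd
    have e00 : M 0 0 = ell x y t 0 0 := by rw [ell_00 hy0, hM'.1]
    have e10 : M 1 0 = ell x y t 1 0 := by rw [ell_10 hy0, hM'.2.1]
    have e11 : M 1 1 = ell x y t 1 1 := by rw [ell_11 hy0, hM'.2.2]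
    refine m2_ext e00 ?_ e10 e11
    rw [← e00, ← e10, ← e11] at hd
    have : (M 0 1 - ell x y t 0 1) * M 1 0 = 0 := by linarith
    rcases mul_eq_zero.mp this with h | h
    · linarith
    · exact absurd h h10
  · rw [← h2]; exact mul_ne_zero h10 hy0.ne'

/-- The bump matrix. -/
noncomputable def bump (η : ℝ) : M2 := !![1, η; 0, 1]
@[simp] lemma bump_00 (η : ℝ) : bump η 0 0 = 1 := rfl
@[simp] lemma bump_01 (η : ℝ) : bump η 0 1 = η := rfl
@[simp] lemma bump_10 (η : ℝ) : bump η 1 0 = 0 := rfl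
@[simp] lemma bump_11 (η : ℝ) : bump η 1 1 = 1 := rfl

lemma bump_x {x y s η : ℝ} (hy : 0 < y) :
    (bump η * ell x y s) 0 0 - (bump η * ell x y s) 1 1
      = (bump η * ell x y s) 1 0 * (2 * (x + η / 2)) := by
  simp only [mul_ent, bump_00, bump_01, bump_10, bump_11]
  rw [ell_00 hy, ell_10 hy, ell_11 hy]
  field_simp
  ring

lemma bump_Yq {x y s η : ℝ} (hy : 0 < y) (hs : sin s ≠ 0) :
    Yq (bump η * ell x y s) = y ^ 2 - η * y * (cos s / sin s) - η ^ 2 / 4 := by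
  have e00 : (bump η * ell x y s) 0 0 = cos s + x / y * sin s + η * (sin s / y) := by
    simp only [mul_ent, bump_00, bump_01]; rw [ell_00 hy, ell_10 hy]; ring
  have e10 : (bump η * ell x y s) 1 0 = sin s / y := by
    simp only [mul_ent, bump_10, bump_11]; rw [ell_10 hy]; ring
  have e11 : (bump η * ell x y s) 1 1 = cos s - x / y * sin s := by
    simp only [mul_ent, bump_10, bump_11]; rw [ell_11 hy]; ring
  unfold Yq
  rw [e00, e10, e11]
  have h1 : cos s ^ 2 = 1 - sin s ^ 2 := by rw [Real.cos_sq']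
  have h2 : (4 : ℝ) - (cos s + x / y * sin s + η * (sin s / y) + (cos s - x / y * sin s)) ^ 2
      = 4 * sin s ^ 2 - 4 * η * cos s * sin s / y - η ^ 2 * sin s ^ 2 / y ^ 2 := by
    have : (4 : ℝ) - (cos s + x / y * sin s + η * (sin s / y) + (cos s - x / y * sin s)) ^ 2
      = 4 - 4 * cos s ^ 2 - 4 * η * cos s * sin s / y - η ^ 2 * sin s ^ 2 / y ^ 2 := by
      field_simp
      ring
    rw [this, h1]; ring
  rw [h2]
  field_simp

/-- `cosh` of the distance between the old and new centre, lower bound. -/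
lemma hs_Zi_Zm {x y x' y' : ℝ} (hy : 0 < y) (hy' : 0 < y') :
    hs (Zi x y * Zm x' y') = ((x' - x) ^ 2 + y ^ 2 + y' ^ 2) / (2 * (y * y')) := by
  have hs1 : 0 < √y := Real.sqrt_pos.mpr hy
  have hs2 : 0 < √y' := Real.sqrt_pos.mpr hy'
  have h2 : √y ^ 2 = y := Real.sq_sqrt hy.le
  have h2' : √y' ^ 2 = y' := Real.sq_sqrt hy'.le
  unfold hs
  simp only [mul_ent, Zm_00, Zm_01, Zm_10, Zm_11, Zi_00, Zi_01, Zi_10, Zi_11]
  have e1 : (1 / √y * √y' + -(x / √y) * 0) ^ 2 = y' / y := by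
    rw [mul_zero, add_zero, mul_pow, div_pow, h2, h2']; ring
  have e2 : (1 / √y * (x' / √y') + -(x / √y) * (1 / √y')) ^ 2 = (x' - x) ^ 2 / (y * y') := by
    have : (1 / √y * (x' / √y') + -(x / √y) * (1 / √y')) = (x' - x) / (√y * √y') := by
      field_simp
      ring
    rw [this, div_pow, mul_pow, h2, h2']
  have e3 : (0 * √y' + √y * 0) ^ 2 = 0 := by norm_num
  have e4 : (0 * (x' / √y') + √y * (1 / √y')) ^ 2 = y / y' := by
    rw [zero_mul, zero_add, mul_pow, div_pow, h2, h2']; ring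
  rw [e1, e2, e3, e4]
  field_simp
  ring

/-- Lower bound for the displacement. -/
lemma Hf_displacement {x y x' y' r : ℝ} (hy : 0 < y) (hr : 0 < r) (hr1 : y' = y * r) :
    1 ≤ hs (Zi x y * Zm x' y') * 1 ∧ r⁻¹ ≤ Hf (hs (Zi x y * Zm x' y')) := by
  have hy' : 0 < y' := by rw [hr1]; positivity
  have hdet : (Zi x y * Zm x' y').det = 1 := by
    rw [Matrix.det_mul, det_Zi hy, det_Zm hy']; norm_num
  have h1 := one_le_hs hdet
  refine ⟨by linarith, ?_⟩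
  set C := hs (Zi x y * Zm x' y') with hC
  have hCr : (r + r⁻¹) / 2 ≤ C := by
    rw [hC, hs_Zi_Zm hy hy', hr1]
    rw [le_div_iff₀ (by positivity)]
    have : (r + r⁻¹) / 2 * (2 * (y * (y * r))) = y ^ 2 * r ^ 2 + y ^ 2 := by
      field_simp
    rw [this]
    nlinarith [sq_nonneg (x' - x)]
  by_cases hr2 : r < 1
  · have h3 : Hf ((r + r⁻¹) / 2) = r⁻¹ := by
      unfold Hf
      have : ((r + r⁻¹) / 2) ^ 2 - 1 = ((r⁻¹ - r) / 2) ^ 2 := by
        field_simp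
        ring
      rw [this, Real.sqrt_sq]
      · ring
      · have : 1 < r⁻¹ := (one_lt_inv₀ hr).mpr hr2
        linarith
    rw [← h3]
    apply Hf_mono _ hCr
    have : 0 ≤ (1 - r) ^ 2 / (2 * r) := by positivity
    have e : (r + r⁻¹) / 2 = 1 + (1 - r) ^ 2 / (2 * r) := by field_simp; ring
    rw [e]; linarith
  · have : r⁻¹ ≤ 1 := inv_le_one_of_one_le₀ (not_lt.mp hr2)
    exact this.trans (one_le_Hf h1)

end Pool.Agent.TMLim
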