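import Pool.Agent.TMLim.Weyl

/-!
# Equidistribution of cotangents, and uniform density
-/

set_option autoImplicit false

open Real MeasureTheory Filter Topology Set

namespace Pool.Agent.TMLim

lemma sin_mul_ne_zero {t : ℝ} (ht : Irrational (t / π)) (N : ℕ) : sin (((N : ℝ) + 1) * t) ≠ 0 := by
  intro h
  rw [Real.sin_eq_zero_iff] at h
  obtain ⟨n, hn⟩ := h
  apply ht
  refine ⟨(n : ℚ) / ((N : ℚ) + 1), ?_⟩
  have h1 : ((N : ℝ) + 1) ≠ 0 := by positivity
  have hpi := Real.pi_ne_zero
  push_cast
  field_simp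
  linarith

/-- The function `F ∘ cot` extended by zero. -/
noncomputable def cotc (F : ℝ → ℝ) (x : ℝ) : ℝ := if sin x = 0 then 0 else F (cos x / sin x)

lemma cotc_periodic (F : ℝ → ℝ) : Function.Periodic (cotc F) π := by
  intro x
  unfold cotc
  simp only [Real.sin_add_pi, Real.cos_add_pi, neg_eq_zero, neg_div_neg_eq]

lemma cotc_continuous {F : ℝ → ℝ} (hF : Continuous F) {B : ℝ} (hB : ∀ c, B ≤ |c| → F c = 0) :
    Continuous (cotc F) := by
  rw [continuous_iff_continuousAt]
  intro x
  by_cases hx : sin x = 0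
  · -- locally zero
    have hev : ∀ᶠ y in 𝓝 x, cotc F y = 0 := by
      have hc : |cos x| = 1 := by
        have := Real.cos_sq_add_sin_sq x
        rw [hx] at this
        have h2 : |cos x| ^ 2 = 1 := by rw [sq_abs]; linarith
        have h3 : 0 ≤ |cos x| := abs_nonneg _
        nlinarith
      have h1 : ∀ᶠ y in 𝓝 x, 1 / 2 < |cos y| := by
        have : ContinuousAt (fun y => |cos y|) x := by fun_prop
        apply this.eventually_const_lt
        show 1 / 2 < |cos x|
        rw [hc]; norm_num
      have h2 : ∀ᶠ y in 𝓝 x, |sin y| * (|B| + 1) < 1 / 2 := by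
        have : ContinuousAt (fun y => |sin y| * (|B| + 1)) x := by fun_prop
        apply this.eventually_lt_const
        show |sin x| * (|B| + 1) < 1 / 2
        rw [hx]; norm_num
      filter_upwards [h1, h2] with y h1 h2
      unfold cotc
      split_ifs with h
      · rfl
      · apply hB
        rw [abs_div]
        rw [le_div_iff₀ (abs_pos.mpr h)]
        have h3 : B ≤ |B| := le_abs_self B
        have h4 : 0 ≤ |sin y| := abs_nonneg _
        nlinarith
    exact ContinuousAt.congr continuousAt_const (EventuallyEq.symm hev)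
  · have hev : ∀ᶠ y in 𝓝 x, cotc F y = F (cos y / sin y) := by
      have : ∀ᶠ y in 𝓝 x, sin y ≠ 0 := by
        have h : ContinuousAt (fun y => sin y) x := by fun_prop
        exact h.eventually_ne hx
      filter_upwards [this] with y hy
      unfold cotc
      rw [if_neg hy]
    refine ContinuousAt.congr ?_ (EventuallyEq.symm hev)
    apply hF.continuousAt.comp
    exact ContinuousAt.div (by fun_prop) (by fun_prop) hx

lemma integral_cotc (F : ℝ → ℝ) :
    ∫ x in (0:ℝ)..π, cotc F x = ∫ c, F c / (1 + c ^ 2) := by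
  have h1 : ∫ x in (0:ℝ)..π, cotc F x = ∫ x in (-(π / 2))..(π / 2), cotc F (x + π / 2) := by
    rw [intervalIntegral.integral_comp_add_right (fun x => cotc F x) (π / 2)]
    congr 1 <;> ring
  rw [h1, intervalIntegral.integral_of_le (by linarith [Real.pi_pos]), integral_Ioc_eq_integral_Ioo]
  have h2 : ∫ x in Ioo (-(π / 2)) (π / 2), cotc F (x + π / 2)
      = ∫ x in arctan '' univ, cotc F (x + π / 2) := by
    rw [image_univ, Real.range_arctan]
  rw [h2, integral_image_eq_integral_abs_deriv_smul MeasurableSet.univ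
    (f' := fun x => 1 / (1 + x ^ 2)) (fun x _ => (Real.hasDerivAt_arctan x).hasDerivWithinAt)
    Real.arctan_injective.injOn]
  rw [Measure.restrict_univ]
  have h3 : ∀ c : ℝ, |1 / (1 + c ^ 2)| • cotc F (arctan c + π / 2) = F (-c) / (1 + c ^ 2) := by
    intro c
    have hpos : 0 < 1 + c ^ 2 := by positivity
    have hcos : cos (arctan c) ≠ 0 := (Real.cos_arctan_pos c).ne'
    have : cotc F (arctan c + π / 2) = F (-c) := by
      unfold cotc
      rw [Real.sin_add_pi_div_two, Real.cos_add_pi_div_two, if_neg hcos, neg_div,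
        ← Real.tan_eq_sin_div_cos, Real.tan_arctan]
    rw [this, abs_of_pos (by positivity), smul_eq_mul]
    ring
  simp_rw [h3]
  have h4 := integral_neg_eq_self (fun c : ℝ => F c / (1 + c ^ 2)) volume
  rw [← h4]
  congr 1
  ext c
  rw [neg_sq]

/-- Cotangents of multiples of an irrational angle are Cauchy distributed. -/
lemma weyl_cot {t : ℝ} (ht : Irrational (t / π)) {F : ℝ → ℝ} (hF : Continuous F) {B : ℝ}
    (hB : ∀ c, B ≤ |c| → F c = 0) :
    Tendsto (fun K : ℕ => (∑ N ∈ Finset.range K,
      F (cos (((N : ℝ) + 1) * t) / sin (((N : ℝ) + 1) * t))) / (K : ℝ)) atTop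
      (𝓝 ((1 / π) * ∫ c, F c / (1 + c ^ 2))) := by
  have h := weyl_real ht (cotc_continuous hF hB) (cotc_periodic F)
  rw [integral_cotc] at h
  refine h.congr (fun K => ?_)
  congr 1
  refine Finset.sum_congr rfl (fun N _ => ?_)
  unfold cotc
  rw [if_neg (sin_mul_ne_zero ht N)]

/-- Uniform density of the multiples. -/
lemma dense_uniform {t : ℝ} (ht : Irrational (t / π)) {ε : ℝ} (hε : 0 < ε) :
    ∃ N₀ : ℕ, ∀ θ : ℝ, ∃ q < N₀, 1 - ε ≤ cos (2 * (((q : ℕ) : ℝ) * t) - θ) := by
  have hpi := Real.pi_pos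
  have hone : ∀ θ : ℝ, ∃ q : ℕ, 1 - ε / 2 < cos (2 * ((q : ℝ) * t) - θ) := by
    intro θ
    by_contra hcon
    push Not at hcon
    set G : ℝ → ℝ := fun x => max 0 (cos (2 * x - θ) - (1 - ε / 2)) with hG
    have hGc : Continuous G := by fun_prop
    have hGp : Function.Periodic G π := by
      intro x
      simp only [hG]
      rw [show 2 * (x + π) - θ = (2 * x - θ) + 2 * π by ring, Real.cos_add_two_pi]
    have hlim := weyl_real ht hGc hGp
    have hz : ∀ K : ℕ, (∑ N ∈ Finset.range K, G ((N + 1) * t)) / (K : ℝ) = 0 := by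
      intro K
      rw [Finset.sum_eq_zero, zero_div]
      intro N _
      simp only [hG]
      rw [max_eq_left]
      have := hcon (N + 1)
      push_cast at this
      linarith
    have hzero : (1 / π) * ∫ x in (0:ℝ)..π, G x = 0 := by
      refine tendsto_nhds_unique hlim ?_
      simp_rw [hz]
      exact tendsto_const_nhds
    have hpos : 0 < ∫ x in (0:ℝ)..π, G x := by
      have h1 := hGp.intervalIntegral_add_eq 0 (θ / 2 - π / 2)
      rw [zero_add] at h1
      rw [h1]
      refine intervalIntegral.integral_pos (by linarith) hGc.continuousOn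
        (fun x _ => le_max_left _ _) ⟨θ / 2, ⟨by linarith, by linarith⟩, ?_⟩
      simp only [hG]
      rw [show 2 * (θ / 2) - θ = 0 by ring, Real.cos_zero]
      apply lt_max_of_lt_right
      linarith
    have : 0 < (1 / π) * ∫ x in (0:ℝ)..π, G x := by positivity
    linarith
  -- finite net
  obtain ⟨M, hM⟩ := exists_nat_gt (2 * π / (ε / 2))
  have hMpos : (0 : ℝ) < M := lt_of_le_of_lt (by positivity) hM
  have hM2 : 2 * π / M < ε / 2 := by
    rw [div_lt_iff₀ (by positivity)] at hM
    rw [div_lt_iff₀ hMpos]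
    linarith
  choose q hq using fun j : ℕ => hone (2 * π * j / M)
  refine ⟨(Finset.range M).sup q + 1, fun θ => ?_⟩
  set k : ℤ := ⌊θ / (2 * π)⌋ with hk
  set θ' : ℝ := θ - 2 * π * k with hθ'
  have hθ0 : 0 ≤ θ' := by
    have := Int.floor_le (θ / (2 * π))
    rw [← hk, le_div_iff₀ (by positivity)] at this
    linarith
  have hθ1 : θ' < 2 * π := by
    have := Int.lt_floor_add_one (θ / (2 * π))
    rw [← hk, div_lt_iff₀ (by positivity)] at this
    linarith
  set j : ℕ := ⌊θ' * M / (2 * π)⌋₊ with hj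
  have hj1 : (j : ℝ) ≤ θ' * M / (2 * π) := Nat.floor_le (by positivity)
  have hj2 : θ' * M / (2 * π) < j + 1 := Nat.lt_floor_add_one _
  have hjM : j < M := by
    have : (j : ℝ) < M := by
      refine lt_of_le_of_lt hj1 ?_
      rw [div_lt_iff₀ (by positivity)]
      nlinarith
    exact_mod_cast this
  have hclose : |θ' - 2 * π * j / M| ≤ ε / 2 := by
    rw [le_div_iff₀ (by positivity)] at hj1
    rw [div_lt_iff₀ (by positivity)] at hj2
    have e1 : θ' - 2 * π * j / M = (θ' * M - j * (2 * π)) / M := by field_simp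
    rw [e1, abs_div, abs_of_pos hMpos, abs_of_nonneg (by linarith)]
    refine le_trans ?_ hM2.le
    gcongr
    linarith
  refine ⟨q j, ?_, ?_⟩
  · exact Nat.lt_succ_of_le (Finset.le_sup (f := q) (Finset.mem_range.mpr hjM))
  · have h1 := hq j
    have h2 : cos (2 * ((q j : ℝ) * t) - θ) = cos (2 * ((q j : ℝ) * t) - θ') := by
      rw [hθ', show 2 * ((q j : ℝ) * t) - (θ - 2 * π * k) = (2 * ((q j : ℝ) * t) - θ) + k * (2 * π) by
        ring, Real.cos_add_int_mul_two_pi]
    rw [h2]
    have h3 : |cos (2 * ((q j : ℝ) * t) - θ') - cos (2 * ((q j : ℝ) * t) - 2 * π * j / M)|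
        ≤ |(2 * ((q j : ℝ) * t) - θ') - (2 * ((q j : ℝ) * t) - 2 * π * j / M)| := by
      exact Real.abs_cos_sub_cos_le _ _
    have h4 : (2 * ((q j : ℝ) * t) - θ') - (2 * ((q j : ℝ) * t) - 2 * π * j / M)
        = -(θ' - 2 * π * j / M) := by ring
    rw [h4, abs_neg] at h3
    have h5 := (abs_le.mp (h3.trans hclose)).1
    linarith

end Pool.Agent.TMLim
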