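import Pool.Agent.TMLim.Return

/-!
# Growth of the Dirichlet solution at most energies
-/

set_option autoImplicit false

open Real Filter Topology MeasureTheory Set

namespace Pool.Agent.TMLim

/-- The large eigenvalue of the transfer matrix at energy `E + 100`. -/
noncomputable def lam (E : ℝ) : ℝ := ((E + 100) + √((E + 100) ^ 2 - 4)) / 2

lemma lam_sq {E : ℝ} (hE : E ∈ Icc (-1 : ℝ) 1) : lam E ^ 2 = (E + 100) * lam E - 1 := by
  unfold lam
  have h : √((E + 100) ^ 2 - 4) ^ 2 = (E + 100) ^ 2 - 4 := Real.sq_sqrt (by nlinarith [hE.1])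
  nlinarith

lemma lam_ge {E : ℝ} (hE : E ∈ Icc (-1 : ℝ) 1) : 49 ≤ lam E := by
  unfold lam
  have := Real.sqrt_nonneg ((E + 100) ^ 2 - 4)
  linarith [hE.1]

/-- The expanding functional. -/
noncomputable def af (E : ℝ) (X : M2) : ℝ := lam E * X 0 0 - X 1 0

lemma af_step {E : ℝ} (hE : E ∈ Icc (-1 : ℝ) 1) (X : M2) :
    af E (Am (E + 100) * X) = lam E * af E X := by
  unfold af
  simp only [mul_ent, Am_00, Am_01, Am_10, Am_11]
  linear_combination (-(X 0 0)) * lam_sq hE

lemma af_pow {E : ℝ} (hE : E ∈ Icc (-1 : ℝ) 1) (X : M2) (L : ℕ) :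
    af E (T (fun _ => -100) E L * X) = lam E ^ L * af E X := by
  induction L with
  | zero => simp
  | succ L ih =>
    rw [T_succ, Matrix.mul_assoc, show E - -100 = E + 100 by ring, af_step hE, ih, pow_succ]
    ring

lemma af_le (E : ℝ) (X : M2) : af E X ^ 2 ≤ (lam E ^ 2 + 1) * (X 0 0 ^ 2 + X 1 0 ^ 2) := by
  unfold af
  nlinarith [sq_nonneg (lam E * X 1 0 + X 0 0)]

/-- The denominator normalising the phase. -/
noncomputable def den (E : ℝ) (G : M2) : ℝ :=
  ((lam E * √(√(1 - E ^ 2 / 4))) ^ 2 + ((lam E * (E / 2) - 1) / √(√(1 - E ^ 2 / 4))) ^ 2) *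
    ((Zi (E / 2) (√(1 - E ^ 2 / 4)) * G) 0 0 ^ 2 + (Zi (E / 2) (√(1 - E ^ 2 / 4)) * G) 1 0 ^ 2)

lemma free_ell {E : ℝ} (hE : E ∈ Icc (-1 : ℝ) 1) :
    ∃ t : ℝ, Am E = ell (E / 2) (√(1 - E ^ 2 / 4)) t ∧
      cos t = (T (fun _ => 0) E 1 0 0 + T (fun _ => 0) E 1 1 1) / 2 := by
  obtain ⟨hg, -⟩ := base_good hE
  obtain ⟨t, h1, h2⟩ := good_ell hE hg
  have hT : T (fun _ => 0) E 1 = Am E := by
    rw [T_succ, T_zero, mul_one, sub_zero]
  have hY : Yq (T (fun _ => 0) E 1) = 1 - E ^ 2 / 4 := by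
    rw [hT]; unfold Yq; simp; ring
  refine ⟨t, ?_, h2⟩
  rw [hY, hT, add_zero] at h1
  exact h1

lemma phase_formula {E t : ℝ} (hE : E ∈ Icc (-1 : ℝ) 1)
    (ht : Am E = ell (E / 2) (√(1 - E ^ 2 / 4)) t) {G : M2} (hG : G.det = 1) :
    0 < den E G ∧ ∃ θ : ℝ, ∀ N : ℕ,
      af E (T (fun _ => 0) E N * G) ^ 2 / den E G = cos ((N : ℝ) * t - θ) ^ 2 := by
  have hY0 := Y0_bounds hE
  set y := √(1 - E ^ 2 / 4) with hy
  have hy0 : 0 < y := Real.sqrt_pos.mpr (by linarith [hY0.1])
  have hsy : 0 < √y := Real.sqrt_pos.mpr hy0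
  set H : M2 := Zi (E / 2) y * G with hH
  have hHdet : H.det = 1 := by rw [hH, Matrix.det_mul, det_Zi hy0, hG, one_mul]
  set w1 := lam E * √y with hw1
  set w2 := (lam E * (E / 2) - 1) / √y with hw2
  have hlam := lam_ge hE
  have hw1p : 0 < w1 := by positivity
  have hHpos : 0 < H 0 0 ^ 2 + H 1 0 ^ 2 := by
    rw [det_ent] at hHdet
    by_contra hcon
    push Not at hcon
    have h1 : H 0 0 = 0 := by nlinarith [sq_nonneg (H 0 0), sq_nonneg (H 1 0)]
    have h2 : H 1 0 = 0 := by nlinarith [sq_nonneg (H 0 0), sq_nonneg (H 1 0)]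
    rw [h1, h2] at hHdet
    norm_num at hHdet
  have hden : den E G = (w1 ^ 2 + w2 ^ 2) * (H 0 0 ^ 2 + H 1 0 ^ 2) := rfl
  have hdenpos : 0 < den E G := by rw [hden]; positivity
  refine ⟨hdenpos, ?_⟩
  obtain ⟨θ, h1, h2⟩ := exists_angle (w1 * H 0 0 + w2 * H 1 0) (w2 * H 0 0 - w1 * H 1 0)
  have hamp : (w1 * H 0 0 + w2 * H 1 0) ^ 2 + (w2 * H 0 0 - w1 * H 1 0) ^ 2 = den E G := by
    rw [hden]; ring
  rw [hamp] at h1 h2
  refine ⟨θ, fun N => ?_⟩
  have hTN : T (fun _ => 0) E N = ell (E / 2) y (N * t) := by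
    have h := T_periodic (V := fun _ => (0:ℝ)) (p := 1) (fun _ => rfl) E N 0
    rw [add_zero, T_zero, one_mul, mul_one] at h
    rw [h]
    have hT : T (fun _ => 0) E 1 = Am E := by rw [T_succ, T_zero, mul_one, sub_zero]
    rw [hT, ht, ell_pow hy0]
  have hprod : T (fun _ => 0) E N * G = Zm (E / 2) y * Rot (N * t) * H := by
    rw [hTN, hH]; unfold ell; simp only [Matrix.mul_assoc]
  have hval : af E (T (fun _ => 0) E N * G) = √(den E G) * cos ((N : ℝ) * t - θ) := by
    have e1 : af E (T (fun _ => 0) E N * G) = cos ((N : ℝ) * t) * (w1 * H 0 0 + w2 * H 1 0)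
        + sin ((N : ℝ) * t) * (w2 * H 0 0 - w1 * H 1 0) := by
      rw [hprod]
      unfold af
      simp only [mul_ent, Zm_00, Zm_01, Zm_10, Zm_11, Rot_00, Rot_01, Rot_10, Rot_11]
      rw [hw1, hw2]
      field_simp
      ring
    rw [e1, Real.cos_sub]
    rw [h1, h2]
    ring
  rw [hval, mul_pow, Real.sq_sqrt hdenpos.le]
  field_simp

lemma integral_sin_pow_tendsto :
    Tendsto (fun j : ℕ => ∫ x in (0:ℝ)..π, (1 - cos x ^ 2) ^ j) atTop (𝓝 0) := by
  have h := intervalIntegral.tendsto_integral_filter_of_dominated_convergence (μ := volume)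
    (a := 0) (b := π) (F := fun (j : ℕ) x => (1 - cos x ^ 2) ^ j) (f := fun _ => (0:ℝ))
    (l := atTop) (fun _ => (1:ℝ))
    (by
      filter_upwards with j
      exact (by fun_prop : Continuous (fun x : ℝ => (1 - cos x ^ 2) ^ j)).aestronglyMeasurable)
    (by
      filter_upwards with j
      filter_upwards with x _
      rw [Real.norm_eq_abs, abs_pow]
      apply pow_le_one₀ (abs_nonneg _)
      rw [abs_le]
      constructor <;> nlinarith [sq_nonneg (cos x), Real.cos_sq_le_one x])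
    intervalIntegrable_const
    (by
      have hc : {π / 2}ᶜ ∈ ae (volume : Measure ℝ) := by
        rw [mem_ae_iff, compl_compl]; exact measure_singleton _
      filter_upwards [hc] with x hx hxI
      rw [uIoc_of_le Real.pi_pos.le] at hxI
      have hcos : cos x ≠ 0 := by
        intro h0
        apply hx
        rw [mem_singleton_iff]
        by_contra hne
        rcases lt_or_gt_of_ne hne with h | h
        · have := Real.cos_pos_of_mem_Ioo (x := x) ⟨by linarith [hxI.1, Real.pi_pos], h⟩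
          linarith
        · have := Real.cos_neg_of_pi_div_two_lt_of_lt h (by linarith [hxI.2, Real.pi_pos])
          linarith
      apply tendsto_pow_atTop_nhds_zero_of_abs_lt_one
      have h1 : 0 < cos x ^ 2 := by positivity
      have h2 := Real.cos_sq_le_one x
      rw [abs_lt]
      constructor <;> linarith)
  simpa using h

lemma measurable_den (V : ℕ → ℝ) (n : ℕ) : Measurable (fun E => den E (T V E n)) := by
  unfold den lam
  simp only [mul_ent, Zi_00, Zi_01, Zi_10, Zi_11]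
  have h := fun i j => (continuous_T_ent V n i j).measurable
  have h00 := h 0 0
  have h10 := h 1 0
  fun_prop

lemma measurable_af (U V : ℕ → ℝ) (m n : ℕ) :
    Measurable (fun E => af E (T U E m * T V E n)) := by
  unfold af lam
  simp only [mul_ent]
  have h := fun i j => (continuous_T_ent V n i j).measurable
  have h' := fun i j => (continuous_T_ent U m i j).measurable
  have h00 := h 0 0
  have h10 := h 1 0
  have a00 := h' 0 0
  have a01 := h' 0 1
  have a10 := h' 1 0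
  have a11 := h' 1 1
  fun_prop

/-- The growth lemma. -/
lemma growth_lemma (V : ℕ → ℝ) (n : ℕ) {δ : ℝ} (hδ : 0 < δ) (R : ℝ) :
    ∃ U : ℕ → ℝ, (∀ k, |U k| ≤ 100) ∧ ∃ K : ℕ,
      muI {E | (T U E K * T V E n) 0 0 ^ 2 + (T U E K * T V E n) 1 0 ^ 2 < R}
        ≤ ENNReal.ofReal δ := by
  obtain ⟨M₀, hM₀⟩ := hs_T_bdd V n
  have hM₀1 : 1 ≤ M₀ := (one_le_hs (det_T V 0 n)).trans (hM₀ 0 (by constructor <;> norm_num))
  have hpi := Real.pi_pos
  -- choose the power
  obtain ⟨j, hj⟩ : ∃ j : ℕ, (1 / π) * ∫ x in (0:ℝ)..π, (1 - cos x ^ 2) ^ j < δ / 16 := by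
    have h := integral_sin_pow_tendsto.const_mul (1 / π)
    rw [mul_zero] at h
    exact (h.eventually_lt_const (by positivity)).exists
  set I : ℝ := (1 / π) * ∫ x in (0:ℝ)..π, (1 - cos x ^ 2) ^ j with hI
  have hI0 : 0 ≤ I := by
    rw [hI]
    apply mul_nonneg (by positivity)
    apply intervalIntegral.integral_nonneg hpi.le
    intro x _
    have := Real.cos_sq_le_one x
    exact pow_nonneg (by linarith) j
  set f : ℕ → ℝ → ℝ := fun N E =>
    (1 - af E (T (fun _ => 0) E (N + 1) * T V E n) ^ 2 / den E (T V E n)) ^ j with hf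
  have hfm : ∀ N, Measurable (f N) := by
    intro N
    have h1 := measurable_af (fun _ => 0) V (N + 1) n
    have h2 := measurable_den V n
    simp only [hf]
    fun_prop
  have hf01 : ∀ E ∈ Icc (-1 : ℝ) 1, ∀ N, 0 ≤ f N E ∧ f N E ≤ 1 := by
    intro E hE N
    obtain ⟨t, ht, -⟩ := free_ell hE
    obtain ⟨hd, θ, hθ⟩ := phase_formula hE ht (det_T V E n)
    simp only [hf]
    rw [hθ (N + 1)]
    have h1 := Real.cos_sq_le_one (((N + 1 : ℕ) : ℝ) * t - θ)
    have h2 := sq_nonneg (cos (((N + 1 : ℕ) : ℝ) * t - θ))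
    exact ⟨pow_nonneg (by linarith) j, pow_le_one₀ (by linarith) (by linarith)⟩
  obtain ⟨N, hN⟩ := avg_exists (μ := muI) (f := f) (g := fun _ => 0) (c := I) hI0 hfm
    measurable_const (ae_muI (fun E hE N => (hf01 E hE N).1))
    (ae_muI (fun E hE N => (hf01 E hE N).2)) (ae_muI (fun _ _ => le_refl _))
    (ae_muI (fun _ _ => zero_le_one))
    (by
      have hbad : ∀ᵐ E ∂muI, E ∉ badE (fun _ => 0) 1 := by
        have : muI (badE (fun _ => 0) 1) = 0 := (badE_countable _ (le_refl 1)).measure_zero _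
        exact measure_eq_zero_iff_ae_notMem.mp this
      have h1 : ∀ᵐ E ∂muI, E ∈ Icc (-1 : ℝ) 1 := ae_muI (fun E hE => hE)
      filter_upwards [hbad, h1] with E hb hE τ hτ
      obtain ⟨t, ht, hcos⟩ := free_ell hE
      have hirr := irrational_of_notMem hb hcos
      obtain ⟨hd, θ, hθ⟩ := phase_formula hE ht (det_T V E n)
      set G : ℝ → ℝ := fun x => (1 - cos (x - θ) ^ 2) ^ j with hG
      have hGc : Continuous G := by fun_prop
      have hGp : Function.Periodic G π := by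
        intro x
        simp only [hG]
        rw [show x + π - θ = (x - θ) + π by ring, Real.cos_add_pi, neg_sq]
      have hw := weyl_real hirr hGc hGp
      have hint : ∫ x in (0:ℝ)..π, G x = ∫ x in (0:ℝ)..π, (1 - cos x ^ 2) ^ j := by
        have hp0 : Function.Periodic (fun x : ℝ => (1 - cos x ^ 2) ^ j) π := by
          intro x
          show (1 - cos (x + π) ^ 2) ^ j = (1 - cos x ^ 2) ^ j
          rw [Real.cos_add_pi, neg_sq]
        have e1 : ∫ x in (0:ℝ)..π, G x = ∫ x in (0 - θ)..(π - θ), (1 - cos x ^ 2) ^ j := by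
          simp only [hG]
          exact intervalIntegral.integral_comp_sub_right (fun x => (1 - cos x ^ 2) ^ j) θ
        rw [e1, zero_sub, show π - θ = -θ + π by ring]
        have := hp0.intervalIntegral_add_eq (-θ) 0
        rw [zero_add] at this
        exact this
      rw [hint] at hw
      have hw' : Tendsto (fun K : ℕ => (∑ N ∈ Finset.range K, f N E) / (K : ℝ)) atTop (𝓝 I) := by
        refine hw.congr (fun K => ?_)
        congr 1
        refine Finset.sum_congr rfl (fun N _ => ?_)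
        simp only [hG, hf]
        rw [hθ (N + 1)]
        push_cast
        rfl
      have := hw'.eventually_lt_const (show I < I + τ by linarith)
      filter_upwards [this] with K hK
      linarith)
    (show (0:ℝ) < δ / 8 by positivity)
  rw [integral_zero, muI_univ, zero_add] at hN
  -- choose sigma
  obtain ⟨σ, hσ0, hσ1⟩ : ∃ σ : ℝ, 0 < σ ∧ 1 / 2 ≤ (1 - σ) ^ j ∧ σ < 1 := by
    have hc : ContinuousAt (fun s : ℝ => (1 - s) ^ j) 0 := by fun_prop
    have h1 : ∀ᶠ s in 𝓝 (0:ℝ), 1 / 2 < (1 - s) ^ j := by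
      apply hc.eventually_const_lt
      simp
      norm_num
    obtain ⟨r, hr, hball⟩ := Metric.eventually_nhds_iff.mp h1
    refine ⟨min (r / 2) (1 / 2), by positivity, ?_, ?_⟩
    · apply (hball _).le
      rw [Real.dist_eq, sub_zero, abs_of_pos (by positivity)]
      exact lt_of_le_of_lt (min_le_left _ _) (by linarith)
    · exact lt_of_le_of_lt (min_le_right _ _) (by norm_num)
  -- choose L
  obtain ⟨L, hL⟩ : ∃ L : ℕ, R * (48 * M₀) / σ < (49 : ℝ) ^ L := pow_unbounded_of_one_lt _ (by norm_num)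
  refine ⟨cat (fun _ => 0) (N + 1) (fun _ => -100), ?_, (N + 1) + L, ?_⟩
  · intro k
    unfold cat
    split_ifs <;> norm_num
  set S : Set ℝ := {E | 1 / 2 ≤ f N E} with hS
  have hSm : muI.real S ≤ δ := by
    have hint : Integrable (f N) muI := by
      refine Integrable.mono' (integrable_const (1 : ℝ)) (hfm N).aestronglyMeasurable ?_
      exact ae_muI (fun E hE => by
        rw [Real.norm_eq_abs, abs_of_nonneg (hf01 E hE N).1]
        exact (hf01 E hE N).2)
    have hmarkov := mul_meas_ge_le_integral_of_nonneg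
      (ae_muI (fun E hE => (hf01 E hE N).1) : 0 ≤ᵐ[muI] f N) hint (1 / 2)
    have : muI.real S ≤ 2 * (I * 2 + δ / 8) := by
      have h1 : (1 / 2) * muI.real S ≤ I * 2 + δ / 8 := hmarkov.trans hN
      linarith
    linarith
  have hout : muI (Icc (-1 : ℝ) 1)ᶜ = 0 := by
    unfold muI
    rw [Measure.restrict_apply measurableSet_Icc.compl]
    simp
  have hsub : {E | (T (cat (fun _ => 0) (N + 1) (fun _ => -100)) E ((N + 1) + L) * T V E n) 0 0 ^ 2
      + (T (cat (fun _ => 0) (N + 1) (fun _ => -100)) E ((N + 1) + L) * T V E n) 1 0 ^ 2 < R}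
      ⊆ S ∪ (Icc (-1 : ℝ) 1)ᶜ := by
    intro E hE
    by_contra hcon
    simp only [Set.mem_union, Set.mem_compl_iff, not_or, not_not] at hcon
    obtain ⟨hES, hEI⟩ := hcon
    rw [Set.mem_ofPred_eq, T_cat] at hE
    obtain ⟨t, ht, -⟩ := free_ell hEI
    obtain ⟨hd, θ, hθ⟩ := phase_formula hEI ht (det_T V E n)
    set X : M2 := T (fun _ => -100) E L * T (fun _ => 0) E (N + 1) * T V E n with hX
    have hXa : af E X = lam E ^ L * af E (T (fun _ => 0) E (N + 1) * T V E n) := by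
      rw [hX, Matrix.mul_assoc, af_pow hEI]
    set ρ := af E (T (fun _ => 0) E (N + 1) * T V E n) ^ 2 / den E (T V E n) with hρ
    have hρ0 : 0 ≤ ρ := by rw [hρ, hθ (N + 1)]; positivity
    have hρ1 : ρ ≤ 1 := by rw [hρ, hθ (N + 1)]; exact Real.cos_sq_le_one _
    have hρσ : σ ≤ ρ := by
      by_contra hcon2
      push Not at hcon2
      apply hES
      show 1 / 2 ≤ f N E
      refine hσ1.1.trans ?_
      simp only [hf]
      apply pow_le_pow_left₀ (by linarith [hσ1.2])
      linarith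
    have haf2 : af E (T (fun _ => 0) E (N + 1) * T V E n) ^ 2 = ρ * den E (T V E n) := by
      rw [hρ]; field_simp
    have hlam := lam_ge hEI
    have hY0 := Y0_bounds hEI
    set y := √(1 - E ^ 2 / 4) with hy
    have hy0 : 0 < y := Real.sqrt_pos.mpr (by linarith [hY0.1])
    have hyl : 1 / 2 ≤ y := by apply Real.le_sqrt_of_sq_le; linarith [hY0.1]
    have hyu : y ≤ 5 / 4 := by rw [hy, Real.sqrt_le_left (by norm_num)]; linarith [hY0.2]
    set H : M2 := Zi (E / 2) y * T V E n with hH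
    have hHdet : H.det = 1 := by rw [hH, Matrix.det_mul, det_Zi hy0, det_T, one_mul]
    have hHs : hs H ≤ 6 * M₀ := by
      refine (hs_mul_le _ _).trans ?_
      have h1 : hs (Zi (E / 2) y) ≤ 3 := by
        apply hs_Zi_le _ hyl hyu
        rw [abs_le]; constructor <;> linarith [hEI.1, hEI.2]
      have h2 := hs_nonneg (Zi (E / 2) y)
      have h3 := hs_nonneg (T V E n)
      have h4 := hM₀ E hEI
      nlinarith
    have hζ : 1 / (12 * M₀) ≤ H 0 0 ^ 2 + H 1 0 ^ 2 := by
      rw [det_ent] at hHdet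
      have h1 : 1 ≤ (H 0 0 ^ 2 + H 1 0 ^ 2) * (H 0 1 ^ 2 + H 1 1 ^ 2) := by
        have : (1:ℝ) = (H 0 0 * H 1 1 - H 0 1 * H 1 0) ^ 2 := by rw [hHdet]; norm_num
        rw [this]
        nlinarith [sq_nonneg (H 0 0 * H 0 1 + H 1 0 * H 1 1)]
      have h2 : H 0 1 ^ 2 + H 1 1 ^ 2 ≤ 12 * M₀ := by
        unfold hs at hHs
        nlinarith [sq_nonneg (H 0 0), sq_nonneg (H 1 0)]
      rw [div_le_iff₀ (by positivity)]
      have h3 : 0 ≤ H 0 0 ^ 2 + H 1 0 ^ 2 := by positivity
      nlinarith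
    have hden : lam E ^ 2 / 2 * (1 / (12 * M₀)) ≤ den E (T V E n) := by
      have e1 : den E (T V E n) = ((lam E * √y) ^ 2 + ((lam E * (E / 2) - 1) / √y) ^ 2) *
        (H 0 0 ^ 2 + H 1 0 ^ 2) := rfl
      rw [e1]
      have h1 : lam E ^ 2 / 2 ≤ (lam E * √y) ^ 2 + ((lam E * (E / 2) - 1) / √y) ^ 2 := by
        rw [mul_pow, Real.sq_sqrt hy0.le]
        have := sq_nonneg ((lam E * (E / 2) - 1) / √y)
        nlinarith [sq_nonneg (lam E)]
      exact mul_le_mul h1 hζ (by positivity) (by positivity)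
    have hle := af_le E X
    rw [hXa, mul_pow, haf2] at hle
    -- lam^(2L) * rho * den <= (lam^2+1) |X|^2
    have h1 : (lam E ^ L) ^ 2 * (σ * (lam E ^ 2 / 2 * (1 / (12 * M₀))))
        ≤ (lam E ^ 2 + 1) * (X 0 0 ^ 2 + X 1 0 ^ 2) := by
      refine le_trans ?_ hle
      gcongr
    have h2 : (lam E ^ 2 + 1) * (X 0 0 ^ 2 + X 1 0 ^ 2) ≤ 2 * lam E ^ 2 * (X 0 0 ^ 2 + X 1 0 ^ 2) := by
      have : lam E ^ 2 + 1 ≤ 2 * lam E ^ 2 := by nlinarith
      have h3 : 0 ≤ X 0 0 ^ 2 + X 1 0 ^ 2 := by positivity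
      exact mul_le_mul_of_nonneg_right this h3
    have hl2 : 0 < lam E ^ 2 := by positivity
    have h3 : (lam E ^ L) ^ 2 * (σ * (1 / (48 * M₀))) ≤ X 0 0 ^ 2 + X 1 0 ^ 2 := by
      have h4 := h1.trans h2
      have e1 : (lam E ^ L) ^ 2 * (σ * (lam E ^ 2 / 2 * (1 / (12 * M₀))))
          = 2 * lam E ^ 2 * ((lam E ^ L) ^ 2 * (σ * (1 / (48 * M₀)))) := by
        field_simp
        norm_num
      rw [e1] at h4
      exact le_of_mul_le_mul_left h4 (by positivity)
    have h5 : (49 : ℝ) ^ L ≤ (lam E ^ L) ^ 2 := by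
      have h6 : (49 : ℝ) ^ L ≤ lam E ^ L := pow_le_pow_left₀ (by norm_num) hlam L
      have h7 : 1 ≤ lam E ^ L := one_le_pow₀ (by linarith)
      nlinarith
    have h8 : R < X 0 0 ^ 2 + X 1 0 ^ 2 := by
      refine lt_of_lt_of_le ?_ h3
      rw [div_lt_iff₀ hσ0] at hL
      have h9 : R * (48 * M₀) < (lam E ^ L) ^ 2 * σ := by nlinarith
      have e2 : (lam E ^ L) ^ 2 * (σ * (1 / (48 * M₀))) = (lam E ^ L) ^ 2 * σ / (48 * M₀) := by
        field_simp
      rw [e2, lt_div_iff₀ (by positivity)]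
      exact h9
    linarith
  calc muI _ ≤ muI (S ∪ (Icc (-1 : ℝ) 1)ᶜ) := measure_mono hsub
    _ ≤ muI S + muI (Icc (-1 : ℝ) 1)ᶜ := measure_union_le _ _
    _ = muI S := by rw [hout, add_zero]
    _ ≤ ENNReal.ofReal δ := by
      rw [← ENNReal.ofReal_toReal (measure_ne_top muI S)]
      exact ENNReal.ofReal_le_ofReal hSm

end Pool.Agent.TMLim
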