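import Pool.Agent.TMLim.Step
import Pool.Agent.TMLim.Avg

/-!
# Periodic potentials with large Bloch matrices at most energies
-/

set_option autoImplicit false

open Real Filter Topology MeasureTheory Set

namespace Pool.Agent.TMLim

lemma measurable_Yq (V : ℕ → ℝ) (p : ℕ) : Measurable (fun E => Yq (T V E p)) := by
  unfold Yq
  have h := fun i j => (continuous_T_ent V p i j).measurable
  have h00 := h 0 0
  have h11 := h 1 1
  have h10 := h 1 0
  fun_prop

lemma measurable_Kinv (V : ℕ → ℝ) (p : ℕ) (ξ : ℝ) : Measurable (fun E => Kinv V p ξ E) := by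
  unfold Kinv
  refine Measurable.iInf (fun r => ?_)
  unfold Hf hs
  simp only [mul_ent, Zm_00, Zm_01, Zm_10, Zm_11]
  have hY := measurable_Yq V p
  have h := fun i j => (continuous_T_ent V (r : ℕ) i j).measurable
  have h00 := h 0 0
  have h11 := h 1 1
  have h10 := h 1 0
  have h01 := h 0 1
  fun_prop

lemma measurableSet_good (V : ℕ → ℝ) (p : ℕ) (ξ : ℝ) : MeasurableSet {E | good V p ξ E} := by
  unfold good
  have hY := measurable_Yq V p
  have h := fun i j => (continuous_T_ent V p i j).measurable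
  have h00 := h 0 0
  have h11 := h 1 1
  have h10 := h 1 0
  refine MeasurableSet.inter ?_ ?_
  · have h1 : Measurable (fun E => |Yq (T V E p) / (1 - E ^ 2 / 4) - 1|) := by fun_prop
    exact measurableSet_lt h1 measurable_const
  · have h1 : Measurable (fun E => T V E p 0 0 - T V E p 1 1) := by fun_prop
    have h2 : Measurable (fun E => T V E p 1 0 * (E + ξ)) := by fun_prop
    exact measurableSet_eq_fun h1 h2

lemma measurable_Phi (V : ℕ → ℝ) (p : ℕ) (ξ a : ℝ) : Measurable (fun E => Phi V p ξ a E) := by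
  unfold Phi
  refine Measurable.ite (measurableSet_good V p ξ) ?_ measurable_const
  have hY := measurable_Yq V p
  have hK := measurable_Kinv V p ξ
  fun_prop

/-- The energy interval, as a measure. -/
noncomputable abbrev muI : Measure ℝ := volume.restrict (Icc (-1 : ℝ) 1)

instance : IsFiniteMeasure muI := by
  unfold muI; infer_instance

lemma muI_univ : muI.real univ = 2 := by
  simp [muI]
  norm_num

lemma ae_muI {P : ℝ → Prop} (h : ∀ E ∈ Icc (-1 : ℝ) 1, P E) : ∀ᵐ E ∂muI, P E := by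
  unfold muI
  exact (ae_restrict_iff' measurableSet_Icc).mpr (Eventually.of_forall h)

/-- One level of the construction. -/
lemma one_level {V : ℕ → ℝ} {p : ℕ} (hp : 1 ≤ p) (hV : ∀ k, V (p + k) = V k)
    {η ξ ε a a' : ℝ} (hη : 0 < η) (hη1 : η ≤ 1 / 8) (ha : 0 ≤ a) (ha' : 0 ≤ a')
    (hε : 0 < ε) (hε1 : ε < 1) (haa : a' * (1 - kap η) ≤ a * (1 - ε)) :
    ∃ N : ℕ, ∫ E, Phi (lift V ((N + 1) * p) η) ((N + 1) * p) (ξ + η) a' E ∂muI
      ≤ ∫ E, Phi V p ξ a E ∂muI + 25 * η := by
  have hbad : ∀ᵐ E ∂muI, E ∉ badE V p := by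
    have : muI (badE V p) = 0 := (badE_countable V hp).measure_zero _
    exact measure_eq_zero_iff_ae_notMem.mp this
  obtain ⟨N, hN⟩ := avg_exists (μ := muI)
    (f := fun N E => Phi (lift V ((N + 1) * p) η) ((N + 1) * p) (ξ + η) a' E)
    (g := fun E => Phi V p ξ a E) (c := 12 * η) (by positivity)
    (fun N => measurable_Phi _ _ _ _) (measurable_Phi _ _ _ _)
    (ae_muI (fun E hE N => Phi_nonneg _ _ ha' hE))
    (ae_muI (fun E _ N => Phi_le_one _ _ _ _ _))
    (ae_muI (fun E hE => Phi_nonneg _ _ ha hE))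
    (ae_muI (fun E _ => Phi_le_one _ _ _ _ _))
    (by
      have h1 : ∀ᵐ E ∂muI, E ∈ Icc (-1 : ℝ) 1 := ae_muI (fun E hE => hE)
      filter_upwards [hbad, h1] with E hE hE1 τ hτ
      exact avg_bound hp hV hE1 hE hη hη1 ha' hε hε1 haa hτ) hη
  refine ⟨N, hN.trans ?_⟩
  rw [muI_univ]
  linarith

lemma base_good {E : ℝ} (hE : E ∈ Icc (-1 : ℝ) 1) : good (fun _ => 0) 1 0 E ∧
    Yq (T (fun _ => 0) E 1) / (1 - E ^ 2 / 4) - 1 = 0 := by
  have hT : T (fun _ => 0) E 1 = Am E := by
    rw [T_succ, T_zero, mul_one, sub_zero]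
  have hY : Yq (T (fun _ => 0) E 1) = 1 - E ^ 2 / 4 := by
    rw [hT]; unfold Yq; simp; ring
  have h0 : (1 - E ^ 2 / 4) ≠ 0 := by linarith [(Y0_bounds hE).1]
  have h1 : Yq (T (fun _ => 0) E 1) / (1 - E ^ 2 / 4) - 1 = 0 := by
    rw [hY, div_self h0, sub_self]
  refine ⟨⟨?_, ?_⟩, h1⟩
  · rw [h1]; norm_num
  · rw [hT]; simp

lemma base_Phi {a : ℝ} (ha : 0 ≤ a) : ∫ E, Phi (fun _ => 0) 1 0 a E ∂muI ≤ 2 * a := by
  have h1 : ∫ E, Phi (fun _ => 0) 1 0 a E ∂muI ≤ ∫ _, a ∂muI := by
    apply integral_mono_ae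
    · refine Integrable.mono' (integrable_const (1 : ℝ)) (measurable_Phi _ _ _ _).aestronglyMeasurable ?_
      exact ae_muI (fun E hE => by
        rw [Real.norm_eq_abs, abs_of_nonneg (Phi_nonneg _ _ ha hE)]
        exact Phi_le_one _ _ _ _ _)
    · exact integrable_const _
    · refine ae_muI (fun E hE => ?_)
      obtain ⟨hg, h0⟩ := base_good hE
      show Phi (fun _ => 0) 1 0 a E ≤ a
      unfold Phi
      rw [if_pos hg, h0]
      refine (min_le_right _ _).trans ?_
      have hK := Kinv_le_one (fun _ => 0) (le_refl 1) 0 (E := E)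
        (by linarith [(good_Y hE hg).1])
      have : a * Kinv (fun _ => 0) 1 0 E ≤ a * 1 := mul_le_mul_of_nonneg_left hK ha
      linarith
  rw [integral_const, muI_univ, smul_eq_mul] at h1
  exact h1

/-- Iteration of the levels. -/
lemma iterate_levels {η a₀ ρ ε : ℝ} (hη : 0 < η) (hη1 : η ≤ 1 / 8) (ha₀ : 0 ≤ a₀) (hρ : 0 ≤ ρ)
    (hε : 0 < ε) (hε1 : ε < 1) (hρ1 : ρ * (1 - kap η) ≤ 1 - ε) (m : ℕ) :
    ∃ (V : ℕ → ℝ) (p : ℕ), 1 ≤ p ∧ (∀ k, V (p + k) = V k) ∧ (∀ k, -(m * η) ≤ V k ∧ V k ≤ 0) ∧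
      ∫ E, Phi V p (m * η) (a₀ * ρ ^ m) E ∂muI ≤ 2 * a₀ + m * (25 * η) := by
  induction m with
  | zero =>
    refine ⟨fun _ => 0, 1, le_refl 1, fun _ => rfl, fun _ => by simp, ?_⟩
    simp only [Nat.cast_zero, zero_mul, pow_zero, mul_one, add_zero]
    exact base_Phi ha₀
  | succ m ih =>
    obtain ⟨V, p, hp, hV, hVb, hPhi⟩ := ih
    have haa : (a₀ * ρ ^ (m + 1)) * (1 - kap η) ≤ (a₀ * ρ ^ m) * (1 - ε) := by
      have : (a₀ * ρ ^ (m + 1)) * (1 - kap η) = (a₀ * ρ ^ m) * (ρ * (1 - kap η)) := by ring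
      rw [this]
      exact mul_le_mul_of_nonneg_left hρ1 (by positivity)
    obtain ⟨N, hN⟩ := one_level hp hV (ξ := m * η) hη hη1 (by positivity : 0 ≤ a₀ * ρ ^ m)
      (by positivity : 0 ≤ a₀ * ρ ^ (m + 1)) hε hε1 haa
    refine ⟨lift V ((N + 1) * p) η, (N + 1) * p, ?_, lift_periodic hV η, ?_, ?_⟩
    · exact Nat.succ_le_of_lt (by positivity)
    · intro k
      obtain ⟨h1, h2⟩ := hVb k
      unfold lift
      push_cast
      split_ifs
      · constructor <;> linarith
      · constructor <;> linarith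
    · have e1 : (((m + 1 : ℕ) : ℝ) * η) = m * η + η := by push_cast; ring
      rw [e1]
      refine hN.trans ?_
      push_cast
      linarith

/-- Main lemma: periodic potentials with large Bloch matrices. -/
lemma large_bloch {M δ : ℝ} (hM : 0 < M) (hδ : 0 < δ) :
    ∃ (V : ℕ → ℝ) (p : ℕ) (ξ : ℝ), 1 ≤ p ∧ (∀ k, V (p + k) = V k) ∧ (∀ k, -1 ≤ V k ∧ V k ≤ 0) ∧
      0 ≤ ξ ∧ ξ ≤ 1 ∧
      muI {E | ¬ (good V p ξ E ∧ Kinv V p ξ E < 1 / M)} ≤ ENNReal.ofReal δ := by
  have hpi := Real.pi_pos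
  set d : ℝ := min δ 1 / 100 with hd
  have hd0 : 0 < d := by
    have : 0 < min δ 1 := lt_min hδ one_pos
    positivity
  have hdδ : d ≤ δ / 100 := by
    have := min_le_left δ 1
    rw [hd]; linarith
  have hd1 : d ≤ 1 / 100 := by
    have := min_le_right δ 1
    rw [hd]; linarith
  set L : ℝ := max 1 (max (1 / (2 * d)) (8 * M / δ * (32 * π) / d)) with hL
  have hL1 : 1 ≤ L := le_max_left _ _
  have hL2 : 1 / (2 * d) ≤ L := (le_max_left _ _).trans (le_max_right _ _)
  have hL3 : 8 * M / δ * (32 * π) / d ≤ L := (le_max_right _ _).trans (le_max_right _ _)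
  have hL0 : 0 < L := by linarith
  set η : ℝ := exp (-L) / 4 with hη
  have hη0 : 0 < η := by positivity
  have hexp : exp (-L) ≤ 1 / (1 + L) := by
    rw [Real.exp_neg, one_div]
    apply inv_anti₀ (by linarith)
    have := Real.add_one_le_exp L
    linarith
  have hη1 : η ≤ 1 / 8 := by
    have h1 : exp (-L) ≤ 1 / 2 := by
      refine hexp.trans ?_
      rw [div_le_div_iff₀ (by linarith) (by norm_num)]
      linarith
    rw [hη]; linarith
  have hηd : η ≤ d / 2 := by
    have h1 : exp (-L) ≤ 1 / L := by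
      refine hexp.trans ?_
      apply one_div_le_one_div_of_le hL0
      linarith
    have h2 : 1 / L ≤ 2 * d := by
      rw [div_le_iff₀ hL0]
      rw [div_le_iff₀ (by positivity)] at hL2
      linarith
    rw [hη]; linarith
  have hlog : log (1 / (4 * η)) = L := by
    have : 1 / (4 * η) = exp L := by
      rw [hη, Real.exp_neg]
      field_simp
    rw [this, Real.log_exp]
  set κ := kap η with hκ
  have hκe : κ = η / (8 * π) * L := by rw [hκ]; unfold kap; rw [hlog]
  have hκ0 : 0 < κ := by rw [hκe]; positivity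
  have hκ1 : κ < 1 := by
    have h1 : η * L ≤ 1 / 4 := by
      have h2 : exp (-L) * L ≤ 1 := by
        calc exp (-L) * L ≤ 1 / (1 + L) * L := by gcongr
          _ ≤ 1 := by rw [div_mul_eq_mul_div, div_le_one (by linarith)]; linarith
      rw [hη]; linarith
    have h3 : κ = (η * L) / (8 * π) := by rw [hκe]; ring
    rw [h3, div_lt_one (by positivity)]
    nlinarith [Real.pi_gt_three]
  set m : ℕ := ⌊d / η⌋₊ with hm
  have hm1 : (m : ℝ) ≤ d / η := Nat.floor_le (by positivity)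
  have hm2 : d / η < m + 1 := Nat.lt_floor_add_one _
  have hmη : m * η ≤ d := by rwa [le_div_iff₀ hη0] at hm1
  have hmη2 : d / 2 ≤ m * η := by
    rw [div_lt_iff₀ hη0] at hm2
    nlinarith
  set ρ : ℝ := 1 + κ / 2 with hρ
  have hρm : 8 * M / δ ≤ ρ ^ m := by
    have h1 : 1 + (m : ℝ) * (κ / 2) ≤ ρ ^ m := one_add_mul_le_pow (by linarith) m
    refine le_trans ?_ h1
    have h2 : (m : ℝ) * (κ / 2) = (m * η) * L / (16 * π) := by rw [hκe]; field_simp; ring
    have h3 : (d / 2) * L / (16 * π) ≤ (m * η) * L / (16 * π) := by gcongr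
    have h4 : 8 * M / δ ≤ (d / 2) * L / (16 * π) := by
      rw [le_div_iff₀ (by positivity)]
      rw [div_le_iff₀ hd0] at hL3
      nlinarith
    linarith
  have hρm0 : 0 < ρ ^ m := by positivity
  set a₀ : ℝ := M / ρ ^ m with ha₀
  have ha₀0 : 0 ≤ a₀ := by positivity
  have ha₀1 : a₀ ≤ δ / 8 := by
    rw [ha₀, div_le_iff₀ hρm0]
    rw [div_le_iff₀ hδ] at hρm
    linarith
  obtain ⟨V, p, hp, hV, hVb, hPhi⟩ := iterate_levels hη0 hη1 ha₀0 (by positivity : 0 ≤ ρ)
    (by positivity : 0 < κ / 2) (by linarith) (by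
      show ρ * (1 - κ) ≤ 1 - κ / 2
      rw [hρ]; nlinarith) m
  have haM : a₀ * ρ ^ m = M := by rw [ha₀]; field_simp
  rw [haM] at hPhi
  refine ⟨V, p, m * η, hp, hV, ?_, by positivity, by linarith, ?_⟩
  · intro k
    obtain ⟨h1, h2⟩ := hVb k
    exact ⟨by linarith, h2⟩
  · have hsub : {E | ¬ (good V p (m * η) E ∧ Kinv V p (m * η) E < 1 / M)}
        ⊆ {E | 1 / 2 ≤ Phi V p (m * η) M E} := by
      intro E hE
      by_contra hcon
      simp only [Set.mem_ofPred_eq, not_le] at hcon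
      apply hE
      by_cases hg : good V p (m * η) E
      · refine ⟨hg, ?_⟩
        unfold Phi at hcon
        rw [if_pos hg] at hcon
        rcases min_lt_iff.mp hcon with h | h
        · norm_num at h
        · have : M * Kinv V p (m * η) E < 1 / 2 := by
            have := sq_nonneg (Yq (T V E p) / (1 - E ^ 2 / 4) - 1)
            linarith
          rw [lt_div_iff₀ hM]
          linarith
      · unfold Phi at hcon
        rw [if_neg hg] at hcon
        norm_num at hcon
    refine (measure_mono hsub).trans ?_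
    have hint : Integrable (fun E => Phi V p (m * η) M E) muI := by
      refine Integrable.mono' (integrable_const (1 : ℝ)) (measurable_Phi _ _ _ _).aestronglyMeasurable ?_
      exact ae_muI (fun E hE => by
        rw [Real.norm_eq_abs, abs_of_nonneg (Phi_nonneg _ _ hM.le hE)]
        exact Phi_le_one _ _ _ _ _)
    have hnn : 0 ≤ᵐ[muI] fun E => Phi V p (m * η) M E :=
      ae_muI (fun E hE => Phi_nonneg _ _ hM.le hE)
    have hmarkov := mul_meas_ge_le_integral_of_nonneg hnn hint (1 / 2)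
    have h1 : muI.real {E | 1 / 2 ≤ Phi V p (m * η) M E} ≤ δ := by
      have h2 : muI.real {E | 1 / 2 ≤ Phi V p (m * η) M E} ≤ 2 * (2 * a₀ + m * (25 * η)) := by
        linarith
      refine h2.trans ?_
      nlinarith
    rw [← ENNReal.ofReal_toReal (measure_ne_top muI {E | 1 / 2 ≤ Phi V p (m * η) M E})]
    exact ENNReal.ofReal_le_ofReal h1

end Pool.Agent.TMLim
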