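import Pool.Agent.TMLim.Large

/-!
# Every transfer matrix can be brought back at most energies
-/

set_option autoImplicit false

open Real Filter Topology MeasureTheory Set

namespace Pool.Agent.TMLim

/-- Concatenation of the first `n` sites of `V` with `U`. -/
noncomputable def cat (V : ℕ → ℝ) (n : ℕ) (U : ℕ → ℝ) : ℕ → ℝ :=
  fun k => if k < n then V k else U (k - n)

lemma cat_lt {V : ℕ → ℝ} {n : ℕ} {U : ℕ → ℝ} {k : ℕ} (hk : k < n) : cat V n U k = V k := by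
  unfold cat; rw [if_pos hk]

lemma T_cat (V : ℕ → ℝ) (n : ℕ) (U : ℕ → ℝ) (E : ℝ) (t : ℕ) :
    T (cat V n U) E (n + t) = T U E t * T V E n := by
  rw [T_add]
  congr 1
  · congr 1
    ext k
    unfold cat
    rw [if_neg (by omega)]
    congr 1
    omega
  · exact T_congr E (fun k hk => cat_lt hk)

lemma hs_Am_le {e : ℝ} (he : |e| ≤ 2) : hs (Am e) ≤ 3 := by
  unfold hs
  simp only [Am_00, Am_01, Am_10, Am_11]
  have : e ^ 2 ≤ 4 := by rw [← sq_abs]; nlinarith [abs_nonneg e]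
  linarith

lemma hs_Zm_le {x y : ℝ} (hx : |x| ≤ 1) (hy1 : 1 / 2 ≤ y) (hy2 : y ≤ 5 / 4) : hs (Zm x y) ≤ 3 := by
  have hy : 0 < y := by linarith
  unfold hs
  simp only [Zm_00, Zm_01, Zm_10, Zm_11]
  rw [div_pow, div_pow, Real.sq_sqrt hy.le]
  have h1 : x ^ 2 ≤ 1 := by rw [← sq_abs]; nlinarith [abs_nonneg x]
  have h2 : x ^ 2 / y ≤ 2 := by rw [div_le_iff₀ hy]; linarith
  have h3 : 1 ^ 2 / y ≤ 2 := by rw [div_le_iff₀ hy]; linarith
  linarith

lemma hs_Zi_le {x y : ℝ} (hx : |x| ≤ 1) (hy1 : 1 / 2 ≤ y) (hy2 : y ≤ 5 / 4) : hs (Zi x y) ≤ 3 := by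
  have hy : 0 < y := by linarith
  unfold hs
  simp only [Zi_00, Zi_01, Zi_10, Zi_11]
  rw [neg_sq, div_pow, div_pow, Real.sq_sqrt hy.le]
  have h1 : x ^ 2 ≤ 1 := by rw [← sq_abs]; nlinarith [abs_nonneg x]
  have h2 : x ^ 2 / y ≤ 2 := by rw [div_le_iff₀ hy]; linarith
  have h3 : 1 ^ 2 / y ≤ 2 := by rw [div_le_iff₀ hy]; linarith
  linarith

lemma good_xy {V : ℕ → ℝ} {p : ℕ} {ξ E : ℝ} (hE : E ∈ Icc (-1 : ℝ) 1) (hg : good V p ξ E)
    (hξ0 : 0 ≤ ξ) (hξ1 : ξ ≤ 1) :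
    |(E + ξ) / 2| ≤ 1 ∧ 1 / 2 ≤ √(Yq (T V E p)) ∧ √(Yq (T V E p)) ≤ 5 / 4 := by
  have hYb := good_Y hE hg
  refine ⟨?_, ?_, ?_⟩
  · rw [abs_le]; constructor <;> linarith [hE.1, hE.2]
  · apply Real.le_sqrt_of_sq_le; linarith [hYb.1]
  · rw [Real.sqrt_le_left (by norm_num)]; linarith [hYb.2]

/-- Pointwise return. -/
lemma return_pointwise {U : ℕ → ℝ} {p : ℕ} (hp : 1 ≤ p) (hU : ∀ k, U (p + k) = U k)
    (hUb : ∀ k, -1 ≤ U k ∧ U k ≤ 0) {ξ E : ℝ} (hξ0 : 0 ≤ ξ) (hξ1 : ξ ≤ 1)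
    (hE : E ∈ Icc (-1 : ℝ) 1) (hbad : E ∉ badE U p) (hg : good U p ξ E)
    {G : M2} (hG : G.det = 1) {M₀ : ℝ} (hGM : hs G ≤ M₀)
    (hK : Kinv U p ξ E < 1 / (12 * M₀)) :
    ∃ t : ℕ, hs (T U E t * G) ≤ 13 := by
  obtain ⟨t, hT, hcos⟩ := good_ell hE hg
  obtain ⟨hx, hy1, hy2⟩ := good_xy hE hg hξ0 hξ1
  have hirr : Irrational (t / π) := irrational_of_notMem hbad hcos
  set y := √(Yq (T U E p)) with hy
  set x := (E + ξ) / 2 with hxdef
  have hy0 : 0 < y := by linarith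
  have hYpos : 0 < Yq (T U E p) := Real.sqrt_pos.mp hy0
  have hM₀ : 1 ≤ M₀ := (one_le_hs hG).trans hGM
  set H : M2 := Zi x y * G with hH
  have hHdet : H.det = 1 := by rw [hH, Matrix.det_mul, det_Zi hy0, hG, one_mul]
  have hQ1 : 1 ≤ hs H := one_le_hs hHdet
  have hQM : hs H ≤ 6 * M₀ := by
    refine (hs_mul_le _ _).trans ?_
    have h1 := hs_Zi_le hx hy1 hy2
    have h2 := hs_nonneg (Zi x y)
    have h3 := hs_nonneg G
    nlinarith
  set g : ℕ → M2 := fun r => T U E r * Zm x y with hgdef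
  have hgdet : ∀ r, (g r).det = 1 := by
    intro r; rw [hgdef]; simp only; rw [Matrix.det_mul, det_T, det_Zm hy0, one_mul]
  have hex : ∃ r, hs H ≤ hs (g r) := by
    obtain ⟨r, hr⟩ := Kinv_attained U hp ξ E
    refine ⟨r, ?_⟩
    rw [hr] at hK
    have hge := Bloch_ge (ξ := ξ) hYpos (r : ℕ)
    have h1 : 12 * M₀ < Hf (hs (T U E r * Zm x y)) := by
      have h2 := Hf_pos hge
      rw [one_div] at hK
      exact (inv_lt_inv₀ h2 (by positivity)).mp hK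
    have h3 := Hf_le hge
    show hs H ≤ hs (T U E r * Zm x y)
    have h4 : Hf (hs (T U E r * Zm x y)) ≤ 2 * hs (T U E r * Zm x y) := h3
    linarith
  classical
  set r := Nat.find hex with hr
  have hr1 : hs H ≤ hs (g r) := Nat.find_spec hex
  have hr2 : hs (g r) ≤ 6 * hs H := by
    rcases Nat.eq_zero_or_pos r with h0 | h0
    · have : g r = Zm x y := by rw [h0, hgdef]; simp
      rw [this]
      have := hs_Zm_le hx hy1 hy2
      linarith
    · obtain ⟨j, hj⟩ : ∃ j, r = j + 1 := ⟨r - 1, by omega⟩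
      have hlt : ¬ hs H ≤ hs (g j) := Nat.find_min hex (by omega)
      push Not at hlt
      have hstep : g r = Am (E - U j) * g j := by
        rw [hj, hgdef]; simp only; rw [T_succ, Matrix.mul_assoc]
      rw [hstep]
      refine (hs_mul_le _ _).trans ?_
      have h1 : hs (Am (E - U j)) ≤ 3 := by
        apply hs_Am_le
        rw [abs_le]
        obtain ⟨u1, u2⟩ := hUb j
        constructor <;> linarith [hE.1, hE.2]
      have h2 := hs_nonneg (Am (E - U j))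
      have h3 := hs_nonneg (g j)
      nlinarith
  have hP1 : 1 ≤ hs (g r) := one_le_hs (hgdet r)
  obtain ⟨θ₀, hθ₀⟩ := hs_law (hgdet r) hHdet
  set e : ℝ := 1 / (hs (g r) * hs H) with he
  have he0 : 0 < e := by positivity
  obtain ⟨N₀, hN₀⟩ := dense_uniform hirr he0
  obtain ⟨q, -, hq⟩ := hN₀ (θ₀ + π)
  refine ⟨q * p + r, ?_⟩
  have hTm : T U E (q * p + r) * G = g r * Rot ((q : ℝ) * t) * H := by
    rw [T_periodic hU E q r, hT, ell_pow hy0, hgdef, hH]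
    unfold ell
    simp only [Matrix.mul_assoc]
  rw [hTm]
  have h13 : (13 : ℝ) = 2 * 6 + 1 := by norm_num
  rw [h13]
  refine hs_cancel (e := e) hP1 hQ1 hr2 (by linarith) (by norm_num) he0.le ?_ ?_
  · rw [he]; field_simp; exact le_refl _
  · rw [hθ₀]
    have h1 : cos (2 * ((q : ℝ) * t) - (θ₀ + π)) = - cos (2 * ((q : ℝ) * t) - θ₀) := by
      rw [show 2 * ((q : ℝ) * t) - (θ₀ + π) = (2 * ((q : ℝ) * t) - θ₀) - π by ring, Real.cos_sub_pi]
    rw [h1] at hq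
    have h2 : 0 ≤ √(hs (g r) ^ 2 - 1) * √(hs H ^ 2 - 1) := by positivity
    nlinarith [mul_le_mul_of_nonneg_left hq h2]

lemma continuous_hs_mul (U V : ℕ → ℝ) (t n : ℕ) :
    Continuous (fun E => hs (T U E t * T V E n)) := by
  unfold hs
  simp only [mul_ent]
  have h1 := continuous_T_ent U t
  have h2 := continuous_T_ent V n
  have a1 := h1 0 0
  have a2 := h1 0 1
  have a3 := h1 1 0
  have a4 := h1 1 1
  have b1 := h2 0 0
  have b2 := h2 0 1
  have b3 := h2 1 0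
  have b4 := h2 1 1
  fun_prop

lemma hs_T_bdd (V : ℕ → ℝ) (n : ℕ) : ∃ M₀ : ℝ, ∀ E ∈ Icc (-1 : ℝ) 1, hs (T V E n) ≤ M₀ := by
  have hc : Continuous (fun E => hs (T V E n)) := by
    have := continuous_hs_mul (fun _ => 0) V 0 n
    simpa using this
  obtain ⟨M₀, hM₀⟩ := (isCompact_Icc (a := (-1 : ℝ)) (b := 1)).exists_bound_of_continuousOn
    hc.continuousOn
  exact ⟨M₀, fun E hE => (le_abs_self _).trans (hM₀ E hE)⟩

/-- The return lemma. -/
lemma return_lemma (V : ℕ → ℝ) (n : ℕ) {δ : ℝ} (hδ : 0 < δ) :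
    ∃ U : ℕ → ℝ, (∀ k, -1 ≤ U k ∧ U k ≤ 0) ∧ ∃ K : ℕ,
      muI {E | ¬ ∃ t ≤ K, hs (T U E t * T V E n) ≤ 13} ≤ ENNReal.ofReal δ := by
  obtain ⟨M₀, hM₀⟩ := hs_T_bdd V n
  have hM₀1 : 1 ≤ M₀ := (one_le_hs (det_T V 0 n)).trans (hM₀ 0 (by constructor <;> norm_num))
  obtain ⟨U, p, ξ, hp, hU, hUb, hξ0, hξ1, hmeas⟩ := large_bloch (M := 12 * M₀) (δ := δ / 2)
    (by positivity) (by positivity)
  refine ⟨U, hUb, ?_⟩
  set B : ℕ → Set ℝ := fun K => {E | ¬ ∃ t ≤ K, hs (T U E t * T V E n) ≤ 13} with hB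
  have hBm : ∀ K, MeasurableSet (B K) := by
    intro K
    have : B K = (⋃ t ∈ Finset.range (K + 1), {E | hs (T U E t * T V E n) ≤ 13})ᶜ := by
      ext E
      simp only [hB, Set.mem_ofPred_eq, Set.mem_compl_iff, Set.mem_iUnion, Finset.mem_range,
        exists_prop, Nat.lt_succ_iff]
    rw [this]
    refine MeasurableSet.compl (Finset.measurableSet_biUnion _ (fun t _ => ?_))
    exact measurableSet_le (continuous_hs_mul U V t n).measurable measurable_const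
  have hanti : Antitone B := by
    intro K L hKL E hE hex
    apply hE
    obtain ⟨t, ht, h⟩ := hex
    exact ⟨t, ht.trans hKL, h⟩
  have hlim := tendsto_measure_iInter_atTop (μ := muI) (fun K => (hBm K).nullMeasurableSet) hanti
    ⟨0, measure_ne_top _ _⟩
  have hle : muI (⋂ K, B K) ≤ ENNReal.ofReal (δ / 2) := by
    have hbad0 : muI (badE U p) = 0 := (badE_countable U hp).measure_zero _
    have hout : muI (Icc (-1 : ℝ) 1)ᶜ = 0 := by
      unfold muI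
      rw [Measure.restrict_apply measurableSet_Icc.compl]
      simp
    have hsub : (⋂ K, B K) ⊆ {E | ¬ (good U p ξ E ∧ Kinv U p ξ E < 1 / (12 * M₀))} ∪ badE U p
        ∪ (Icc (-1 : ℝ) 1)ᶜ := by
      intro E hE
      by_contra hcon
      simp only [Set.mem_union, Set.mem_ofPred_eq, Set.mem_compl_iff, not_or, not_not] at hcon
      obtain ⟨⟨⟨hg, hK⟩, hb⟩, hEI⟩ := hcon
      obtain ⟨t, ht⟩ := return_pointwise hp hU hUb hξ0 hξ1 hEI hb hg (det_T V E n) (hM₀ E hEI) hK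
      have := Set.mem_iInter.mp hE t
      exact this ⟨t, le_refl t, ht⟩
    calc muI (⋂ K, B K) ≤ muI ({E | ¬ (good U p ξ E ∧ Kinv U p ξ E < 1 / (12 * M₀))} ∪ badE U p
        ∪ (Icc (-1 : ℝ) 1)ᶜ) := measure_mono hsub
      _ ≤ muI {E | ¬ (good U p ξ E ∧ Kinv U p ξ E < 1 / (12 * M₀))} + muI (badE U p)
        + muI (Icc (-1 : ℝ) 1)ᶜ := (measure_union_le _ _).trans (by gcongr; exact measure_union_le _ _)
      _ ≤ _ := by rw [hbad0, hout, add_zero, add_zero]; exact hmeas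
  have hlt : muI (⋂ K, B K) < ENNReal.ofReal δ := by
    refine lt_of_le_of_lt hle ?_
    exact (ENNReal.ofReal_lt_ofReal_iff hδ).mpr (by linarith)
  obtain ⟨K, hK⟩ := (hlim.eventually_lt_const hlt).exists
  exact ⟨K, hK.le⟩

end Pool.Agent.TMLim
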