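import Pool.Agent.TMLim.Trans
import Pool.Agent.TMLim.Equi
import Pool.Agent.TMLim.Cauchy

/-!
# The state functional and one level of the construction, pointwise in the energy
-/

set_option autoImplicit false

open Real Filter Topology MeasureTheory Set

namespace Pool.Agent.TMLim

/-- Inverse of the largest Bloch size. -/
noncomputable def Kinv (V : ℕ → ℝ) (p : ℕ) (ξ E : ℝ) : ℝ :=
  ⨅ r : Fin p, (Hf (hs (T V E r * Zm ((E + ξ) / 2) (√(Yq (T V E p))))))⁻¹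

/-- Good energies: elliptic with comparable imaginary part and prescribed real part. -/
def good (V : ℕ → ℝ) (p : ℕ) (ξ E : ℝ) : Prop :=
  |Yq (T V E p) / (1 - E ^ 2 / 4) - 1| < 1 / 2 ∧
    T V E p 0 0 - T V E p 1 1 = T V E p 1 0 * (E + ξ)

open Classical in
/-- The functional. -/
noncomputable def Phi (V : ℕ → ℝ) (p : ℕ) (ξ a E : ℝ) : ℝ :=
  if good V p ξ E then min 1 (4 * (Yq (T V E p) / (1 - E ^ 2 / 4) - 1) ^ 2 + a * Kinv V p ξ E)
  else 1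

lemma Y0_bounds {E : ℝ} (hE : E ∈ Icc (-1 : ℝ) 1) : 3 / 4 ≤ 1 - E ^ 2 / 4 ∧ 1 - E ^ 2 / 4 ≤ 1 := by
  obtain ⟨h1, h2⟩ := hE
  constructor <;> nlinarith

lemma good_Y {V : ℕ → ℝ} {p : ℕ} {ξ E : ℝ} (hE : E ∈ Icc (-1 : ℝ) 1) (hg : good V p ξ E) :
    3 / 8 < Yq (T V E p) ∧ Yq (T V E p) < 3 / 2 := by
  obtain ⟨h1, h2⟩ := Y0_bounds hE
  have h3 := abs_lt.mp hg.1
  have h0 : 0 < 1 - E ^ 2 / 4 := by linarith
  set Y := Yq (T V E p) with hY
  have h4 : 1 / 2 < Y / (1 - E ^ 2 / 4) := by linarith [h3.1]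
  have h5 : Y / (1 - E ^ 2 / 4) < 3 / 2 := by linarith [h3.2]
  rw [lt_div_iff₀ h0] at h4
  rw [div_lt_iff₀ h0] at h5
  constructor <;> nlinarith

lemma Bloch_ge {V : ℕ → ℝ} {p : ℕ} {ξ E : ℝ} (hY : 0 < Yq (T V E p)) (r : ℕ) :
    1 ≤ hs (T V E r * Zm ((E + ξ) / 2) (√(Yq (T V E p)))) := by
  apply one_le_hs
  rw [Matrix.det_mul, det_T, det_Zm (Real.sqrt_pos.mpr hY), one_mul]

lemma Kinv_nonneg (V : ℕ → ℝ) {p : ℕ} (ξ : ℝ) {E : ℝ}
    (hY : 0 < Yq (T V E p)) : 0 ≤ Kinv V p ξ E := by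
  unfold Kinv
  apply Real.iInf_nonneg
  intro r
  exact (inv_pos.mpr (Hf_pos (Bloch_ge hY r))).le

lemma Kinv_le (V : ℕ → ℝ) {p : ℕ} (ξ : ℝ) {E : ℝ} (r : Fin p) :
    Kinv V p ξ E ≤ (Hf (hs (T V E r * Zm ((E + ξ) / 2) (√(Yq (T V E p))))))⁻¹ := by
  unfold Kinv
  exact ciInf_le (Set.finite_range _).bddBelow r

lemma Kinv_attained (V : ℕ → ℝ) {p : ℕ} (hp : 1 ≤ p) (ξ : ℝ) (E : ℝ) :
    ∃ r : Fin p, Kinv V p ξ E = (Hf (hs (T V E r * Zm ((E + ξ) / 2) (√(Yq (T V E p))))))⁻¹ := by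
  haveI : Nonempty (Fin p) := ⟨⟨0, hp⟩⟩
  obtain ⟨r, hr⟩ := exists_eq_ciInf_of_finite
    (f := fun r : Fin p => (Hf (hs (T V E r * Zm ((E + ξ) / 2) (√(Yq (T V E p))))))⁻¹)
  exact ⟨r, hr.symm⟩

lemma Kinv_le_one (V : ℕ → ℝ) {p : ℕ} (hp : 1 ≤ p) (ξ : ℝ) {E : ℝ}
    (hY : 0 < Yq (T V E p)) : Kinv V p ξ E ≤ 1 := by
  obtain ⟨r, hr⟩ := Kinv_attained V hp ξ E
  rw [hr]
  exact inv_le_one_of_one_le₀ (one_le_Hf (Bloch_ge hY r))

lemma Phi_nonneg (V : ℕ → ℝ) {p : ℕ} (ξ : ℝ) {a E : ℝ} (ha : 0 ≤ a) (hE : E ∈ Icc (-1 : ℝ) 1) :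
    0 ≤ Phi V p ξ a E := by
  unfold Phi
  split_ifs with h
  · apply le_min (by norm_num)
    have h2 := good_Y hE h
    have := Kinv_nonneg V ξ (E := E) (p := p) (by linarith [h2.1])
    positivity
  · norm_num

lemma Phi_le_one (V : ℕ → ℝ) (p : ℕ) (ξ a E : ℝ) : Phi V p ξ a E ≤ 1 := by
  unfold Phi
  split_ifs with h
  · exact min_le_left _ _
  · exact le_refl _

/-- Structure of a good energy. -/
lemma good_ell {V : ℕ → ℝ} {p : ℕ} {ξ E : ℝ} (hE : E ∈ Icc (-1 : ℝ) 1) (hg : good V p ξ E) :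
    ∃ t : ℝ, T V E p = ell ((E + ξ) / 2) (√(Yq (T V E p))) t ∧
      cos t = (T V E p 0 0 + T V E p 1 1) / 2 := by
  have h2 := good_Y hE hg
  obtain ⟨t, h3, -, h4⟩ := ell_exists (det_T V E p) (x := (E + ξ) / 2) (by linarith [h2.1])
    (by rw [hg.2]; ring)
  exact ⟨t, h3, h4⟩

/-- New state after one level: the new transfer matrix. -/
lemma T_level {V : ℕ → ℝ} {p : ℕ} (hp : 1 ≤ p) (hV : ∀ k, V (p + k) = V k) {E η x y t : ℝ}
    (hy : 0 < y) (hT : T V E p = ell x y t) (N : ℕ) :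
    T (lift V ((N + 1) * p) η) E ((N + 1) * p) = bump η * ell x y (((N : ℝ) + 1) * t) := by
  rw [T_lift_full (by positivity)]
  have h := T_periodic hV E (N + 1) 0
  rw [add_zero, T_zero, one_mul] at h
  rw [h, hT, ell_pow hy]
  push_cast
  rfl

/-- Bound for the new inverse Bloch size. -/
lemma Kinv_level {V : ℕ → ℝ} {p : ℕ} (hp : 1 ≤ p) (hV : ∀ k, V (p + k) = V k) {E η ξ t ε : ℝ}
    (hE : E ∈ Icc (-1 : ℝ) 1) (hg : good V p ξ E) (hη : 0 < η)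
    (hT : T V E p = ell ((E + ξ) / 2) (√(Yq (T V E p))) t) (hε : 0 < ε) (hε1 : ε < 1)
    {N N₀ : ℕ} (hN : N₀ ≤ N + 1)
    (hdense : ∀ θ : ℝ, ∃ q < N₀, 1 - ε ≤ cos (2 * (((q : ℕ) : ℝ) * t) - θ))
    (hsin : sin (((N : ℝ) + 1) * t) ≠ 0)
    (hY' : 0 < Yq (T (lift V ((N + 1) * p) η) E ((N + 1) * p))) :
    Kinv (lift V ((N + 1) * p) η) ((N + 1) * p) (ξ + η) E ≤
      (1 - ε)⁻¹ * (Kinv V p ξ E * (1 - gf (η / √(Yq (T V E p)))
        (cos (((N : ℝ) + 1) * t) / sin (((N : ℝ) + 1) * t)))) := by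
  have hYb := good_Y hE hg
  set Y := Yq (T V E p) with hYdef
  have hYpos : 0 < Y := by linarith [hYb.1]
  set y := √Y with hy
  have hy0 : 0 < y := Real.sqrt_pos.mpr hYpos
  have hy2 : y ^ 2 = Y := Real.sq_sqrt hYpos.le
  set c := cos (((N : ℝ) + 1) * t) / sin (((N : ℝ) + 1) * t) with hc
  set x := (E + ξ) / 2 with hx
  set V' := lift V ((N + 1) * p) η with hV'
  set Y' := Yq (T V' E ((N + 1) * p)) with hY'def
  have hYeq : Y' = y ^ 2 - η * y * c - η ^ 2 / 4 := by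
    rw [hY'def, T_level hp hV hy0 hT N, bump_Yq hy0 hsin]
  set y' := √Y' with hy'
  have hy'0 : 0 < y' := Real.sqrt_pos.mpr hY'
  have hy'2 : y' ^ 2 = Y' := Real.sq_sqrt hY'.le
  set h := η / y with hh
  have hh0 : 0 < h := by positivity
  set r := y' / y with hr
  have hr0 : 0 < r := by positivity
  have hr2 : r ^ 2 = 1 - h * c - h ^ 2 / 4 := by
    rw [hr, div_pow, hy'2, hYeq, hh]
    field_simp
  have hrg : r⁻¹⁻¹ ≤ 1 - gf h c ∨ gf h c = 0 := by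
    rcases le_or_gt 0 c with hc0 | hc0
    · left
      rw [inv_inv]
      have h1 : gf h c ≤ h / 2 * c := by
        unfold gf
        have : max 0 (min c (1 / h - c)) ≤ c := max_le hc0 (min_le_left _ _)
        gcongr
      have h2 : r ≤ 1 - h / 2 * c := by
        have h3 : 0 ≤ 1 - h / 2 * c := by nlinarith [sq_nonneg r, sq_nonneg h]
        have h4 : r ^ 2 ≤ (1 - h / 2 * c) ^ 2 := by
          rw [hr2]; nlinarith [sq_nonneg (h * c), sq_nonneg h]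
        exact (pow_le_pow_iff_left₀ hr0.le h3 (by norm_num)).mp h4
      linarith
    · right
      unfold gf
      rw [max_eq_left ((min_le_left _ _).trans hc0.le), mul_zero]
  -- the displacement
  set x' := (E + (ξ + η)) / 2 with hx'
  set Hm : M2 := Zi x y * Zm x' y' with hHm
  have hdetH : Hm.det = 1 := by
    rw [hHm, Matrix.det_mul, det_Zi hy0, det_Zm hy'0, one_mul]
  have hD1 : 1 ≤ hs Hm := one_le_hs hdetH
  have hDinv : (Hf (hs Hm))⁻¹ ≤ 1 - gf h c := by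
    have h1 := (Hf_displacement (x := x) (x' := x') (y' := y') hy0 hr0
      (by rw [hr]; field_simp)).2
    have h1' : r⁻¹ ≤ Hf (hs Hm) := h1
    rcases hrg with h2 | h2
    · refine le_trans ?_ h2
      exact inv_anti₀ (inv_pos.mpr hr0) h1'
    · rw [h2, sub_zero]
      exact inv_le_one_of_one_le₀ (one_le_Hf hD1)
  -- the optimal site
  obtain ⟨r₀, hr₀⟩ := Kinv_attained V hp ξ E
  set g : M2 := T V E r₀ * Zm x y with hgdef
  have hdetg : g.det = 1 := by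
    rw [hgdef, Matrix.det_mul, det_T, det_Zm hy0, one_mul]
  have hC1 : 1 ≤ hs g := one_le_hs hdetg
  obtain ⟨θ₀, hθ₀⟩ := hs_law hdetg hdetH
  obtain ⟨q, hqN, hq⟩ := hdense θ₀
  have hidx : q * p + r₀ < (N + 1) * p := by
    have h1 : q + 1 ≤ N + 1 := by omega
    have h2 : (q + 1) * p ≤ (N + 1) * p := Nat.mul_le_mul_right p h1
    have h3 := r₀.2
    calc q * p + r₀ < q * p + p := by omega
      _ = (q + 1) * p := by ring
      _ ≤ _ := h2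
  have hTidx : T V' E (q * p + r₀) * Zm x' y' = g * Rot ((q : ℝ) * t) * Hm := by
    rw [hV', T_lift_lt η E hidx, T_periodic hV E q r₀, hT, ell_pow hy0]
    rw [hgdef, hHm]
    unfold ell
    simp only [Matrix.mul_assoc]
  have hbig : hs g * hs Hm + √(hs g ^ 2 - 1) * √(hs Hm ^ 2 - 1) * (1 - ε)
      ≤ hs (T V' E (q * p + r₀) * Zm x' y') := by
    rw [hTidx, hθ₀]
    have : 0 ≤ √(hs g ^ 2 - 1) * √(hs Hm ^ 2 - 1) := by positivity
    nlinarith [mul_le_mul_of_nonneg_left hq this]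
  have hHf := Hf_mul_le hC1 hD1 hε.le hε1.le hbig
  have hK1 := Kinv_le V' (ξ + η) (E := E) (⟨q * p + r₀, hidx⟩ : Fin ((N + 1) * p))
  refine hK1.trans ?_
  have hHg := Hf_pos hC1
  have hHH := Hf_pos hD1
  have h1ε : 0 < 1 - ε := by linarith
  have hstep : (Hf (hs (T V' E (q * p + r₀) * Zm x' y')))⁻¹
      ≤ ((1 - ε) * (Hf (hs g) * Hf (hs Hm)))⁻¹ := inv_anti₀ (by positivity) hHf
  refine hstep.trans ?_
  rw [mul_inv, mul_inv, hr₀]
  have : 0 ≤ (Hf (hs g))⁻¹ := (inv_pos.mpr hHg).le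
  gcongr

end Pool.Agent.TMLim
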