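import Pool.Agent.TMLim.State

/-!
# One level of the construction: averaged inequality
-/

set_option autoImplicit false

open Real Filter Topology MeasureTheory Set

namespace Pool.Agent.TMLim

/-- The average gain. -/
noncomputable def kap (η : ℝ) : ℝ := η / (8 * π) * log (1 / (4 * η))

lemma Phi_level {V : ℕ → ℝ} {p : ℕ} (hp : 1 ≤ p) (hV : ∀ k, V (p + k) = V k)
    {E η ξ t ε a' : ℝ}
    (hE : E ∈ Icc (-1 : ℝ) 1) (hg : good V p ξ E) (hη : 0 < η) (ha' : 0 ≤ a')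
    (hT : T V E p = ell ((E + ξ) / 2) (√(Yq (T V E p))) t) (hε : 0 < ε) (hε1 : ε < 1)
    {N N₀ : ℕ} (hN : N₀ ≤ N + 1)
    (hdense : ∀ θ : ℝ, ∃ q < N₀, 1 - ε ≤ cos (2 * (((q : ℕ) : ℝ) * t) - θ))
    (hsin : sin (((N : ℝ) + 1) * t) ≠ 0) :
    Phi (lift V ((N + 1) * p) η) ((N + 1) * p) (ξ + η) a' E ≤
      (1 - uf (Yq (T V E p) / (1 - E ^ 2 / 4) - 1 - η ^ 2 / (4 * (1 - E ^ 2 / 4)))
        (η * √(Yq (T V E p)) / (1 - E ^ 2 / 4))
        (cos (((N : ℝ) + 1) * t) / sin (((N : ℝ) + 1) * t)))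
      + a' * ((1 - ε)⁻¹ * (Kinv V p ξ E * (1 - gf (η / √(Yq (T V E p)))
        (cos (((N : ℝ) + 1) * t) / sin (((N : ℝ) + 1) * t))))) := by
  have hYb := good_Y hE hg
  have hY0 := Y0_bounds hE
  have hY0p : 0 < 1 - E ^ 2 / 4 := by linarith [hY0.1]
  set Y₀ := 1 - E ^ 2 / 4 with hY₀
  set Y := Yq (T V E p) with hYdef
  have hYpos : 0 < Y := by linarith [hYb.1]
  set y := √Y with hy
  have hy0 : 0 < y := Real.sqrt_pos.mpr hYpos
  have hy2 : y ^ 2 = Y := Real.sq_sqrt hYpos.le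
  set c := cos (((N : ℝ) + 1) * t) / sin (((N : ℝ) + 1) * t) with hc
  set V' := lift V ((N + 1) * p) η with hV'
  set Y' := Yq (T V' E ((N + 1) * p)) with hY'def
  have hYeq : Y' = y ^ 2 - η * y * c - η ^ 2 / 4 := by
    rw [hY'def, T_level hp hV hy0 hT N, bump_Yq hy0 hsin]
  have hrel : Y' / Y₀ - 1 = (Y / Y₀ - 1 - η ^ 2 / (4 * Y₀)) - (η * y / Y₀) * c := by
    rw [hYeq, hy2]; field_simp; ring
  have hKnn : 0 ≤ Kinv V p ξ E := Kinv_nonneg V ξ (by rw [← hYdef]; exact hYpos)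
  have hgf : gf (η / y) c ≤ 1 / 4 := gf_le (by positivity) c
  have h1ε : 0 < (1 - ε)⁻¹ := inv_pos.mpr (by linarith)
  unfold Phi
  split_ifs with hg'
  · have hY'pos : 0 < Y' := by linarith [(good_Y hE hg').1]
    refine (min_le_right _ _).trans ?_
    have h1 : 4 * (Y' / Y₀ - 1) ^ 2
        ≤ 1 - uf (Y / Y₀ - 1 - η ^ 2 / (4 * Y₀)) (η * y / Y₀) c := by
      unfold uf
      rw [hrel]
      have h2 := abs_lt.mp hg'.1
      have h3 : Y' / Y₀ - 1 = Yq (T V' E ((N + 1) * p)) / (1 - E ^ 2 / 4) - 1 := rfl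
      rw [← h3, hrel] at h2
      have h4 : 0 ≤ 1 - 4 * ((Y / Y₀ - 1 - η ^ 2 / (4 * Y₀)) - (η * y / Y₀) * c) ^ 2 := by
        nlinarith [h2.1, h2.2]
      rw [max_eq_right h4]
      linarith
    have h2 := Kinv_level hp hV hE hg hη hT hε hε1 hN hdense hsin hY'pos
    have h3 : a' * Kinv V' ((N + 1) * p) (ξ + η) E ≤ a' * ((1 - ε)⁻¹ * (Kinv V p ξ E *
        (1 - gf (η / y) c))) := by
      exact mul_le_mul_of_nonneg_left h2 ha'
    exact add_le_add h1 h3
  · have hx : T V' E ((N + 1) * p) 0 0 - T V' E ((N + 1) * p) 1 1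
        = T V' E ((N + 1) * p) 1 0 * (E + (ξ + η)) := by
      rw [T_level hp hV hy0 hT N, bump_x hy0]; ring
    have h1 : ¬ |Y' / Y₀ - 1| < 1 / 2 := fun h => hg' ⟨h, hx⟩
    push Not at h1
    have h2 : uf (Y / Y₀ - 1 - η ^ 2 / (4 * Y₀)) (η * y / Y₀) c = 0 := by
      unfold uf
      rw [hrel] at h1
      apply max_eq_left
      have h3 : 1 / 4 ≤ ((Y / Y₀ - 1 - η ^ 2 / (4 * Y₀)) - (η * y / Y₀) * c) ^ 2 := by
        rw [← sq_abs]; nlinarith
      linarith
    rw [h2]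
    have h3 : 0 ≤ a' * ((1 - ε)⁻¹ * (Kinv V p ξ E * (1 - gf (η / y) c))) := by
      have : 0 ≤ 1 - gf (η / y) c := by linarith
      positivity
    linarith

/-- Pointwise asymptotic bound on the Cesaro averages of the functional. -/
lemma avg_bound {V : ℕ → ℝ} {p : ℕ} (hp : 1 ≤ p) (hV : ∀ k, V (p + k) = V k)
    {E η ξ ε a a' : ℝ} (hE : E ∈ Icc (-1 : ℝ) 1) (hbad : E ∉ badE V p)
    (hη : 0 < η) (hη1 : η ≤ 1 / 8) (ha' : 0 ≤ a')
    (hε : 0 < ε) (hε1 : ε < 1) (haa : a' * (1 - kap η) ≤ a * (1 - ε))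
    {τ : ℝ} (hτ : 0 < τ) :
    ∀ᶠ K : ℕ in atTop, (∑ N ∈ Finset.range K,
      Phi (lift V ((N + 1) * p) η) ((N + 1) * p) (ξ + η) a' E) / (K : ℝ)
      ≤ Phi V p ξ a E + 12 * η + τ := by
  have hle1 : ∀ K : ℕ, (∑ N ∈ Finset.range K,
      Phi (lift V ((N + 1) * p) η) ((N + 1) * p) (ξ + η) a' E) / (K : ℝ) ≤ 1 := by
    intro K
    rcases Nat.eq_zero_or_pos K with h | h
    · subst h; simp
    · rw [div_le_one (by exact_mod_cast h)]
      calc ∑ N ∈ Finset.range K, Phi (lift V ((N + 1) * p) η) ((N + 1) * p) (ξ + η) a' E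
          ≤ ∑ N ∈ Finset.range K, (1 : ℝ) := Finset.sum_le_sum (fun N _ => Phi_le_one _ _ _ _ _)
        _ = K := by simp
  by_cases hg : good V p ξ E
  swap
  · filter_upwards with K
    have : Phi V p ξ a E = 1 := by unfold Phi; rw [if_neg hg]
    rw [this]
    have := hle1 K
    linarith
  have hYb := good_Y hE hg
  have hY0 := Y0_bounds hE
  have hY0p : 0 < 1 - E ^ 2 / 4 := by linarith [hY0.1]
  obtain ⟨t, hT, hcos⟩ := good_ell hE hg
  have hirr : Irrational (t / π) := irrational_of_notMem hbad hcos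
  obtain ⟨N₀, hN₀⟩ := dense_uniform hirr hε
  set Y₀ := 1 - E ^ 2 / 4 with hY₀
  set Y := Yq (T V E p) with hYdef
  have hYpos : 0 < Y := by linarith [hYb.1]
  set y := √Y with hy
  have hy0 : 0 < y := Real.sqrt_pos.mpr hYpos
  have hy2 : y ^ 2 = Y := Real.sq_sqrt hYpos.le
  have hyl : 1 / 2 ≤ y := by nlinarith [hYb.1]
  have hyu : y ≤ 5 / 4 := by nlinarith [hYb.2]
  set s := η * y / Y₀ with hs
  have hs0 : 0 < s := by positivity
  have hs1 : s ≤ 2 * η := by
    rw [hs, div_le_iff₀ hY0p]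
    nlinarith [hY0.1]
  set D := Y / Y₀ - 1 with hD
  have hDabs : |D| < 1 / 2 := hg.1
  have hDb := abs_lt.mp hDabs
  set e := η ^ 2 / (4 * Y₀) with he
  have he0 : 0 ≤ e := by positivity
  have he1 : e ≤ η / 24 := by
    rw [he, div_le_iff₀ (by positivity)]
    nlinarith [hY0.1]
  set h := η / y with hh
  have hh0 : 0 < h := by positivity
  have hhl : η / 2 ≤ h := by
    rw [hh, le_div_iff₀ hy0]; nlinarith
  have hhu : h ≤ 2 * η := by
    rw [hh, div_le_iff₀ hy0]; nlinarith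
  have hKnn : 0 ≤ Kinv V p ξ E := Kinv_nonneg V ξ (by rw [← hYdef]; exact hYpos)
  have h1ε : 0 < (1 - ε)⁻¹ := inv_pos.mpr (by linarith)
  have haabs : |D - e| ≤ 1 := by
    rw [abs_le]; constructor <;> nlinarith [hDb.1, hDb.2]
  set A : ℝ := a' * ((1 - ε)⁻¹ * Kinv V p ξ E) with hA
  have hA0 : 0 ≤ A := by positivity
  -- limits
  have hu := weyl_cot hirr (uf_continuous (D - e) s) (fun c hc => uf_zero hs0 haabs hc)
  have hgl := weyl_cot hirr (gf_continuous h) (fun c hc => gf_zero hh0 hc)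
  have hIu := int_u hs0 haabs
  have hIg := int_g hh0 (by linarith : h ≤ 1 / 2)
  set Iu := (1 / π) * ∫ c, uf (D - e) s c / (1 + c ^ 2) with hIudef
  set Ig := (1 / π) * ∫ c, gf h c / (1 + c ^ 2) with hIgdef
  have hkap : kap η ≤ Ig := by
    refine le_trans ?_ hIg
    unfold kap
    have hpi := Real.pi_pos
    have h1 : η / (8 * π) ≤ h / (4 * π) := by
      rw [div_le_div_iff₀ (by positivity) (by positivity)]
      nlinarith
    have h2 : log (1 / (4 * η)) ≤ log (1 / (2 * h)) := by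
      apply Real.log_le_log (by positivity)
      apply one_div_le_one_div_of_le (by positivity)
      linarith
    have h3 : 0 ≤ log (1 / (4 * η)) := by
      apply Real.log_nonneg
      rw [le_div_iff₀ (by positivity)]
      linarith
    exact mul_le_mul h1 h2 h3 (by positivity)
  have hlim : Tendsto (fun K : ℕ => (N₀ : ℝ) / K + ((1 - (∑ N ∈ Finset.range K,
      uf (D - e) s (cos (((N : ℝ) + 1) * t) / sin (((N : ℝ) + 1) * t))) / (K : ℝ))
      + A * (1 - (∑ N ∈ Finset.range K,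
      gf h (cos (((N : ℝ) + 1) * t) / sin (((N : ℝ) + 1) * t))) / (K : ℝ)))) atTop
      (𝓝 (0 + ((1 - Iu) + A * (1 - Ig)))) := by
    refine Tendsto.add (tendsto_const_div_atTop_nhds_zero_nat _) ?_
    exact (tendsto_const_nhds.sub hu).add ((tendsto_const_nhds.sub hgl).const_mul A)
  have hval : 0 + ((1 - Iu) + A * (1 - Ig)) ≤ 4 * D ^ 2 + 12 * η + a * Kinv V p ξ E := by
    have h1 : 1 - Iu ≤ 4 * (D - e) ^ 2 + 4 * s := by linarith
    have h2 : 4 * (D - e) ^ 2 ≤ 4 * D ^ 2 + 4 * e + 4 * e ^ 2 := by nlinarith [hDb.1, hDb.2]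
    have h3 : e ^ 2 ≤ e := by nlinarith
    have h4 : A * (1 - Ig) ≤ a * Kinv V p ξ E := by
      have h5 : A * (1 - Ig) ≤ A * (1 - kap η) := mul_le_mul_of_nonneg_left (by linarith) hA0
      refine h5.trans ?_
      rw [hA]
      have h6 : a' * ((1 - ε)⁻¹ * Kinv V p ξ E) * (1 - kap η)
          = (a' * (1 - kap η)) * ((1 - ε)⁻¹ * Kinv V p ξ E) := by ring
      rw [h6]
      have h7 : (a' * (1 - kap η)) * ((1 - ε)⁻¹ * Kinv V p ξ E)
          ≤ (a * (1 - ε)) * ((1 - ε)⁻¹ * Kinv V p ξ E) :=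
        mul_le_mul_of_nonneg_right haa (by positivity)
      refine h7.trans (le_of_eq ?_)
      have : (1 - ε) ≠ 0 := by linarith
      field_simp
    nlinarith
  have hev : ∀ᶠ K : ℕ in atTop, (N₀ : ℝ) / K + ((1 - (∑ N ∈ Finset.range K,
      uf (D - e) s (cos (((N : ℝ) + 1) * t) / sin (((N : ℝ) + 1) * t))) / (K : ℝ))
      + A * (1 - (∑ N ∈ Finset.range K,
      gf h (cos (((N : ℝ) + 1) * t) / sin (((N : ℝ) + 1) * t))) / (K : ℝ)))
      < 4 * D ^ 2 + 12 * η + a * Kinv V p ξ E + τ := by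
    apply hlim.eventually_lt_const
    linarith
  filter_upwards [hev, eventually_ge_atTop 1] with K hK hK1
  have hKpos : (0 : ℝ) < K := by exact_mod_cast hK1
  have hPhi : Phi V p ξ a E = min 1 (4 * D ^ 2 + a * Kinv V p ξ E) := by
    unfold Phi; rw [if_pos hg]
  have hbound : (∑ N ∈ Finset.range K,
      Phi (lift V ((N + 1) * p) η) ((N + 1) * p) (ξ + η) a' E) / (K : ℝ)
      ≤ (N₀ : ℝ) / K + ((1 - (∑ N ∈ Finset.range K,
      uf (D - e) s (cos (((N : ℝ) + 1) * t) / sin (((N : ℝ) + 1) * t))) / (K : ℝ))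
      + A * (1 - (∑ N ∈ Finset.range K,
      gf h (cos (((N : ℝ) + 1) * t) / sin (((N : ℝ) + 1) * t))) / (K : ℝ))) := by
    have hterm : ∀ N ∈ Finset.range K,
        Phi (lift V ((N + 1) * p) η) ((N + 1) * p) (ξ + η) a' E
        ≤ (if N < N₀ then (1:ℝ) else 0)
          + ((1 - uf (D - e) s (cos (((N : ℝ) + 1) * t) / sin (((N : ℝ) + 1) * t)))
          + A * (1 - gf h (cos (((N : ℝ) + 1) * t) / sin (((N : ℝ) + 1) * t)))) := by
      intro N _
      set c := cos (((N : ℝ) + 1) * t) / sin (((N : ℝ) + 1) * t) with hc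
      have hu1 := uf_le_one (D - e) s c
      have hg1 := gf_le hh0 c
      split_ifs with hN
      · have h1 := Phi_le_one (lift V ((N + 1) * p) η) ((N + 1) * p) (ξ + η) a' E
        have h2 : 0 ≤ A * (1 - gf h c) := mul_nonneg hA0 (by linarith)
        linarith
      · have h1 := Phi_level hp hV hE hg hη ha' hT hε hε1 (N := N) (N₀ := N₀) (by omega) hN₀
          (sin_mul_ne_zero hirr N)
        rw [zero_add]
        refine h1.trans (le_of_eq ?_)
        rw [hA]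
        ring
    have hsum := Finset.sum_le_sum hterm
    rw [Finset.sum_add_distrib, Finset.sum_add_distrib, Finset.sum_sub_distrib, ← Finset.mul_sum,
      Finset.sum_sub_distrib] at hsum
    have hcard : ∑ N ∈ Finset.range K, (if N < N₀ then (1:ℝ) else 0) ≤ N₀ := by
      rw [← Finset.sum_filter, Finset.sum_const, nsmul_eq_mul, mul_one]
      have : (Finset.filter (fun N => N < N₀) (Finset.range K)).card ≤ (Finset.range N₀).card := by
        apply Finset.card_le_card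
        intro N hN
        rw [Finset.mem_filter] at hN
        exact Finset.mem_range.mpr hN.2
      rw [Finset.card_range] at this
      exact_mod_cast this
    have hone : ∑ N ∈ Finset.range K, (1:ℝ) = K := by simp
    rw [hone] at hsum
    rw [div_le_iff₀ hKpos]
    refine hsum.trans ?_
    have e1 : ∀ Su Sg : ℝ, ((N₀ : ℝ) / K + ((1 - Su / (K : ℝ)) + A * (1 - Sg / (K : ℝ)))) * K
        = N₀ + ((K - Su) + A * (K - Sg)) := by
      intro Su Sg
      field_simp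
    rw [e1]
    linarith
  rw [hPhi]
  rcases min_cases (1 : ℝ) (4 * D ^ 2 + a * Kinv V p ξ E) with ⟨h1, _⟩ | ⟨h1, _⟩
  · rw [h1]
    have := hle1 K
    linarith
  · rw [h1]
    linarith

end Pool.Agent.TMLim
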