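import Pool.Agent.TMLim.Ellip

/-!
# Transfer matrices of discrete Schroedinger operators on the half line
-/

set_option autoImplicit false

open Real Filter Topology MeasureTheory Set

namespace Pool.Agent.TMLim

/-- One step transfer matrix. -/
noncomputable def Am (e : ℝ) : M2 := !![e, -1; 1, 0]
@[simp] lemma Am_00 (e : ℝ) : Am e 0 0 = e := rfl
@[simp] lemma Am_01 (e : ℝ) : Am e 0 1 = -1 := rfl
@[simp] lemma Am_10 (e : ℝ) : Am e 1 0 = 1 := rfl
@[simp] lemma Am_11 (e : ℝ) : Am e 1 1 = 0 := rfl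

lemma det_Am (e : ℝ) : (Am e).det = 1 := by rw [det_ent]; simp

/-- Transfer matrix over the sites `0, ..., n-1` (the site `n` carries the potential `V n`). -/
noncomputable def T (V : ℕ → ℝ) (E : ℝ) : ℕ → M2
  | 0 => 1
  | n + 1 => Am (E - V n) * T V E n

@[simp] lemma T_zero (V : ℕ → ℝ) (E : ℝ) : T V E 0 = 1 := rfl
lemma T_succ (V : ℕ → ℝ) (E : ℝ) (n : ℕ) : T V E (n + 1) = Am (E - V n) * T V E n := rfl

lemma det_T (V : ℕ → ℝ) (E : ℝ) (n : ℕ) : (T V E n).det = 1 := by
  induction n with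
  | zero => simp
  | succ n ih => rw [T_succ, Matrix.det_mul, det_Am, ih, one_mul]

lemma T_congr {V V' : ℕ → ℝ} (E : ℝ) {n : ℕ} (h : ∀ k < n, V k = V' k) : T V E n = T V' E n := by
  induction n with
  | zero => rfl
  | succ n ih =>
    rw [T_succ, T_succ, h n (Nat.lt_succ_self n), ih (fun k hk => h k (Nat.lt_succ_of_lt hk))]

lemma T_add (V : ℕ → ℝ) (E : ℝ) (m n : ℕ) :
    T V E (m + n) = T (fun k => V (m + k)) E n * T V E m := by
  induction n with
  | zero => simp
  | succ n ih => rw [← Nat.add_assoc, T_succ, ih, T_succ, Matrix.mul_assoc]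

lemma T_periodic {V : ℕ → ℝ} {p : ℕ} (hV : ∀ k, V (p + k) = V k) (E : ℝ) (q r : ℕ) :
    T V E (q * p + r) = T V E r * T V E p ^ q := by
  induction q with
  | zero => simp
  | succ q ih =>
    have h1 : (q + 1) * p + r = p + (q * p + r) := by ring
    rw [h1, T_add]
    have h2 : (fun k => V (p + k)) = V := funext hV
    rw [h2, ih, pow_succ, Matrix.mul_assoc]

/-- The potential lowered by `η` at the last site of every block of length `P`. -/
noncomputable def lift (V : ℕ → ℝ) (P : ℕ) (η : ℝ) : ℕ → ℝ :=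
  fun n => if P ∣ n + 1 then V n - η else V n

lemma lift_periodic {V : ℕ → ℝ} {p N : ℕ} (hV : ∀ k, V (p + k) = V k) (η : ℝ) :
    ∀ k, lift V (N * p) η (N * p + k) = lift V (N * p) η k := by
  have hVN : ∀ N k, V (N * p + k) = V k := by
    intro N
    induction N with
    | zero => intro k; simp
    | succ N ih =>
      intro k
      rw [show (N + 1) * p + k = p + (N * p + k) by ring, hV, ih]
  intro k
  unfold lift
  rw [hVN N k]
  have : (N * p ∣ N * p + k + 1) ↔ (N * p ∣ k + 1) := by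
    rw [Nat.add_assoc]
    exact (Nat.dvd_add_right (dvd_refl _))
  simp only [this]

lemma T_lift_lt {V : ℕ → ℝ} {P : ℕ} (η E : ℝ) {r : ℕ} (hr : r < P) :
    T (lift V P η) E r = T V E r := by
  apply T_congr
  intro k hk
  unfold lift
  rw [if_neg]
  intro h
  have := Nat.le_of_dvd (Nat.succ_pos k) h
  omega

lemma bump_Am (η e : ℝ) : bump η * Am e = Am (e + η) := by
  apply m2_ext <;> simp [mul_ent]

lemma T_lift_full {V : ℕ → ℝ} {P : ℕ} (hP : 0 < P) (η E : ℝ) :
    T (lift V P η) E P = bump η * T V E P := by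
  obtain ⟨n, rfl⟩ : ∃ n, P = n + 1 := ⟨P - 1, by omega⟩
  rw [T_succ, T_succ, T_lift_lt η E (Nat.lt_succ_self n), ← Matrix.mul_assoc, bump_Am]
  congr 2
  unfold lift
  rw [if_pos (dvd_refl _)]
  ring

lemma continuous_T (V : ℕ → ℝ) (n : ℕ) : Continuous (fun E => T V E n) := by
  induction n with
  | zero => exact continuous_const
  | succ n ih =>
    simp only [T_succ]
    refine Continuous.matrix_mul ?_ ih
    unfold Am
    refine continuous_matrix (fun i j => ?_)
    fin_cases i <;> fin_cases j <;> simp <;> fun_prop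

lemma continuous_T_ent (V : ℕ → ℝ) (n : ℕ) (i j : Fin 2) : Continuous (fun E => T V E n i j) :=
  (continuous_T V n).matrix_elem i j

open Polynomial in
/-- The entries of the transfer matrix are polynomials in the energy. -/
lemma T_poly (V : ℕ → ℝ) (n : ℕ) : ∃ P Q R S : ℝ[X], P.Monic ∧ P.degree = (n : WithBot ℕ) ∧
    R.degree < (n : WithBot ℕ) ∧ Q.degree < (n : WithBot ℕ) ∧ S.degree < ((n + 1 : ℕ) : WithBot ℕ) ∧
    (1 ≤ n → S.degree < (n : WithBot ℕ)) ∧
    ∀ E, T V E n 0 0 = P.eval E ∧ T V E n 0 1 = Q.eval E ∧ T V E n 1 0 = R.eval E ∧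
      T V E n 1 1 = S.eval E := by
  induction n with
  | zero =>
    refine ⟨1, 0, 0, 1, monic_one, by simp, by simp, by simp, ?_, by simp, ?_⟩
    · rw [degree_one]; exact_mod_cast Nat.zero_lt_one
    · intro E; simp
  | succ n ih =>
    obtain ⟨P, Q, R, S, hP, hPd, hR, hQ, hS, hS1, hE⟩ := ih
    have hlt : (n : WithBot ℕ) < ((n + 1 : ℕ) : WithBot ℕ) := by exact_mod_cast Nat.lt_succ_self n
    have hXP : ((X - C (V n)) * P).Monic := (monic_X_sub_C _).mul hP
    have hXPd : ((X - C (V n)) * P).degree = ((n + 1 : ℕ) : WithBot ℕ) := by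
      rw [degree_mul, degree_X_sub_C, hPd]; push_cast; ring
    have hRlt : R.degree < ((X - C (V n)) * P).degree := by rw [hXPd]; exact hR.trans hlt
    refine ⟨(X - C (V n)) * P - R, (X - C (V n)) * Q - S, P, Q, ?_, ?_, ?_, ?_, ?_, ?_, ?_⟩
    · exact hXP.sub_of_left hRlt
    · rw [degree_sub_eq_left_of_degree_lt hRlt, hXPd]
    · rw [hPd]; exact hlt
    · refine lt_of_le_of_lt (degree_sub_le _ _) (max_lt ?_ hS)
      by_cases hQ0 : Q = 0
      · rw [hQ0, mul_zero, degree_zero]; exact WithBot.bot_lt_coe _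
      · rw [degree_mul, degree_X_sub_C, degree_eq_natDegree hQ0]
        rw [degree_eq_natDegree hQ0] at hQ
        have : Q.natDegree < n := by exact_mod_cast hQ
        have h2 : 1 + Q.natDegree < n + 1 := by omega
        exact_mod_cast h2
    · exact hQ.trans (hlt.trans (by exact_mod_cast Nat.lt_succ_self (n + 1)))
    · intro _; exact hQ.trans hlt
    · intro E
      obtain ⟨h00, h01, h10, h11⟩ := hE E
      rw [T_succ]
      refine ⟨?_, ?_, ?_, ?_⟩ <;> simp only [mul_ent, Am_00, Am_01, Am_10, Am_11, h00, h01, h10,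
        h11, eval_sub, eval_mul, eval_X, eval_C] <;> ring

open Polynomial in
/-- Level sets of the trace are finite. -/
lemma trace_level_finite (V : ℕ → ℝ) {n : ℕ} (hn : 1 ≤ n) (c : ℝ) :
    {E : ℝ | T V E n 0 0 + T V E n 1 1 = c}.Finite := by
  obtain ⟨P, Q, R, S, hP, hPd, hR, hQ, hS, hS1, hE⟩ := T_poly V n
  have hSn := hS1 hn
  have hdeg : (P + S).degree = (n : WithBot ℕ) := by
    rw [degree_add_eq_left_of_degree_lt (by rw [hPd]; exact hSn), hPd]
  have hc : (C c : ℝ[X]).degree < (P + S).degree := by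
    rw [hdeg]
    refine lt_of_le_of_lt degree_C_le ?_
    exact_mod_cast hn
  have hne : (P + S - C c) ≠ 0 := by
    intro h
    have h2 : (P + S - C c).degree = (n : WithBot ℕ) := by
      rw [degree_sub_eq_left_of_degree_lt hc, hdeg]
    rw [h, degree_zero] at h2
    exact absurd h2 (by simp)
  refine ((P + S - C c).roots.toFinset.finite_toSet).subset ?_
  intro E hE'
  rw [Set.mem_ofPred_eq] at hE'
  obtain ⟨h00, h01, h10, h11⟩ := hE E
  simp only [Finset.mem_coe, Multiset.mem_toFinset, mem_roots hne, IsRoot.def, eval_sub, eval_add,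
    eval_C]
  rw [← h00, ← h11, hE', sub_self]

/-- Energies where the rotation angle may be rational. -/
def badE (V : ℕ → ℝ) (p : ℕ) : Set ℝ :=
  ⋃ r : ℚ, {E : ℝ | T V E p 0 0 + T V E p 1 1 = 2 * cos (r * π)}

lemma badE_countable (V : ℕ → ℝ) {p : ℕ} (hp : 1 ≤ p) : (badE V p).Countable :=
  Set.countable_iUnion (fun r => (trace_level_finite V hp _).countable)

lemma irrational_of_notMem {V : ℕ → ℝ} {p : ℕ} {E t : ℝ} (hE : E ∉ badE V p)
    (ht : cos t = (T V E p 0 0 + T V E p 1 1) / 2) : Irrational (t / π) := by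
  rintro ⟨r, hr⟩
  apply hE
  refine Set.mem_iUnion.mpr ⟨r, ?_⟩
  have h1 : t = r * π := by
    have hpi := Real.pi_ne_zero
    field_simp at hr
    linarith
  show T V E p 0 0 + T V E p 1 1 = 2 * cos (r * π)
  rw [← h1, ht]; ring

end Pool.Agent.TMLim
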