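import Mathlib

/-!
# Weyl equidistribution for irrational rotations of the circle of length `π`
-/

set_option autoImplicit false

open Real MeasureTheory Filter Topology Set AddCircle

namespace Pool.Agent.TMLim

instance factPi : Fact (0 < π) := ⟨Real.pi_pos⟩

lemma fourier_add_arg (n : ℤ) (x y : AddCircle π) :
    fourier n (x + y) = fourier n x * fourier n y := by
  rw [fourier_apply, fourier_apply, fourier_apply, smul_add, AddCircle.toCircle_add, Circle.coe_mul]

/-- Weyl equidistribution, complex valued. -/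
lemma weyl_complex (a : AddCircle π) (ha : ∀ n : ℤ, n ≠ 0 → fourier n a ≠ 1)
    (f : C(AddCircle π, ℂ)) :
    Tendsto (fun K : ℕ => (∑ N ∈ Finset.range K, f ((N + 1) • a)) / (K : ℂ)) atTop
      (𝓝 (∫ x, f x ∂haarAddCircle)) := by
  have hfour : ∀ n : ℤ, Tendsto (fun K : ℕ =>
      (∑ N ∈ Finset.range K, (fourier n : C(AddCircle π, ℂ)) ((N + 1) • a)) / (K : ℂ)) atTop
      (𝓝 (∫ x, (fourier n : C(AddCircle π, ℂ)) x ∂haarAddCircle)) := by
    intro n
    by_cases hn : n = 0
    · subst hn
      simp only [fourier_zero, Finset.sum_const, Finset.card_range, nsmul_eq_mul, mul_one,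
        integral_const, probReal_univ, one_smul]
      refine Tendsto.congr' ?_ tendsto_const_nhds
      filter_upwards [eventually_ge_atTop 1] with K hK
      have : (K : ℂ) ≠ 0 := by exact_mod_cast (by omega : K ≠ 0)
      rw [div_self this]
    · set z : ℂ := fourier n a with hz
      have hz1 : z ≠ 1 := ha n hn
      have hnorm : ‖z‖ = 1 := by rw [hz, fourier_apply]; exact Circle.norm_coe _
      have hpow : ∀ N : ℕ, (fourier n : C(AddCircle π, ℂ)) ((N + 1) • a) = z ^ (N + 1) := by
        intro N
        induction N with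
        | zero => simp [hz]
        | succ N ih =>
          rw [succ_nsmul a (N + 1), fourier_add_arg n, ih, ← hz, pow_succ z (N + 1)]
      have hint : ∫ x, (fourier n : C(AddCircle π, ℂ)) x ∂haarAddCircle = 0 := by
        have h1 : ∫ x, (fourier n : C(AddCircle π, ℂ)) (x + a) ∂haarAddCircle
            = ∫ x, (fourier n : C(AddCircle π, ℂ)) x ∂haarAddCircle :=
          integral_add_right_eq_self _ a
        have h2 : ∫ x, (fourier n : C(AddCircle π, ℂ)) (x + a) ∂haarAddCircle
            = z * ∫ x, (fourier n : C(AddCircle π, ℂ)) x ∂haarAddCircle := by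
          rw [← integral_const_mul]
          congr 1
          ext x
          rw [fourier_add_arg n]
          ring
        rw [h2] at h1
        have h3 : (z - 1) * ∫ x, (fourier n : C(AddCircle π, ℂ)) x ∂haarAddCircle = 0 := by
          rw [sub_mul, h1, one_mul, sub_self]
        rcases mul_eq_zero.mp h3 with h | h
        · exact absurd (sub_eq_zero.mp h) hz1
        · exact h
      rw [hint]
      simp_rw [hpow]
      have hz1' : z - 1 ≠ 0 := sub_ne_zero.mpr hz1
      have hsum : ∀ K : ℕ, ∑ N ∈ Finset.range K, z ^ (N + 1) = z * ((z ^ K - 1) / (z - 1)) := by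
        intro K
        rw [← geom_sum_eq hz1 K, Finset.mul_sum]
        refine Finset.sum_congr rfl (fun i _ => ?_)
        ring
      rw [tendsto_zero_iff_norm_tendsto_zero]
      have hb : ∀ K : ℕ, ‖(∑ N ∈ Finset.range K, z ^ (N + 1)) / (K : ℂ)‖
          ≤ (2 / ‖z - 1‖) / (K : ℝ) := by
        intro K
        rw [hsum, norm_div, norm_mul, norm_div, hnorm, one_mul, Complex.norm_natCast]
        gcongr
        calc ‖z ^ K - 1‖ ≤ ‖z ^ K‖ + ‖(1 : ℂ)‖ := norm_sub_le _ _
          _ = 2 := by rw [norm_pow, hnorm, one_pow, norm_one]; norm_num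
      refine squeeze_zero (fun _ => norm_nonneg _) hb ?_
      exact tendsto_const_div_atTop_nhds_zero_nat _
  -- span
  have hspan : ∀ g ∈ Submodule.span ℂ (range (@fourier π)),
      Tendsto (fun K : ℕ => (∑ N ∈ Finset.range K, g ((N + 1) • a)) / (K : ℂ)) atTop
      (𝓝 (∫ x, g x ∂haarAddCircle)) := by
    intro g hg
    induction hg using Submodule.span_induction with
    | mem x hx =>
      obtain ⟨n, rfl⟩ := hx
      exact hfour n
    | zero => simp
    | add x y _ _ hx hy =>
      have hix : Integrable (fun t => x t) (haarAddCircle (T := π)) :=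
        x.continuous.integrable_of_hasCompactSupport (HasCompactSupport.of_compactSpace _)
      have hiy : Integrable (fun t => y t) (haarAddCircle (T := π)) :=
        y.continuous.integrable_of_hasCompactSupport (HasCompactSupport.of_compactSpace _)
      simp only [ContinuousMap.add_apply]
      rw [integral_add hix hiy]
      refine (hx.add hy).congr (fun K => ?_)
      rw [Finset.sum_add_distrib, add_div]
    | smul c x _ hx =>
      simp only [ContinuousMap.smul_apply, smul_eq_mul]
      rw [integral_const_mul]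
      refine (hx.const_mul c).congr (fun K => ?_)
      rw [← Finset.mul_sum, mul_div_assoc]
  -- approximation
  rw [Metric.tendsto_atTop]
  intro ε hε
  have hmem : f ∈ (Submodule.span ℂ (range (@fourier π))).topologicalClosure := by
    rw [span_fourier_closure_eq_top]; exact Submodule.mem_top
  have hmem' : f ∈ closure (Submodule.span ℂ (range (@fourier π)) : Set C(AddCircle π, ℂ)) := hmem
  obtain ⟨g, hg, hfg⟩ := Metric.mem_closure_iff.mp hmem' (ε / 4) (by positivity)
  have hfgx : ∀ x, ‖f x - g x‖ ≤ ε / 4 := by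
    intro x
    rw [dist_eq_norm] at hfg
    exact ((f - g).norm_coe_le_norm x).trans hfg.le
  obtain ⟨K₀, hK₀⟩ := (Metric.tendsto_atTop.mp (hspan g hg)) (ε / 4) (by positivity)
  refine ⟨K₀ + 1, fun K hK => ?_⟩
  have h1 := hK₀ K (by omega)
  rw [dist_eq_norm] at h1 ⊢
  have hKpos : (0 : ℝ) < K := by exact_mod_cast (by omega : 0 < K)
  have h2 : ‖(∑ N ∈ Finset.range K, f ((N + 1) • a)) / (K : ℂ)
      - (∑ N ∈ Finset.range K, g ((N + 1) • a)) / (K : ℂ)‖ ≤ ε / 4 := by
    rw [← sub_div, ← Finset.sum_sub_distrib, norm_div, Complex.norm_natCast]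
    rw [div_le_iff₀ hKpos]
    calc ‖∑ N ∈ Finset.range K, (f ((N + 1) • a) - g ((N + 1) • a))‖
        ≤ ∑ N ∈ Finset.range K, ‖f ((N + 1) • a) - g ((N + 1) • a)‖ := norm_sum_le _ _
      _ ≤ ∑ N ∈ Finset.range K, ε / 4 := Finset.sum_le_sum (fun i _ => hfgx _)
      _ = ε / 4 * K := by rw [Finset.sum_const, Finset.card_range, nsmul_eq_mul]; ring
  have h3 : ‖(∫ x, g x ∂haarAddCircle) - ∫ x, f x ∂(haarAddCircle (T := π))‖ ≤ ε / 4 := by
    have hif : Integrable (fun t => f t) (haarAddCircle (T := π)) :=
        f.continuous.integrable_of_hasCompactSupport (HasCompactSupport.of_compactSpace _)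
    have hig : Integrable (fun t => g t) (haarAddCircle (T := π)) :=
        g.continuous.integrable_of_hasCompactSupport (HasCompactSupport.of_compactSpace _)
    rw [← integral_sub hig hif]
    calc ‖∫ x, (g x - f x) ∂(haarAddCircle (T := π))‖
        ≤ (ε / 4) * ((haarAddCircle (T := π)).real univ) :=
          norm_integral_le_of_norm_le_const (Eventually.of_forall (fun x => by
            rw [norm_sub_rev]; exact hfgx x))
      _ = ε / 4 := by simp
  calc ‖(∑ N ∈ Finset.range K, f ((N + 1) • a)) / (K : ℂ) - ∫ x, f x ∂haarAddCircle‖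
      = ‖((∑ N ∈ Finset.range K, f ((N + 1) • a)) / (K : ℂ)
        - (∑ N ∈ Finset.range K, g ((N + 1) • a)) / (K : ℂ))
        + ((∑ N ∈ Finset.range K, g ((N + 1) • a)) / (K : ℂ) - ∫ x, g x ∂haarAddCircle)
        + ((∫ x, g x ∂haarAddCircle) - ∫ x, f x ∂haarAddCircle)‖ := by congr 1; ring
    _ ≤ ε / 4 + ε / 4 + ε / 4 := by
        refine (norm_add₃_le).trans ?_
        gcongr
    _ < ε := by linarith

/-- Weyl equidistribution, real valued periodic function. -/
lemma weyl_real {t : ℝ} (ht : Irrational (t / π)) {G : ℝ → ℝ} (hG : Continuous G)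
    (hper : Function.Periodic G π) :
    Tendsto (fun K : ℕ => (∑ N ∈ Finset.range K, G ((N + 1) * t)) / (K : ℝ)) atTop
      (𝓝 ((1 / π) * ∫ x in (0:ℝ)..π, G x)) := by
  set f : C(AddCircle π, ℂ) := ⟨fun x => ((hper.lift x : ℝ) : ℂ), by
    refine Complex.continuous_ofReal.comp ?_
    exact continuous_coinduced_dom.mpr hG⟩ with hf
  have hfx : ∀ x : ℝ, f (x : AddCircle π) = ((G x : ℝ) : ℂ) := by
    intro x
    simp only [hf, ContinuousMap.coe_mk, Function.Periodic.lift_coe]
  have ha : ∀ n : ℤ, n ≠ 0 → fourier n (t : AddCircle π) ≠ 1 := by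
    intro n hn h
    rw [fourier_coe_apply, Complex.exp_eq_one_iff] at h
    obtain ⟨m, hm⟩ := h
    have hpi : (π : ℂ) ≠ 0 := by exact_mod_cast Real.pi_ne_zero
    have h2 : (n : ℂ) * t = m * π := by
      have h3 : (2 * π * Complex.I) * ((n : ℂ) * t) = (2 * π * Complex.I) * (m * π) := by
        field_simp at hm
        linear_combination (2 * π * Complex.I) * hm
      have h4 : (2 * π * Complex.I : ℂ) ≠ 0 := by
        simp [Real.pi_ne_zero]
      exact mul_left_cancel₀ h4 h3
    have h5 : (n : ℝ) * t = m * π := by exact_mod_cast h2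
    apply ht
    refine ⟨(m : ℚ) / n, ?_⟩
    have hn' : (n : ℝ) ≠ 0 := by exact_mod_cast hn
    push_cast
    field_simp
    linarith
  have h := weyl_complex (t : AddCircle π) ha f
  have h1 : ∀ N : ℕ, f ((N + 1) • (t : AddCircle π)) = ((G ((N + 1) * t) : ℝ) : ℂ) := by
    intro N
    rw [← hfx]
    congr 1
    have : (((N : ℝ) + 1) * t) = (N + 1) • t := by
      rw [nsmul_eq_mul]; push_cast; ring
    rw [this]
    rfl
  simp_rw [h1] at h
  have h2 : ∫ x, f x ∂haarAddCircle = (((1 / π) * ∫ x in (0:ℝ)..π, G x : ℝ) : ℂ) := by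
    have h3 := AddCircle.intervalIntegral_preimage π 0 (fun x => f x)
    have h4 : (haarAddCircle : Measure (AddCircle π)) = (ENNReal.ofReal π)⁻¹ • volume := by
      rw [volume_eq_smul_haarAddCircle, smul_smul, ENNReal.inv_mul_cancel, one_smul]
      · simp [Real.pi_pos]
      · exact ENNReal.ofReal_ne_top
    rw [h4, integral_smul_measure, ← h3, zero_add]
    simp_rw [hfx]
    rw [intervalIntegral.integral_ofReal, ENNReal.toReal_inv, ENNReal.toReal_ofReal Real.pi_pos.le]
    rw [Complex.real_smul]
    push_cast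
    ring
  rw [h2] at h
  have h5 := (Complex.continuous_re.tendsto _).comp h
  rw [Complex.ofReal_re] at h5
  refine h5.congr (fun K => ?_)
  simp only [Function.comp_apply]
  rw [← Complex.ofReal_sum, ← Complex.ofReal_natCast, ← Complex.ofReal_div, Complex.ofReal_re]

end Pool.Agent.TMLim
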